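import Pool.Agent.CSCB.Schub

/-! Configurations from sequences of vectors. -/

namespace Pool.CSCB

open Module

section

variable {K V : Type*} [Field K] [AddCommGroup V] [Module K V]

lemma span_eq_of_smul {s s' : Set V} (h : ∀ x ∈ s, ∃ y ∈ s', ∃ c : K, x = c • y)
    (h' : ∀ x ∈ s', ∃ y ∈ s, ∃ c : K, x = c • y) :
    Submodule.span K s = Submodule.span K s' := by
  apply le_antisymm
  · rw [Submodule.span_le]
    intro x hx
    obtain ⟨y, hy, c, rfl⟩ := h x hx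
    exact Submodule.smul_mem _ _ (Submodule.subset_span hy)
  · rw [Submodule.span_le]
    intro x hx
    obtain ⟨y, hy, c, rfl⟩ := h' x hx
    exact Submodule.smul_mem _ _ (Submodule.subset_span hy)

/-- the basis vectors with signs, in reversed order -/
def bsv (N : ℕ) (t : K) (z : ℕ → V) (i : Fin N) : V := (t * (-1) ^ (i : ℕ)) • z (N - 1 - i)

/-- the matrix -/
def Mv (N : ℕ) (t : K) (C : ℕ → ℕ → K) : Matrix (Fin N) (Fin N) K :=
  Matrix.of fun i j => t⁻¹ * (-1) ^ (i : ℕ) * C j (N - 1 - i)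

lemma sgn_sq (i : ℕ) : ((-1 : K) ^ i) * (-1) ^ i = 1 := by
  rw [← mul_pow]
  simp

lemma z_eq_bsv {N : ℕ} {t : K} (ht : t ≠ 0) (z : ℕ → V) {j : ℕ} (hj : j < N) :
    z j = (t⁻¹ * (-1) ^ (N - 1 - j)) • bsv N t z ⟨N - 1 - j, by omega⟩ := by
  rw [bsv, smul_smul]
  have h1 : t⁻¹ * (-1) ^ (N - 1 - j) * (t * (-1) ^ (N - 1 - j)) = 1 := by
    calc t⁻¹ * (-1) ^ (N - 1 - j) * (t * (-1) ^ (N - 1 - j)) =
        (t⁻¹ * t) * ((-1) ^ (N - 1 - j) * (-1) ^ (N - 1 - j)) := by ring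
      _ = 1 := by rw [inv_mul_cancel₀ ht, sgn_sq, one_mul]
  simp only
  rw [h1, one_smul]
  congr 1
  omega

theorem cfg_of_vectors {N ρ₀ ρ₁ ρ₂ ρ₃ : ℕ} {t : K} (ht : t ≠ 0) {z : ℕ → V} {C : ℕ → ℕ → K}
    {E U₀ U₁ U₂ U₃ : Submodule K V} (hsum : ρ₀ + ρ₁ + ρ₂ + ρ₃ = 2 * N) (h0 : ρ₀ ≤ N)
    (h01 : N ≤ ρ₀ + ρ₁) (h1 : ρ₁ ≤ N)
    (hU₀ : U₀ ⊔ E = Submodule.span K {v | ∃ j < ρ₀, v = z j} ⊔ E)
    (hU₁ : U₁ ⊔ E = Submodule.span K {v | ∃ j < ρ₁, v = z (ρ₀ + j)} ⊔ E)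
    (hU₂ : U₂ ⊔ E = Submodule.span K {v | ∃ j < ρ₂, v = z (ρ₀ + ρ₁ + j)} ⊔ E)
    (hU₃ : U₃ ⊔ E = Submodule.span K {v | ∃ j < ρ₃, v = z (ρ₀ + ρ₁ + ρ₂ + j)} ⊔ E)
    (htop : E ⊔ Submodule.span K {v | ∃ j < N, v = z j} = ⊤)
    (hind : ∀ c : ℕ → K, ∑ i ∈ Finset.range N, c i • z i ∈ E → ∀ i < N, c i = 0)
    (hrel : ∀ j < N, z (N + j) - ∑ i ∈ Finset.range N, C j i • z i ∈ E) :
    Cfg (N - ρ₀) (ρ₀ + ρ₁ - N) ρ₂ E U₀ U₁ U₂ U₃ (bsv N t z) (fun j : Fin N => z (N + j))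
      (Mv N t C) where
  top := by
    rw [← htop]
    congr 1
    apply span_eq_of_smul
    · rintro _ ⟨i, rfl⟩
      exact ⟨z (N - 1 - i), ⟨N - 1 - i, by omega, rfl⟩, _, rfl⟩
    · rintro _ ⟨j, hj, rfl⟩
      exact ⟨_, ⟨⟨N - 1 - j, by omega⟩, rfl⟩, _, z_eq_bsv ht z hj⟩
  ind := by
    intro c hc
    let c' : ℕ → K := fun i => if hi : N - 1 - i < N then t * (-1) ^ (N - 1 - i) *
      c ⟨N - 1 - i, hi⟩ else 0
    have h2 : ∑ i, c i • bsv N t z i = ∑ i ∈ Finset.range N, c' i • z i := by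
      rw [← Finset.sum_range_reflect, ← Fin.sum_univ_eq_sum_range]
      refine Finset.sum_congr rfl fun i _ => ?_
      have hi := i.2
      have e1 : N - 1 - (N - 1 - (i : ℕ)) = i := by omega
      have e2 : c' (N - 1 - i) = t * (-1) ^ (i : ℕ) * c i := by
        simp only [c']
        rw [dif_pos (by omega)]
        congr 2
        · rw [e1]
        · exact Fin.ext e1
      rw [e2, bsv, smul_smul]
      congr 1
      ring
    rw [h2] at hc
    have h3 := hind c' hc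
    funext i
    have hi := i.2
    have h4 := h3 (N - 1 - i) (by omega)
    have e1 : N - 1 - (N - 1 - (i : ℕ)) = i := by omega
    simp only [c'] at h4
    rw [dif_pos (by omega)] at h4
    have e3 : (⟨N - 1 - (N - 1 - (i : ℕ)), by omega⟩ : Fin N) = i := Fin.ext e1
    rw [e3] at h4
    rcases mul_eq_zero.1 h4 with h5 | h5
    · exact absurd h5 (mul_ne_zero ht (pow_ne_zero _ (by simp)))
    · exact h5
  rel := by
    intro j
    have h2 := hrel j j.2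
    have h3 : ∑ i, Mv N t C i j • bsv N t z i = ∑ i ∈ Finset.range N, C j i • z i := by
      rw [← Finset.sum_range_reflect, ← Fin.sum_univ_eq_sum_range (fun i => C j (N - 1 - i) •
        z (N - 1 - i))]
      refine Finset.sum_congr rfl fun i _ => ?_
      rw [Mv, Matrix.of_apply, bsv, smul_smul]
      congr 1
      calc t⁻¹ * (-1) ^ (i : ℕ) * C j (N - 1 - i) * (t * (-1) ^ (i : ℕ)) =
          (t⁻¹ * t) * ((-1) ^ (i : ℕ) * (-1) ^ (i : ℕ)) * C j (N - 1 - i) := by ring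
        _ = C j (N - 1 - i) := by rw [inv_mul_cancel₀ ht, sgn_sq, one_mul, one_mul]
    rw [h3]
    exact h2
  u1 := by
    rw [hU₀]
    congr 1
    apply span_eq_of_smul
    · rintro _ ⟨j, hj, rfl⟩
      exact ⟨_, ⟨⟨N - 1 - j, by omega⟩, by
        simp only
        omega, rfl⟩, _, z_eq_bsv ht z (by omega)⟩
    · rintro _ ⟨i, hi, rfl⟩
      exact ⟨z (N - 1 - i), ⟨N - 1 - i, by omega, rfl⟩, _, rfl⟩
  u2 := by
    rw [hU₁]
    congr 1
    apply span_eq_of_smul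
    · rintro _ ⟨j, hj, rfl⟩
      by_cases hjN : ρ₀ + j < N
      · exact ⟨_, Or.inl ⟨⟨N - 1 - (ρ₀ + j), by omega⟩, by
          simp only
          omega, rfl⟩, _, z_eq_bsv ht z hjN⟩
      · refine ⟨z (N + (ρ₀ + j - N)), Or.inr ⟨⟨ρ₀ + j - N, by omega⟩, by
          simp only
          omega, rfl⟩, 1, ?_⟩
        rw [one_smul]
        congr 1
        omega
    · rintro _ (⟨i, hi, rfl⟩ | ⟨j, hj, rfl⟩)
      · refine ⟨z (N - 1 - i), ⟨N - 1 - i - ρ₀, by omega, ?_⟩, _, rfl⟩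
        congr 1
        omega
      · refine ⟨z (N + j), ⟨N + j - ρ₀, by omega, ?_⟩, 1, (one_smul _ _).symm⟩
        congr 1
        omega
  u3 := by
    rw [hU₂]
    congr 2
    ext v
    constructor
    · rintro ⟨j, hj, rfl⟩
      refine ⟨⟨ρ₀ + ρ₁ - N + j, by omega⟩, by simp, by simpa using hj, ?_⟩
      simp only
      congr 1
      omega
    · rintro ⟨j, hj, hj', rfl⟩
      refine ⟨j - (ρ₀ + ρ₁ - N), by omega, ?_⟩
      congr 1
      omega
  u4 := by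
    rw [hU₃]
    congr 2
    ext v
    constructor
    · rintro ⟨j, hj, rfl⟩
      refine ⟨⟨ρ₀ + ρ₁ - N + ρ₂ + j, by omega⟩, by simp, ?_⟩
      simp only
      congr 1
      omega
    · rintro ⟨j, hj, rfl⟩
      refine ⟨j - (ρ₀ + ρ₁ - N + ρ₂), by omega, ?_⟩
      congr 1
      omega

end

end Pool.CSCB
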