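import Pool.Agent.CSCB.Star
import Pool.Agent.CSCB.Vec
import Pool.Agent.Helper53.TPR.Flags

/-! The cosecant case. -/

namespace Pool.CSCB

open Module Matrix Pool.CSC

noncomputable section

/-- the complex matrix of a real array -/
def Mc (N : ℕ) (A : ℕ → ℕ → ℝ) : Matrix (Fin N) (Fin N) ℂ :=
  (Matrix.of fun i j : Fin N => A i j).map (fun x : ℝ => (x : ℂ))

lemma Gz_Mc (N h δ p : ℕ) (A : ℕ → ℕ → ℝ) (x : ℝ) :
    Gz h δ p (Mc N A) (x : ℂ) =
      (Gz h δ p (Matrix.of fun i j : Fin N => A i j) x).map (fun x : ℝ => (x : ℂ)) := by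
  ext i j
  simp only [Gz, Mc, Matrix.of_apply, Matrix.map_apply]
  split_ifs <;> push_cast <;> ring

lemma det_map_ofReal {N : ℕ} (M : Matrix (Fin N) (Fin N) ℝ) :
    (M.map (fun x : ℝ => (x : ℂ))).det = ((M.det : ℝ) : ℂ) :=
  (RingHom.map_det Complex.ofRealHom M).symm

/-- the data of a strictly totally positive matrix -/
theorem mdata_stp {N h δ p q : ℕ} (hN : δ + p + q = N) (hh : h ≤ p) (hd : δ + h ≤ N)
    (A : ℕ → ℕ → ℝ) (hA : TPR.STP N A) :
    ∃ (z : Fin (min h q) → ℝ) (v : Fin (min h q) → Fin N → ℝ) (c : ℝ),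
      MData h δ p q (min h q) (Mc N A) (fun i => (z i : ℂ)) (fun i j => ((v i j : ℝ) : ℂ)) ∧
      c ≠ 0 ∧ ∀ x : ℝ, (Gz h δ p (Matrix.of fun i j : Fin N => A i j) x).det =
        c * ∏ i, (x - z i) := by
  have e : δ + (p + q) = N := by omega
  subst e
  obtain ⟨z, hz, hz0, c, hc, hdet⟩ := star hh hd A hA
  have hker : ∀ i, ∃ v : Fin (δ + (p + q)) → ℝ, v ≠ 0 ∧
      v ᵥ* Gz h δ p (Matrix.of fun i j : Fin (δ + (p + q)) => A i j) (z i) = 0 := by
    intro i
    apply Matrix.exists_vecMul_eq_zero_iff.2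
    rw [hdet, Finset.prod_eq_zero (Finset.mem_univ i) (sub_self _), mul_zero]
  choose v hv hv' using hker
  refine ⟨z, v, c, ?_, hc, hdet⟩
  refine MData.of_det hN hh hd rfl ?_ ?_ ?_ ?_ ?_ ?_ ?_
  · have h1 := Gz_Mc (δ + (p + q)) h δ p A 0
    rw [Complex.ofReal_zero] at h1
    rw [h1, det_map_ofReal, hdet, Complex.ofReal_ne_zero]
    refine mul_ne_zero hc (Finset.prod_ne_zero_iff.2 fun i _ => ?_)
    rw [zero_sub]
    exact neg_ne_zero.2 (hz0 i)
  · rw [Mc, det_map_ofReal, Complex.ofReal_ne_zero]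
    exact hA.pos.ne'
  · have h1 : ((Mc (δ + (p + q)) A).submatrix
        (fun i : Fin h => (⟨i, by omega⟩ : Fin (δ + (p + q))))
        (fun j : Fin h => (⟨δ + j, by omega⟩ : Fin (δ + (p + q))))) =
        (Matrix.of fun i j : Fin h => A i (δ + j)).map (fun x : ℝ => (x : ℂ)) := by
      ext i j
      rfl
    rw [h1, det_map_ofReal, Complex.ofReal_ne_zero]
    have h2 := hA h (fun i => i) (fun j => δ + j) (fun i j hij _ => hij)
      (fun i j hij _ => by omega) (fun i hi => by omega) (fun i hi => by omega)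
    exact h2.ne'
  · intro i j hij
    exact hz (Complex.ofReal_injective hij)
  · intro i
    exact Complex.ofReal_ne_zero.2 (hz0 i)
  · intro i h0
    apply hv i
    funext j
    exact Complex.ofReal_injective (congrFun h0 j)
  · intro i
    rw [Gz_Mc]
    funext j
    have h1 := congrArg (fun x : ℝ => (x : ℂ)) (congrFun (hv' i) j)
    simp only [Matrix.vecMul, dotProduct, Pi.zero_apply, Complex.ofReal_sum, Complex.ofReal_mul,
      Complex.ofReal_zero] at h1 ⊢
    exact h1

/-- conjugation of vectors -/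
def cj {n : ℕ} (x : Fin n → ℂ) : Fin n → ℂ := fun i => (starRingEnd ℂ) (x i)

/-- functionals with real values on a real basis are real -/
lemma realF_of {n N h δ p : ℕ} {E U₁ U₂ U₃ U₄ : Submodule ℂ (Fin n → ℂ)}
    {bs cs : Fin N → Fin n → ℂ} {M : Matrix (Fin N) (Fin N) ℂ}
    (hC : Cfg h δ p E U₁ U₂ U₃ U₄ bs cs M) (hE : IsReal n E) (hbs : ∀ i, cj (bs i) = bs i)
    {f : Dual ℂ (Fin n → ℂ)} (hf : f ∈ E.dualAnnihilator)
    (hfr : ∀ i, (starRingEnd ℂ) (f (bs i)) = f (bs i)) : RealF f := by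
  let g : Dual ℂ (Fin n → ℂ) :=
    { toFun := fun x => (starRingEnd ℂ) (f (cj x))
      map_add' := fun x y => by
        have : cj (x + y) = cj x + cj y := by
          funext i
          simp [cj]
        rw [this, map_add, map_add]
      map_smul' := fun c x => by
        have : cj (c • x) = (starRingEnd ℂ) c • cj x := by
          funext i
          simp [cj]
        rw [this, map_smul, smul_eq_mul, map_mul, Complex.conj_conj]
        rfl }
  have hg : g ∈ E.dualAnnihilator := by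
    rw [Submodule.mem_dualAnnihilator] at hf ⊢
    intro x hx
    have h0 : f (cj x) = 0 := hf _ (hE x hx)
    change (starRingEnd ℂ) (f (cj x)) = 0
    rw [h0, map_zero]
  have h1 : g = f := by
    refine hC.ext hg hf fun i => ?_
    change (starRingEnd ℂ) (f (cj (bs i))) = f (bs i)
    rw [hbs, hfr]
  intro x
  have h2 : g x = f x := by rw [h1]
  change (starRingEnd ℂ) (f (cj x)) = f x at h2
  rw [← h2, Complex.conj_conj]
  rfl

section

variable {k n m κ N : ℕ} {lam : Fin m → Fin k → ℕ} {a b : Fin m → ℕ} {τ : Fin 4 → Fin m}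
  {r : Fin 4 → ℕ}

/-- from block descriptions to the hypotheses of `cfg_of_vectors` -/
lemma block_sup {V : Type*} [AddCommGroup V] [Module ℂ V] {U F₀ E : Submodule ℂ V} {y z : ℕ → V}
    {ρ o : ℕ} (hU : U = F₀ ⊔ Submodule.span ℂ {v | ∃ j < ρ, v = y j}) (hF : F₀ ≤ E)
    (hz : ∀ j < ρ, z (o + j) = y j) :
    U ⊔ E = Submodule.span ℂ {v | ∃ j < ρ, v = z (o + j)} ⊔ E := by
  have h1 : {v | ∃ j < ρ, v = z (o + j)} = {v | ∃ j < ρ, v = y j} := by
    ext v
    constructor
    · rintro ⟨j, hj, rfl⟩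
      exact ⟨j, hj, hz j hj⟩
    · rintro ⟨j, hj, rfl⟩
      exact ⟨j, hj, (hz j hj).symm⟩
  rw [h1, hU]
  apply le_antisymm
  · exact sup_le (sup_le (hF.trans le_sup_right) le_sup_left) le_sup_right
  · exact sup_le (le_sup_right.trans le_sup_left) le_sup_right

lemma sum_fin4 (r : Fin 4 → ℕ) (π : Equiv.Perm (Fin 4)) {s : ℕ} (h : ∑ i, r i = s) :
    r (π 0) + r (π 1) + r (π 2) + r (π 3) = s := by
  rw [← Equiv.sum_comp π, Fin.sum_univ_four] at h
  exact h

/-- the cosecant case -/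
theorem cosecant_main (hP : Prob k n m κ N lam a b τ r) (hr2 : ∑ i, r i = 2 * N)
    (hrN : ∀ i, r i ≤ N) (I : Fin m → Set ℝ) (F : Fin m → ℕ → Submodule ℂ (Fin n → ℂ))
    (hI : ∀ l, (I l).OrdConnected) (hd : Pairwise (fun l l' => Disjoint (I l) (I l')))
    (hF : ∀ l, Cosecant n (I l) (F l)) :
    ∃ π : Equiv.Perm (Fin 4), N ≤ r (π 0) + r (π 1) ∧ N ≤ r (π 0) + r (π 2) ∧
      (⋂ l, schub k n (lam l) (F l)).encard =
        ((min (N - r (π 0)) (r (π 3))).choose κ : ℕ) ∧
      ∀ H ∈ ⋂ l, schub k n (lam l) (F l), IsReal n H ∧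
        ∀ φ : ↥H →ₗ[ℂ] (Fin n → ℂ) ⧸ H, (∀ l, TangentTo k n (lam l) (F l) H φ) → φ = 0 := by
  have hk := hP.hk
  have hκ := hP.hκ
  have hn := hP.hn
  obtain ⟨π, y, b', C, hb, hy, h01, h02, htop, hrel, hstp, hyr, hbr, hind⟩ :=
    TPR.cosecant_stp (by omega) I hI hd F hF a τ hP.hτ r hrN hP.hN hr2
  have hsum := sum_fin4 r π hr2
  have h0 := hrN (π 0)
  have h1 := hrN (π 1)
  set z := TPR.cat4 y r π with hz
  set E : Submodule ℂ (Fin n → ℂ) := ⨆ l, F l (a l) with hE
  have hblk : ∀ i : Fin 4, Us a τ r F i ⊔ E =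
      Submodule.span ℂ {v | ∃ j < r i, v = y i j} ⊔ E := by
    intro i
    have := block_sup (z := y i) (o := 0) (hy i) (le_iSup (fun l => F l (a l)) (τ i))
      (fun j _ => by rw [zero_add])
    simp only [zero_add] at this
    exact this
  have hset : ∀ (i : Fin 4) (o : ℕ), (∀ j < r i, z (o + j) = y i j) →
      Us a τ r F i ⊔ E = Submodule.span ℂ {v | ∃ j < r i, v = z (o + j)} ⊔ E := by
    intro i o h
    rw [hblk]
    congr 2
    ext v
    constructor
    · rintro ⟨j, hj, rfl⟩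
      exact ⟨j, hj, (h j hj).symm⟩
    · rintro ⟨j, hj, rfl⟩
      exact ⟨j, hj, h j hj⟩
  have hU0 := hset (π 0) 0 (fun j hj => by
    rw [hz, TPR.cat4, zero_add, if_pos hj])
  have hU1 := hset (π 1) (r (π 0)) (fun j hj => by
    rw [hz, TPR.cat4, if_neg (by omega), if_pos (by omega), Nat.add_sub_cancel_left])
  have hU2 := hset (π 2) (r (π 0) + r (π 1)) (fun j hj => by
    rw [hz, TPR.cat4, if_neg (by omega), if_neg (by omega), if_pos (by omega),
      Nat.add_sub_cancel_left])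
  have hU3 := hset (π 3) (r (π 0) + r (π 1) + r (π 2)) (fun j hj => by
    rw [hz, TPR.cat4, if_neg (by omega), if_neg (by omega), if_neg (by omega),
      Nat.add_sub_cancel_left])
  have hcfg := cfg_of_vectors (t := (1 : ℂ)) one_ne_zero hsum h0 h01 h1
    (by simpa only [zero_add] using hU0) hU1 hU2 hU3 htop hind hrel
  have hM : Mv N (1 : ℂ) (fun j i => (C j i : ℂ)) =
      Mc N (fun a b => (-1) ^ a * C b (N - 1 - a)) := by
    ext i j
    simp [Mv, Mc]
  rw [hM] at hcfg
  obtain ⟨zz, v, c, hMD, -, -⟩ := mdata_stp (N := N) (h := N - r (π 0))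
    (δ := r (π 0) + r (π 1) - N) (p := r (π 2)) (q := r (π 3)) (by omega) (by omega) (by omega)
    _ hstp
  obtain ⟨w, u, hFns⟩ := hcfg.exists_fns (fun i j => ((v i j : ℝ) : ℂ))
  have hR := dual_main hcfg hMD hFns κ
  have hfl : ∀ l, IsFlag n (F l) := fun l => isFlag_cosecant (by omega) (hF l)
  have hER : IsReal n E := by
    have hle : ∀ l, F l (a l) ≤ E := fun l => le_iSup (fun l => F l (a l)) l
    intro x hx
    induction hx using Submodule.iSup_induction' with
    | mem l x hx =>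
      exact hle l (isReal_cosecant (by omega) (hF l) (by
        have := hP.hab l
        omega) x hx)
    | zero =>
      have : (fun i : Fin n => (starRingEnd ℂ) ((0 : Fin n → ℂ) i)) = 0 := by
        funext i
        simp
      rw [this]
      exact E.zero_mem
    | add x y _ _ hx hy =>
      have : (fun i : Fin n => (starRingEnd ℂ) ((x + y) i)) =
          (fun i => (starRingEnd ℂ) (x i)) + fun i => (starRingEnd ℂ) (y i) := by
        funext i
        simp
      rw [this]
      exact E.add_mem hx hy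
  have hzr : ∀ j, cj (z j) = z j := by
    intro j
    funext x
    rw [hz, cj, TPR.cat4]
    split_ifs <;> exact hyr _ _ _
  have hbsr : ∀ i, cj (bsv N (1 : ℂ) z i) = bsv N (1 : ℂ) z i := by
    intro i
    have h2 := hzr (N - 1 - i)
    funext x
    have h3 := congrFun h2 x
    simp only [cj, bsv, Pi.smul_apply, smul_eq_mul, map_mul, map_one, map_pow, map_neg] at h3 ⊢
    rw [h3]
  have hw : ∀ i, RealF (w i) := fun i => realF_of hcfg hER hbsr (hFns.wE i) fun j => by
    rw [hFns.wb, up]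
    split_ifs
    · exact Complex.conj_ofReal _
    · exact map_zero _
  have hu : ∀ i, RealF (u i) := fun i => realF_of hcfg hER hbsr (hFns.uE i) fun j => by
    rw [hFns.ub, lo]
    split_ifs
    · exact map_zero _
    · exact Complex.conj_ofReal _
  refine ⟨π, h01, h02, inter_encard hP hfl π hR, fun H hH => ⟨?_, ?_⟩⟩
  · exact inter_real hP hfl π hR hw hu hH
  · exact fun φ hφ => inter_tan hP hfl π hR hH φ hφ

end

end

end Pool.CSCB
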