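import Pool.Agent.Helper53.CSC.Defs

/-! Configurations of four subspaces of a quotient space, and the interface between the
total positivity part and the linear algebra part. -/

namespace Pool.CSCB

open Module

/-- all minors of a square matrix are positive -/
def STP {N : ℕ} (M : Matrix (Fin N) (Fin N) ℝ) : Prop :=
  ∀ (s : ℕ) (f g : Fin s → Fin N), StrictMono f → StrictMono g → 0 < (M.submatrix f g).det

/-- the pencil of matrices of a configuration; first index: rows `i < h` and `h ≤ i`, second index: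
columns `j < δ`, `δ ≤ j < δ + p` and `δ + p ≤ j` -/
def Gz {K : Type*} [Ring K] {N : ℕ} (h δ p : ℕ) (M : Matrix (Fin N) (Fin N) K) (z : K) :
    Matrix (Fin N) (Fin N) K :=
  Matrix.of fun i j => M i j *
    (if (i : ℕ) < h then (if (j : ℕ) < δ then 0 else if (j : ℕ) < δ + p then 1 else z - 1)
    else (if (j : ℕ) < δ + p then 1 else -1))

/-- `V / E` has the basis `bs`; the vectors `cs` are modulo `E` the columns of the matrix `M` in
this basis; four subspaces `U₁, ..., U₄` are modulo `E` spanned by blocks of these vectors -/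
structure Cfg {K V : Type*} [Field K] [AddCommGroup V] [Module K V] {N : ℕ} (h δ p : ℕ)
    (E U₁ U₂ U₃ U₄ : Submodule K V) (bs cs : Fin N → V) (M : Matrix (Fin N) (Fin N) K) :
    Prop where
  top : E ⊔ Submodule.span K (Set.range bs) = ⊤
  ind : ∀ c : Fin N → K, ∑ i, c i • bs i ∈ E → c = 0
  rel : ∀ j, cs j - ∑ i, M i j • bs i ∈ E
  u1 : U₁ ⊔ E = Submodule.span K {v | ∃ i : Fin N, h ≤ (i : ℕ) ∧ v = bs i} ⊔ E
  u2 : U₂ ⊔ E = Submodule.span K ({v | ∃ i : Fin N, (i : ℕ) < h ∧ v = bs i} ∪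
    {v | ∃ j : Fin N, (j : ℕ) < δ ∧ v = cs j}) ⊔ E
  u3 : U₃ ⊔ E = Submodule.span K {v | ∃ j : Fin N, δ ≤ (j : ℕ) ∧ (j : ℕ) < δ + p ∧ v = cs j} ⊔ E
  u4 : U₄ ⊔ E = Submodule.span K {v | ∃ j : Fin N, δ + p ≤ (j : ℕ) ∧ v = cs j} ⊔ E

end Pool.CSCB
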