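import Mathlib

/-! Four subspaces: the subspaces `W` of dimension `2κ` which meet each of four given subspaces
in dimension at least `κ`. -/

namespace Pool.CSCB

open Module

set_option linter.unusedSectionVars false

variable {K D : Type*} [Field K] [AddCommGroup D] [Module K D]

/-- a subspace of `K^m` invariant under a diagonal matrix with distinct entries is a coordinate
subspace -/
lemma diag_inv {m : ℕ} (z : Fin m → K) (hz : Function.Injective z) (R : Submodule K (Fin m → K))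
    (hR : ∀ c ∈ R, (fun i => z i * c i) ∈ R) {c : Fin m → K} (hc : c ∈ R) {i : Fin m}
    (hi : c i ≠ 0) : Pi.single i (1 : K) ∈ R := by
  classical
  have h1 : ∀ p : Polynomial K, (fun j => p.eval (z j) * c j) ∈ R := by
    intro p
    induction p using Polynomial.induction_on' with
    | add p q hp hq =>
      have : (fun j => (p + q).eval (z j) * c j) =
          (fun j => p.eval (z j) * c j) + fun j => q.eval (z j) * c j := by
        funext j
        simp only [Polynomial.eval_add, Pi.add_apply]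
        ring
      rw [this]
      exact R.add_mem hp hq
    | monomial k a =>
      have h2 : ∀ k : ℕ, (fun j => z j ^ k * c j) ∈ R := by
        intro k
        induction k with
        | zero =>
          simpa using hc
        | succ k ih =>
          have := hR _ ih
          convert this using 2 with j
          ring
      have : (fun j => (Polynomial.monomial k a).eval (z j) * c j) =
          a • fun j => z j ^ k * c j := by
        funext j
        simp only [Polynomial.eval_monomial, Pi.smul_apply, smul_eq_mul]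
        ring
      rw [this]
      exact R.smul_mem _ (h2 k)
  set p : Polynomial K := ∏ j ∈ Finset.univ.erase i, (Polynomial.X - Polynomial.C (z j)) with hp
  have h3 := h1 p
  have h4 : p.eval (z i) ≠ 0 := by
    rw [hp, Polynomial.eval_prod, Finset.prod_ne_zero_iff]
    intro j hj
    simp only [Polynomial.eval_sub, Polynomial.eval_X, Polynomial.eval_C]
    intro h0
    rw [sub_eq_zero] at h0
    exact (Finset.ne_of_mem_erase hj) (hz h0).symm
  have h5 : (fun j => p.eval (z j) * c j) = (p.eval (z i) * c i) • Pi.single i (1 : K) := by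
    funext j
    rw [Pi.smul_apply, smul_eq_mul]
    by_cases hj : j = i
    · subst hj
      simp
    · rw [Pi.single_eq_of_ne hj, mul_zero, hp, Polynomial.eval_prod]
      rw [Finset.prod_eq_zero (i := j) (Finset.mem_erase.2 ⟨hj, Finset.mem_univ j⟩), zero_mul]
      simp
  rw [h5] at h3
  exact (R.smul_mem_iff (mul_ne_zero h4 hi)).1 h3

/-- the data for four subspaces -/
structure Sys (m : ℕ) (A₁ A₂ A₃ A₄ : Submodule K D) (z : Fin m → K) (w u : Fin m → D) :
    Prop where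
  d12 : A₁ ⊓ A₂ = ⊥
  d34 : A₃ ⊓ A₄ ⊓ (A₁ ⊔ A₂) = ⊥
  d13 : A₁ ⊓ A₃ = ⊥
  zinj : Function.Injective z
  z0 : ∀ i, z i ≠ 0
  w0 : ∀ i, w i ≠ 0
  h1 : ∀ i, w i ∈ A₁
  h2 : ∀ i, u i ∈ A₂
  h3 : ∀ i, w i + u i ∈ A₃
  h4 : ∀ i, (z i - 1) • w i - u i ∈ A₄
  dim : finrank K ↥A₁ = m

/-- the solutions -/
def Sols (κ : ℕ) (A₁ A₂ A₃ A₄ : Submodule K D) : Set (Submodule K D) :=
  {W | finrank K ↥W = 2 * κ ∧ κ ≤ finrank K ↥(W ⊓ A₁) ∧ κ ≤ finrank K ↥(W ⊓ A₂) ∧
    κ ≤ finrank K ↥(W ⊓ A₃) ∧ κ ≤ finrank K ↥(W ⊓ A₄)}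

/-- the solution of a set of eigenvalues -/
def WS {m : ℕ} (w u : Fin m → D) (S : Finset (Fin m)) : Submodule K D :=
  Submodule.span K (w '' S) ⊔ Submodule.span K (u '' S)

lemma uniq_of_disj {A B : Submodule K D} (h : A ⊓ B = ⊥) {a a' b b' : D} (ha : a ∈ A)
    (ha' : a' ∈ A) (hb : b ∈ B) (hb' : b' ∈ B) (e : a + b = a' + b') : a = a' ∧ b = b' := by
  have h1 : a - a' ∈ A ⊓ B := by
    refine ⟨A.sub_mem ha ha', ?_⟩
    have : a - a' = b' - b := by
      rw [sub_eq_sub_iff_add_eq_add, e, add_comm]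
    rw [this]
    exact B.sub_mem hb' hb
  rw [h, Submodule.mem_bot, sub_eq_zero] at h1
  refine ⟨h1, ?_⟩
  rw [h1] at e
  exact add_left_cancel e

lemma split_of_disj [FiniteDimensional K D] {κ : ℕ} {X Y W : Submodule K D} (hX : X ≤ W)
    (hY : Y ≤ W) (hXY : X ⊓ Y = ⊥) (h1 : κ ≤ finrank K ↥X) (h2 : κ ≤ finrank K ↥Y)
    (hW : finrank K ↥W = 2 * κ) : X ⊔ Y = W ∧ finrank K ↥X = κ ∧ finrank K ↥Y = κ := by
  have h3 := Submodule.finrank_sup_add_finrank_inf_eq X Y
  rw [hXY, finrank_bot] at h3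
  have h4 := Submodule.finrank_mono (sup_le hX hY)
  refine ⟨Submodule.eq_of_le_of_finrank_le (sup_le hX hY) (by omega), by omega, by omega⟩

section

variable {m : ℕ} {A₁ A₂ A₃ A₄ : Submodule K D} {z : Fin m → K} {w u : Fin m → D}

lemma Sys.sum1 (h : Sys m A₁ A₂ A₃ A₄ z w u) (c : Fin m → K) : ∑ i, c i • w i ∈ A₁ :=
  Submodule.sum_mem _ fun i _ => Submodule.smul_mem _ _ (h.h1 i)

lemma Sys.sum2 (h : Sys m A₁ A₂ A₃ A₄ z w u) (c : Fin m → K) : ∑ i, c i • u i ∈ A₂ :=
  Submodule.sum_mem _ fun i _ => Submodule.smul_mem _ _ (h.h2 i)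

lemma Sys.key (h : Sys m A₁ A₂ A₃ A₄ z w u) (c : Fin m → K) {x y : D} (hx : x ∈ A₃)
    (hy : y ∈ A₄) (hx' : x ∈ A₁ ⊔ A₂) (e : ∑ i, c i • w i = x + y) :
    x = ∑ i, (c i / z i) • w i + ∑ i, (c i / z i) • u i := by
  set x' := ∑ i, (c i / z i) • w i + ∑ i, (c i / z i) • u i with hx'
  set y' := ∑ i, (c i / z i) • ((z i - 1) • w i - u i) with hy'
  have e1 : x' = ∑ i, (c i / z i) • (w i + u i) := by
    rw [hx', ← Finset.sum_add_distrib]
    exact Finset.sum_congr rfl fun i _ => (smul_add _ _ _).symm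
  have e2 : x' + y' = ∑ i, c i • w i := by
    rw [e1, hy', ← Finset.sum_add_distrib]
    refine Finset.sum_congr rfl fun i _ => ?_
    rw [← smul_add]
    have : w i + u i + ((z i - 1) • w i - u i) = z i • w i := by
      rw [sub_smul, one_smul]
      abel
    rw [this, smul_smul, div_mul_cancel₀ _ (h.z0 i)]
  have m1 : x' ∈ A₃ := by
    rw [e1]
    exact Submodule.sum_mem _ fun i _ => Submodule.smul_mem _ _ (h.h3 i)
  have m2 : y' ∈ A₄ := Submodule.sum_mem _ fun i _ => Submodule.smul_mem _ _ (h.h4 i)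
  have m3 : x' ∈ A₁ ⊔ A₂ := Submodule.add_mem_sup (h.sum1 _) (h.sum2 _)
  have m4 : x - x' ∈ A₃ ⊓ A₄ ⊓ (A₁ ⊔ A₂) := by
    refine ⟨⟨A₃.sub_mem hx m1, ?_⟩, Submodule.sub_mem _ ‹_› m3⟩
    have : x - x' = y' - y := by
      rw [sub_eq_sub_iff_add_eq_add, ← e, ← e2, add_comm]
    rw [this]
    exact A₄.sub_mem m2 hy
  rw [h.d34, Submodule.mem_bot, sub_eq_zero] at m4
  exact m4

lemma Sys.li (h : Sys m A₁ A₂ A₃ A₄ z w u) : LinearIndependent K w := by
  rw [Fintype.linearIndependent_iff]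
  intro c hc
  by_contra hne
  push Not at hne
  obtain ⟨i, hi⟩ := hne
  let R : Submodule K (Fin m → K) :=
    { carrier := {c | ∑ i, c i • w i = 0}
      add_mem' := by
        intro a b ha hb
        simp only [Set.mem_ofPred_eq, Pi.add_apply, add_smul, Finset.sum_add_distrib] at ha hb ⊢
        rw [ha, hb, add_zero]
      zero_mem' := by simp
      smul_mem' := by
        intro t a ha
        simp only [Set.mem_ofPred_eq, Pi.smul_apply, smul_assoc] at ha ⊢
        rw [← Finset.smul_sum, ha, smul_zero] }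
  have hR : ∀ c ∈ R, (fun i => (z i)⁻¹ * c i) ∈ R := by
    intro c hc
    have hc' : ∑ i, c i • w i = 0 + 0 := by
      rw [add_zero]
      exact hc
    have h1 := h.key c A₃.zero_mem A₄.zero_mem (Submodule.zero_mem _) hc'
    have h2 := uniq_of_disj h.d12 A₁.zero_mem (h.sum1 _) A₂.zero_mem (h.sum2 _)
      ((zero_add (0 : D)).trans h1)
    change ∑ i, ((z i)⁻¹ * c i) • w i = 0
    rw [h2.1]
    refine Finset.sum_congr rfl fun i _ => ?_
    rw [div_eq_inv_mul]
  have h3 := diag_inv (fun i => (z i)⁻¹) (inv_injective.comp h.zinj) R hR (c := c) hc hi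
  have h4 : ∑ j, (Pi.single i (1 : K) : Fin m → K) j • w j = 0 := h3
  simp only [Pi.single_apply, ite_smul, one_smul, zero_smul, Finset.sum_ite_eq',
    Finset.mem_univ, if_true] at h4
  exact h.w0 i h4

variable [FiniteDimensional K D]

lemma Sys.span (h : Sys m A₁ A₂ A₃ A₄ z w u) : Submodule.span K (Set.range w) = A₁ := by
  apply Submodule.eq_of_le_of_finrank_le
  · rw [Submodule.span_le]
    rintro _ ⟨i, rfl⟩
    exact h.h1 i
  · rw [h.dim, finrank_span_eq_card h.li, Fintype.card_fin]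

lemma Sys.exists_coeff (h : Sys m A₁ A₂ A₃ A₄ z w u) {x : D} (hx : x ∈ A₁) :
    ∃ c : Fin m → K, x = ∑ i, c i • w i := by
  rw [← h.span, Submodule.mem_span_range_iff_exists_fun] at hx
  obtain ⟨c, hc⟩ := hx
  exact ⟨c, hc.symm⟩

lemma Sys.liu (h : Sys m A₁ A₂ A₃ A₄ z w u) : LinearIndependent K u := by
  rw [Fintype.linearIndependent_iff]
  intro c hc
  have h1 : ∑ i, c i • w i ∈ A₁ ⊓ A₃ := by
    refine ⟨h.sum1 c, ?_⟩
    have : ∑ i, c i • w i = ∑ i, c i • (w i + u i) := by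
      simp only [smul_add, Finset.sum_add_distrib]
      rw [hc, add_zero]
    rw [this]
    exact Submodule.sum_mem _ fun i _ => Submodule.smul_mem _ _ (h.h3 i)
  rw [h.d13, Submodule.mem_bot] at h1
  exact Fintype.linearIndependent_iff.1 h.li c h1

lemma Sys.li3 (h : Sys m A₁ A₂ A₃ A₄ z w u) : LinearIndependent K (fun i => w i + u i) := by
  rw [Fintype.linearIndependent_iff]
  intro c hc
  simp only [smul_add, Finset.sum_add_distrib] at hc
  have h2 := uniq_of_disj h.d12 (h.sum1 c) A₁.zero_mem (h.sum2 c) A₂.zero_mem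
    (hc.trans (zero_add (0 : D)).symm)
  exact Fintype.linearIndependent_iff.1 h.li c h2.1

lemma Sys.li4 (h : Sys m A₁ A₂ A₃ A₄ z w u) :
    LinearIndependent K (fun i => (z i - 1) • w i - u i) := by
  rw [Fintype.linearIndependent_iff]
  intro c hc
  have e : ∑ i, (c i * (z i - 1)) • w i + ∑ i, (-(c i)) • u i = 0 + 0 := by
    rw [← Finset.sum_add_distrib, add_zero, ← hc]
    refine Finset.sum_congr rfl fun i _ => ?_
    rw [smul_sub, smul_smul, neg_smul, ← sub_eq_add_neg]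
  have h2 := uniq_of_disj h.d12 (h.sum1 _) A₁.zero_mem (h.sum2 _) A₂.zero_mem e
  intro i
  have := Fintype.linearIndependent_iff.1 h.liu _ h2.2 i
  exact neg_eq_zero.1 this

omit [FiniteDimensional K D] in
lemma finrank_span_image {v : Fin m → D} (hv : LinearIndependent K v) (S : Finset (Fin m)) :
    finrank K ↥(Submodule.span K (v '' S)) = S.card := by
  classical
  have h1 : v '' S = Set.range (fun i : S => v i) := by
    ext x
    simp
  have h2 : LinearIndependent K (fun i : S => v i) := hv.comp _ Subtype.val_injective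
  rw [h1, finrank_span_eq_card h2, Fintype.card_coe]

lemma Sys.span_w_le (h : Sys m A₁ A₂ A₃ A₄ z w u) (S : Finset (Fin m)) :
    Submodule.span K (w '' S) ≤ A₁ := by
  rw [Submodule.span_le]
  rintro _ ⟨i, -, rfl⟩
  exact h.h1 i

lemma Sys.span_u_le (h : Sys m A₁ A₂ A₃ A₄ z w u) (S : Finset (Fin m)) :
    Submodule.span K (u '' S) ≤ A₂ := by
  rw [Submodule.span_le]
  rintro _ ⟨i, -, rfl⟩
  exact h.h2 i

lemma Sys.finrank_WS (h : Sys m A₁ A₂ A₃ A₄ z w u) (S : Finset (Fin m)) :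
    finrank K ↥(WS w u S : Submodule K D) = 2 * S.card := by
  have h1 := Submodule.finrank_sup_add_finrank_inf_eq (Submodule.span K (w '' S))
    (Submodule.span K (u '' S))
  have h2 : Submodule.span K (w '' S) ⊓ Submodule.span K (u '' S) = ⊥ := by
    rw [eq_bot_iff, ← h.d12]
    exact inf_le_inf (h.span_w_le S) (h.span_u_le S)
  rw [h2, finrank_bot, finrank_span_image h.li, finrank_span_image h.liu] at h1
  rw [WS]
  omega

lemma mem_WS_w (S : Finset (Fin m)) {i : Fin m} (hi : i ∈ S) :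
    w i ∈ (WS w u S : Submodule K D) :=
  Submodule.mem_sup_left (Submodule.subset_span ⟨i, hi, rfl⟩)

lemma mem_WS_u (S : Finset (Fin m)) {i : Fin m} (hi : i ∈ S) :
    u i ∈ (WS w u S : Submodule K D) :=
  Submodule.mem_sup_right (Submodule.subset_span ⟨i, hi, rfl⟩)

/-- every set of eigenvalues gives a solution -/
lemma Sys.WS_mem (h : Sys m A₁ A₂ A₃ A₄ z w u) {κ : ℕ} {S : Finset (Fin m)} (hS : S.card = κ) :
    (WS w u S : Submodule K D) ∈ Sols κ A₁ A₂ A₃ A₄ := by
  have gen : ∀ {v : Fin m → D} {A : Submodule K D}, LinearIndependent K v →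
      (∀ i, v i ∈ A) → (∀ i ∈ S, v i ∈ (WS w u S : Submodule K D)) →
      κ ≤ finrank K ↥((WS w u S : Submodule K D) ⊓ A) := by
    intro v A hv hA hW
    rw [← hS, ← finrank_span_image hv]
    apply Submodule.finrank_mono
    rw [Submodule.span_le]
    rintro _ ⟨i, hi, rfl⟩
    exact ⟨hW i hi, hA i⟩
  refine ⟨by rw [h.finrank_WS, hS], gen h.li h.h1 fun i hi => mem_WS_w S hi,
    gen h.liu h.h2 fun i hi => mem_WS_u S hi,
    gen h.li3 h.h3 fun i hi => Submodule.add_mem _ (mem_WS_w S hi) (mem_WS_u S hi),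
    gen h.li4 h.h4 fun i hi => Submodule.sub_mem _ (Submodule.smul_mem _ _ (mem_WS_w S hi))
      (mem_WS_u S hi)⟩

lemma Sys.w_mem_WS (h : Sys m A₁ A₂ A₃ A₄ z w u) {S : Finset (Fin m)} {i : Fin m}
    (hi : w i ∈ (WS w u S : Submodule K D)) : i ∈ S := by
  classical
  obtain ⟨a, ha, b, hb, e⟩ := Submodule.mem_sup.1 hi
  have h1 := uniq_of_disj h.d12 (h.span_w_le S ha) (h.h1 i) (h.span_u_le S hb) A₂.zero_mem
    (e.trans (add_zero _).symm)
  rw [h1.1] at ha
  by_contra hiS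
  have h2 := h.li.notMem_span_image (s := (S : Set (Fin m))) (x := i) (by simpa using hiS)
  exact h2 ha

lemma Sys.WS_inj (h : Sys m A₁ A₂ A₃ A₄ z w u) :
    Function.Injective (fun S : Finset (Fin m) => (WS w u S : Submodule K D)) := by
  intro S S' e
  have e' : (WS w u S : Submodule K D) = WS w u S' := e
  ext i
  constructor
  · intro hi
    apply h.w_mem_WS
    rw [← e']
    exact mem_WS_w S hi
  · intro hi
    apply h.w_mem_WS
    rw [e']
    exact mem_WS_w S' hi

/-- the facts about a solution -/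
structure Facts (κ : ℕ) (A₁ A₂ A₃ A₄ W : Submodule K D) : Prop where
  s12 : W ⊓ A₁ ⊔ W ⊓ A₂ = W
  s34 : W ⊓ A₃ ⊔ W ⊓ A₄ = W
  e1 : finrank K ↥(W ⊓ A₁) = κ
  e2 : finrank K ↥(W ⊓ A₂) = κ
  e3 : finrank K ↥(W ⊓ A₃) = κ
  e4 : finrank K ↥(W ⊓ A₄) = κ
  le : W ≤ A₁ ⊔ A₂

lemma facts {κ : ℕ} (d12 : A₁ ⊓ A₂ = ⊥) (d34 : A₃ ⊓ A₄ ⊓ (A₁ ⊔ A₂) = ⊥) {W : Submodule K D}
    (hW : W ∈ Sols κ A₁ A₂ A₃ A₄) : Facts κ A₁ A₂ A₃ A₄ W := by
  obtain ⟨h0, h1, h2, h3, h4⟩ := hW
  obtain ⟨a1, a2, a3⟩ := split_of_disj inf_le_left inf_le_left (by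
    rw [eq_bot_iff, ← d12]
    exact inf_le_inf inf_le_right inf_le_right) h1 h2 h0
  have hle : W ≤ A₁ ⊔ A₂ := a1 ▸ sup_le_sup inf_le_right inf_le_right
  obtain ⟨b1, b2, b3⟩ := split_of_disj inf_le_left inf_le_left (by
    rw [eq_bot_iff, ← d34]
    exact le_inf (inf_le_inf inf_le_right inf_le_right)
      ((inf_le_left.trans inf_le_left).trans hle)) h3 h4 h0
  exact ⟨a1, b1, a2, a3, b2, b3, hle⟩

/-- coefficients of an element of `W ⊓ A₁` -/
lemma Sys.coeff_inv (h : Sys m A₁ A₂ A₃ A₄ z w u) {κ : ℕ} {W : Submodule K D}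
    (hF : Facts κ A₁ A₂ A₃ A₄ W) {c : Fin m → K} (hc : ∑ i, c i • w i ∈ W) :
    ∑ i, (c i / z i) • w i ∈ W ∧ ∑ i, (c i / z i) • u i ∈ W := by
  have h1 : ∑ i, c i • w i ∈ W ⊓ A₃ ⊔ W ⊓ A₄ := by
    rw [hF.s34]
    exact hc
  obtain ⟨x, hx, y, hy, e⟩ := Submodule.mem_sup.1 h1
  have h2 := h.key c hx.2 hy.2 (hF.le hx.1) e.symm
  have h3 : x ∈ W ⊓ A₁ ⊔ W ⊓ A₂ := by
    rw [hF.s12]
    exact hx.1
  obtain ⟨a, ha, b, hb, e'⟩ := Submodule.mem_sup.1 h3
  have h4 := uniq_of_disj h.d12 ha.2 (h.sum1 _) hb.2 (h.sum2 _) (e'.trans h2)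
  rw [← h4.1, ← h4.2]
  exact ⟨ha.1, hb.1⟩

lemma Sys.w_mem_of_coeff (h : Sys m A₁ A₂ A₃ A₄ z w u) {κ : ℕ} {W : Submodule K D}
    (hF : Facts κ A₁ A₂ A₃ A₄ W) {c : Fin m → K} (hc : ∑ i, c i • w i ∈ W) {i : Fin m}
    (hi : c i ≠ 0) : w i ∈ W := by
  let R : Submodule K (Fin m → K) :=
    { carrier := {c | ∑ i, c i • w i ∈ W}
      add_mem' := by
        intro a b ha hb
        simp only [Set.mem_ofPred_eq, Pi.add_apply, add_smul, Finset.sum_add_distrib] at ha hb ⊢
        exact W.add_mem ha hb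
      zero_mem' := by simp
      smul_mem' := by
        intro t a ha
        simp only [Set.mem_ofPred_eq, Pi.smul_apply, smul_assoc] at ha ⊢
        rw [← Finset.smul_sum]
        exact W.smul_mem _ ha }
  have hR : ∀ c ∈ R, (fun i => (z i)⁻¹ * c i) ∈ R := by
    intro c hc
    have h1 := (h.coeff_inv hF hc).1
    change ∑ i, ((z i)⁻¹ * c i) • w i ∈ W
    convert h1 using 2 with i
    rw [div_eq_inv_mul]
  have h3 := diag_inv (fun i => (z i)⁻¹) (inv_injective.comp h.zinj) R hR (c := c) hc hi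
  have h4 : ∑ j, (Pi.single i (1 : K) : Fin m → K) j • w j ∈ W := h3
  simpa only [Pi.single_apply, ite_smul, one_smul, zero_smul, Finset.sum_ite_eq',
    Finset.mem_univ, if_true] using h4

lemma sum_mem_span_image {c : Fin m → K} {v : Fin m → D} {S : Finset (Fin m)}
    (hc : ∀ i, i ∉ S → c i = 0) : ∑ i, c i • v i ∈ Submodule.span K (v '' S) := by
  refine Submodule.sum_mem _ fun i _ => ?_
  by_cases hi : i ∈ S
  · exact Submodule.smul_mem _ _ (Submodule.subset_span ⟨i, hi, rfl⟩)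
  · rw [hc i hi, zero_smul]
    exact Submodule.zero_mem _

/-- every solution comes from a set of eigenvalues -/
lemma Sys.exists_WS (h : Sys m A₁ A₂ A₃ A₄ z w u) {κ : ℕ} {W : Submodule K D}
    (hW : W ∈ Sols κ A₁ A₂ A₃ A₄) : ∃ S : Finset (Fin m), S.card = κ ∧ W = WS w u S := by
  classical
  have hF := facts h.d12 h.d34 hW
  set S : Finset (Fin m) := Finset.univ.filter fun i => w i ∈ W with hS
  have hmem : ∀ i, i ∈ S ↔ w i ∈ W := fun i => by simp [hS]
  have h1 : W ⊓ A₁ = Submodule.span K (w '' S) := by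
    apply le_antisymm
    · intro x hx
      obtain ⟨c, hc⟩ := h.exists_coeff hx.2
      rw [hc]
      apply sum_mem_span_image
      intro i hi
      by_contra h0
      rw [hc] at hx
      exact hi ((hmem i).2 (h.w_mem_of_coeff hF hx.1 h0))
    · rw [Submodule.span_le]
      rintro _ ⟨i, hi, rfl⟩
      exact ⟨(hmem i).1 hi, h.h1 i⟩
  have h2 : S.card = κ := by
    rw [← finrank_span_image h.li S, ← h1, hF.e1]
  refine ⟨S, h2, ?_⟩
  symm
  apply Submodule.eq_of_le_of_finrank_le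
  · apply sup_le
    · rw [← h1]
      exact inf_le_left
    · rw [Submodule.span_le]
      rintro _ ⟨i, hi, rfl⟩
      have h3 : ∑ j, (Pi.single i (1 : K) : Fin m → K) j • w j ∈ W := by
        simpa only [Pi.single_apply, ite_smul, one_smul, zero_smul, Finset.sum_ite_eq',
          Finset.mem_univ, if_true] using (hmem i).1 hi
      have h4 := (h.coeff_inv hF h3).2
      have h5 : ∑ j, ((Pi.single i (1 : K) : Fin m → K) j / z j) • u j = (1 / z i) • u i := by
        rw [Finset.sum_eq_single i]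
        · simp
        · intro j _ hj
          simp [hj]
        · simp
      rw [h5] at h4
      exact (W.smul_mem_iff (one_div_ne_zero (h.z0 i))).1 h4
  · rw [hW.1, h.finrank_WS, h2]

/-- the number of solutions -/
theorem Sys.encard_sols (h : Sys m A₁ A₂ A₃ A₄ z w u) (κ : ℕ) :
    (Sols κ A₁ A₂ A₃ A₄).encard = (m.choose κ : ℕ) := by
  have h1 : Sols κ A₁ A₂ A₃ A₄ = (fun S : Finset (Fin m) => (WS w u S : Submodule K D)) ''
      ((Finset.univ : Finset (Fin m)).powersetCard κ : Set (Finset (Fin m))) := by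
    ext W
    simp only [Set.mem_image, Finset.mem_coe, Finset.mem_powersetCard, Finset.subset_univ,
      true_and]
    constructor
    · intro hW
      obtain ⟨S, hS, hWS⟩ := h.exists_WS hW
      exact ⟨S, hS, hWS.symm⟩
    · rintro ⟨S, hS, rfl⟩
      exact h.WS_mem hS
  rw [h1, h.WS_inj.injOn.encard_image, Set.encard_coe_eq_coe_finsetCard,
    Finset.card_powersetCard, Finset.card_univ, Fintype.card_fin]

/-- a solution is transverse -/
theorem Sys.tan_zero (h : Sys m A₁ A₂ A₃ A₄ z w u) {κ : ℕ} {W : Submodule K D}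
    (hW : W ∈ Sols κ A₁ A₂ A₃ A₄) (φ : ↥W →ₗ[K] D ⧸ W)
    (t1 : ∀ x : ↥W, (x : D) ∈ A₁ → φ x ∈ A₁.map W.mkQ)
    (t2 : ∀ x : ↥W, (x : D) ∈ A₂ → φ x ∈ A₂.map W.mkQ)
    (t3 : ∀ x : ↥W, (x : D) ∈ A₃ → φ x ∈ A₃.map W.mkQ)
    (t4 : ∀ x : ↥W, (x : D) ∈ A₄ → φ x ∈ A₄.map W.mkQ) : φ = 0 := by
  classical
  have hF := facts h.d12 h.d34 hW
  obtain ⟨S, hS, hWS⟩ := h.exists_WS hW
  have hmem : ∀ i, i ∈ S ↔ w i ∈ W := by
    intro i
    rw [hWS]
    exact ⟨fun hi => mem_WS_w S hi, fun hi => h.w_mem_WS hi⟩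
  have hmu : ∀ i ∈ S, u i ∈ W := by
    intro i hi
    rw [hWS]
    exact mem_WS_u S hi
  have hker : ∀ x : D, W.mkQ x = 0 ↔ x ∈ W := fun x => by
    rw [← LinearMap.mem_ker, Submodule.ker_mkQ]
  have key : ∀ i (hi : i ∈ S), φ ⟨w i, (hmem i).1 hi⟩ = 0 ∧ φ ⟨u i, hmu i hi⟩ = 0 := by
    intro i hi
    have hwi := (hmem i).1 hi
    have hui := hmu i hi
    obtain ⟨a, ha, ha'⟩ := t1 ⟨w i, hwi⟩ (h.h1 i)
    obtain ⟨b, hb, hb'⟩ := t2 ⟨u i, hui⟩ (h.h2 i)
    obtain ⟨c, hc, hc'⟩ := t3 ⟨w i + u i, W.add_mem hwi hui⟩ (h.h3 i)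
    obtain ⟨d, hd, hd'⟩ := t4 ⟨(z i - 1) • w i - u i, W.sub_mem (W.smul_mem _ hwi) hui⟩ (h.h4 i)
    have e1 : (⟨w i + u i, W.add_mem hwi hui⟩ : ↥W) = ⟨w i, hwi⟩ + ⟨u i, hui⟩ := rfl
    have e2 : (⟨(z i - 1) • w i - u i, W.sub_mem (W.smul_mem _ hwi) hui⟩ : ↥W) =
        (z i - 1) • (⟨w i, hwi⟩ : ↥W) - ⟨u i, hui⟩ := rfl
    rw [e1, map_add, ← ha', ← hb'] at hc'
    rw [e2, map_sub, map_smul, ← ha', ← hb'] at hd'
    have m1 : a + b - c ∈ W := by
      rw [← hker, map_sub, map_add, hc', sub_self]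
    have m2 : (z i - 1) • a - b - d ∈ W := by
      rw [← hker, map_sub, map_sub, map_smul, hd', sub_self]
    have m3 : z i • a - c - d ∈ W ⊓ A₃ ⊔ W ⊓ A₄ := by
      rw [hF.s34]
      have := W.add_mem m1 m2
      convert this using 1
      rw [sub_smul, one_smul]
      abel
    obtain ⟨x3, hx3, x4, hx4, e3⟩ := Submodule.mem_sup.1 m3
    have hcD : c ∈ A₁ ⊔ A₂ := by
      have : c = (a + b) - (a + b - c) := by abel
      rw [this]
      exact Submodule.sub_mem _ (Submodule.add_mem_sup ha hb) (hF.le m1)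
    obtain ⟨α, hα⟩ := h.exists_coeff ha
    have e4 : ∑ j, (z i * α j) • w j = (c + x3) + (d + x4) := by
      have : ∑ j, (z i * α j) • w j = z i • a := by
        rw [hα, Finset.smul_sum]
        exact Finset.sum_congr rfl fun j _ => (smul_smul _ _ _).symm
      rw [this]
      have e5 : z i • a = c + d + (x3 + x4) := by
        rw [e3]
        abel
      rw [e5]
      abel
    have e6 := h.key (fun j => z i * α j) (A₃.add_mem hc hx3.2) (A₄.add_mem hd hx4.2)
      (Submodule.add_mem _ hcD (hF.le hx3.1)) e4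
    have m4 : a + b - (c + x3) ∈ W ⊓ A₁ ⊔ W ⊓ A₂ := by
      rw [hF.s12]
      have : a + b - (c + x3) = (a + b - c) - x3 := by abel
      rw [this]
      exact W.sub_mem m1 hx3.1
    obtain ⟨y1, hy1, y2, hy2, e7⟩ := Submodule.mem_sup.1 m4
    have e8 : (∑ j, (z i * α j / z j) • w j + y1) + (∑ j, (z i * α j / z j) • u j + y2) =
        a + b := by
      have : a + b = (c + x3) + (y1 + y2) := by
        rw [e7]
        abel
      rw [this, e6]
      abel
    have e9 := (uniq_of_disj h.d12 (A₁.add_mem (h.sum1 _) hy1.2) ha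
      (A₂.add_mem (h.sum2 _) hy2.2) hb e8).1
    have m5 : ∑ j, (α j - z i * α j / z j) • w j ∈ W := by
      have : ∑ j, (α j - z i * α j / z j) • w j = y1 := by
        simp only [sub_smul, Finset.sum_sub_distrib]
        rw [← hα, ← e9]
        abel
      rw [this]
      exact hy1.1
    have hα0 : ∀ j, j ∉ S → α j = 0 := by
      intro j hj
      have h5 : α j - z i * α j / z j = 0 := by
        by_contra h0
        exact hj ((hmem j).2 (h.w_mem_of_coeff hF m5 h0))
      have h6 : z i ≠ z j := by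
        intro h7
        rw [h.zinj h7] at hi
        exact hj hi
      have h8 := h.z0 j
      have h9 : α j * (z j - z i) = z j * (α j - z i * α j / z j) := by
        field_simp
      rw [h5, mul_zero] at h9
      rcases mul_eq_zero.1 h9 with h10 | h10
      · exact h10
      · exact absurd (sub_eq_zero.1 h10).symm h6
    have m6 : a ∈ W := by
      rw [hα, hWS]
      exact Submodule.mem_sup_left (sum_mem_span_image hα0)
    have m7 : c ∈ W := by
      have h5 : c + x3 ∈ W := by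
        rw [e6, hWS]
        refine Submodule.add_mem _ (Submodule.mem_sup_left (sum_mem_span_image fun j hj => ?_))
          (Submodule.mem_sup_right (sum_mem_span_image fun j hj => ?_))
        · rw [hα0 j hj, mul_zero, zero_div]
        · rw [hα0 j hj, mul_zero, zero_div]
      have : c = (c + x3) - x3 := by abel
      rw [this]
      exact W.sub_mem h5 hx3.1
    have n1 : W.mkQ a = 0 := (hker a).2 m6
    have n2 : W.mkQ c = 0 := (hker c).2 m7
    refine ⟨ha'.symm.trans n1, ?_⟩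
    rw [n2, n1, zero_add] at hc'
    rw [← hb', ← hc']
  have hle : W ≤ (LinearMap.ker φ).map W.subtype := by
    have h1 : (WS w u S : Submodule K D) ≤ (LinearMap.ker φ).map W.subtype := by
      apply sup_le
      · rw [Submodule.span_le]
        rintro _ ⟨i, hi, rfl⟩
        exact ⟨⟨w i, (hmem i).1 hi⟩, (key i hi).1, rfl⟩
      · rw [Submodule.span_le]
        rintro _ ⟨i, hi, rfl⟩
        exact ⟨⟨u i, hmu i hi⟩, (key i hi).2, rfl⟩
    rwa [← hWS] at h1
  ext x
  obtain ⟨y, hy, hyx⟩ := hle x.2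
  have : y = x := Subtype.ext hyx
  rw [← this]
  exact hy

end

end Pool.CSCB
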