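import Pool.Agent.CSCB.Defs
import Pool.Agent.CSCB.LemS

/-! From a configuration (a matrix) to four subspaces of the dual space. -/

namespace Pool.CSCB

open Module Matrix

set_option linter.unusedSectionVars false

/-- the data of a matrix: numbers `z i` and vectors in the left kernel of the pencil -/
structure MData {K : Type*} [Field K] {N : ℕ} (h δ p q m : ℕ) (M : Matrix (Fin N) (Fin N) K)
    (z : Fin m → K) (v : Fin m → Fin N → K) : Prop where
  hN : δ + p + q = N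
  hh : h ≤ p
  hd : δ + h ≤ N
  hm : m = min h q
  det0 : (Gz h δ p M 0).det ≠ 0
  det : M.det ≠ 0
  rk : ∀ c : Fin N → K, (∀ i : Fin N, h ≤ (i : ℕ) → c i = 0) →
    (∀ j : Fin N, δ ≤ (j : ℕ) → (j : ℕ) < δ + p → ∑ i, M i j * c i = 0) → c = 0
  zinj : Function.Injective z
  z0 : ∀ i, z i ≠ 0
  v0 : ∀ i, v i ≠ 0
  ker : ∀ i, v i ᵥ* Gz h δ p M (z i) = 0

section

variable {K V : Type*} [Field K] [AddCommGroup V] [Module K V] [FiniteDimensional K V] {N : ℕ}
  {h δ p q m : ℕ} {E U₁ U₂ U₃ U₄ : Submodule K V} {bs cs : Fin N → V}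
  {M : Matrix (Fin N) (Fin N) K} {z : Fin m → K} {v : Fin m → Fin N → K}

lemma Cfg.ext (hC : Cfg h δ p E U₁ U₂ U₃ U₄ bs cs M) {f g : Dual K V}
    (hf : f ∈ E.dualAnnihilator) (hg : g ∈ E.dualAnnihilator)
    (e : ∀ i, f (bs i) = g (bs i)) : f = g := by
  rw [Submodule.mem_dualAnnihilator] at hf hg
  have h1 : (⊤ : Submodule K V) ≤ LinearMap.ker (f - g) := by
    rw [← hC.top]
    apply sup_le
    · intro x hx
      rw [LinearMap.mem_ker, LinearMap.sub_apply, hf x hx, hg x hx, sub_self]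
    · rw [Submodule.span_le]
      rintro _ ⟨i, rfl⟩
      rw [SetLike.mem_coe, LinearMap.mem_ker, LinearMap.sub_apply, e i, sub_self]
  ext x
  have h2 := h1 (Submodule.mem_top (x := x))
  rw [LinearMap.mem_ker, LinearMap.sub_apply, sub_eq_zero] at h2
  exact h2

lemma Cfg.li (hC : Cfg h δ p E U₁ U₂ U₃ U₄ bs cs M) : LinearIndependent K bs := by
  rw [Fintype.linearIndependent_iff]
  intro c hc i
  have := hC.ind c (by rw [hc]; exact E.zero_mem)
  rw [this]
  rfl

lemma Cfg.finrank (hC : Cfg h δ p E U₁ U₂ U₃ U₄ bs cs M) :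
    finrank K ↥E + N = finrank K V := by
  have h1 := Submodule.finrank_sup_add_finrank_inf_eq E (Submodule.span K (Set.range bs))
  have h2 : E ⊓ Submodule.span K (Set.range bs) = ⊥ := by
    rw [eq_bot_iff]
    rintro x ⟨hx, hx'⟩
    rw [SetLike.mem_coe, Submodule.mem_span_range_iff_exists_fun] at hx'
    obtain ⟨c, rfl⟩ := hx'
    rw [hC.ind c hx]
    simp
  rw [hC.top, h2, finrank_bot, finrank_top, finrank_span_eq_card hC.li, Fintype.card_fin] at h1
  omega

lemma Cfg.exists_fn (hC : Cfg h δ p E U₁ U₂ U₃ U₄ bs cs M) (c : Fin N → K) :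
    ∃ f ∈ E.dualAnnihilator, ∀ i, f (bs i) = c i := by
  have hli : LinearIndependent K (fun i => E.mkQ (bs i)) := by
    rw [Fintype.linearIndependent_iff]
    intro a ha i
    have h1 : E.mkQ (∑ i, a i • bs i) = 0 := by
      rw [map_sum, ← ha]
      exact Finset.sum_congr rfl fun i _ => map_smul _ _ _
    rw [← LinearMap.mem_ker, Submodule.ker_mkQ] at h1
    rw [hC.ind a h1]
    rfl
  have hsp : ⊤ ≤ Submodule.span K (Set.range fun i => E.mkQ (bs i)) := by
    have h1 := congrArg (Submodule.map E.mkQ) hC.top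
    rw [Submodule.map_sup, Submodule.map_top, Submodule.range_mkQ, Submodule.map_span,
      ← Set.range_comp, Submodule.mkQ_map_self, bot_sup_eq] at h1
    exact h1.ge
  let b := Basis.mk hli hsp
  refine ⟨(b.constr K c) ∘ₗ E.mkQ, ?_, fun i => ?_⟩
  · rw [Submodule.mem_dualAnnihilator]
    intro x hx
    have h1 : E.mkQ x = 0 := by
      rw [← LinearMap.mem_ker, Submodule.ker_mkQ]
      exact hx
    rw [LinearMap.comp_apply, h1, map_zero]
  · have h1 : E.mkQ (bs i) = b i := by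
      rw [Basis.mk_apply]
    rw [LinearMap.comp_apply, h1, Basis.constr_basis]

lemma Cfg.apply_cs (hC : Cfg h δ p E U₁ U₂ U₃ U₄ bs cs M) {f : Dual K V}
    (hf : f ∈ E.dualAnnihilator) (j : Fin N) : f (cs j) = ∑ i, M i j * f (bs i) := by
  rw [Submodule.mem_dualAnnihilator] at hf
  have h1 := hf _ (hC.rel j)
  rw [map_sub, sub_eq_zero] at h1
  rw [h1, map_sum]
  simp

lemma mem_ann_span {U E : Submodule K V} {s : Set V} (hU : U ⊔ E = Submodule.span K s ⊔ E)
    (f : Dual K V) : f ∈ (U ⊔ E).dualAnnihilator ↔ f ∈ E.dualAnnihilator ∧ ∀ x ∈ s, f x = 0 := by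
  rw [hU, Submodule.dualAnnihilator_sup_eq, Submodule.mem_inf, and_comm]
  refine and_congr_right fun _ => ?_
  rw [Submodule.mem_dualAnnihilator]
  constructor
  · intro h x hx
    exact h x (Submodule.subset_span hx)
  · intro h x hx
    have h1 : Submodule.span K s ≤ LinearMap.ker f := by
      rw [Submodule.span_le]
      exact fun y hy => h y hy
    exact h1 hx

lemma Cfg.mem1 (hC : Cfg h δ p E U₁ U₂ U₃ U₄ bs cs M) (f : Dual K V) :
    f ∈ (U₁ ⊔ E).dualAnnihilator ↔ f ∈ E.dualAnnihilator ∧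
      ∀ i : Fin N, h ≤ (i : ℕ) → f (bs i) = 0 := by
  rw [mem_ann_span hC.u1]
  refine and_congr_right fun _ => ⟨fun hx i hi => hx _ ⟨i, hi, rfl⟩, ?_⟩
  rintro hx _ ⟨i, hi, rfl⟩
  exact hx i hi

lemma Cfg.mem2 (hC : Cfg h δ p E U₁ U₂ U₃ U₄ bs cs M) (f : Dual K V) :
    f ∈ (U₂ ⊔ E).dualAnnihilator ↔ f ∈ E.dualAnnihilator ∧
      (∀ i : Fin N, (i : ℕ) < h → f (bs i) = 0) ∧
      ∀ j : Fin N, (j : ℕ) < δ → f (cs j) = 0 := by
  rw [mem_ann_span hC.u2]
  refine and_congr_right fun _ => ⟨fun hx => ⟨fun i hi => hx _ (Or.inl ⟨i, hi, rfl⟩),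
    fun j hj => hx _ (Or.inr ⟨j, hj, rfl⟩)⟩, ?_⟩
  rintro ⟨h1, h2⟩ _ (⟨i, hi, rfl⟩ | ⟨j, hj, rfl⟩)
  · exact h1 i hi
  · exact h2 j hj

lemma Cfg.mem3 (hC : Cfg h δ p E U₁ U₂ U₃ U₄ bs cs M) (f : Dual K V) :
    f ∈ (U₃ ⊔ E).dualAnnihilator ↔ f ∈ E.dualAnnihilator ∧
      ∀ j : Fin N, δ ≤ (j : ℕ) → (j : ℕ) < δ + p → f (cs j) = 0 := by
  rw [mem_ann_span hC.u3]
  refine and_congr_right fun _ => ⟨fun hx j hj hj' => hx _ ⟨j, hj, hj', rfl⟩, ?_⟩
  rintro hx _ ⟨j, hj, hj', rfl⟩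
  exact hx j hj hj'

lemma Cfg.mem4 (hC : Cfg h δ p E U₁ U₂ U₃ U₄ bs cs M) (f : Dual K V) :
    f ∈ (U₄ ⊔ E).dualAnnihilator ↔ f ∈ E.dualAnnihilator ∧
      ∀ j : Fin N, δ + p ≤ (j : ℕ) → f (cs j) = 0 := by
  rw [mem_ann_span hC.u4]
  refine and_congr_right fun _ => ⟨fun hx j hj => hx _ ⟨j, hj, rfl⟩, ?_⟩
  rintro hx _ ⟨j, hj, rfl⟩
  exact hx j hj

/-- upper part of a vector -/
def up (h : ℕ) (c : Fin N → K) : Fin N → K := fun i => if (i : ℕ) < h then c i else 0

/-- lower part of a vector -/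
def lo (h : ℕ) (c : Fin N → K) : Fin N → K := fun i => if (i : ℕ) < h then 0 else c i

lemma up_add_lo (h : ℕ) (c : Fin N → K) (i : Fin N) : up h c i + lo h c i = c i := by
  rw [up, lo]
  split_ifs <;> simp

lemma vecMul_Gz (c : Fin N → K) (x : K) (j : Fin N) :
    (c ᵥ* Gz h δ p M x) j =
      if (j : ℕ) < δ then ∑ i, M i j * lo h c i
      else if (j : ℕ) < δ + p then ∑ i, M i j * c i
      else (x - 1) * ∑ i, M i j * up h c i - ∑ i, M i j * lo h c i := by
  rw [Matrix.vecMul, dotProduct]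
  split_ifs with h1 h2
  · refine Finset.sum_congr rfl fun i _ => ?_
    simp only [Gz, Matrix.of_apply, lo, h1, if_true]
    by_cases hi : (i : ℕ) < h
    · simp [hi]
    · have h3 : (j : ℕ) < δ + p := by omega
      simp only [hi, if_false, h3, if_true]
      ring
  · refine Finset.sum_congr rfl fun i _ => ?_
    simp only [Gz, Matrix.of_apply, h1, h2, if_true, if_false]
    by_cases hi : (i : ℕ) < h
    · simp only [hi, if_true]
      ring
    · simp only [hi, if_false]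
      ring
  · rw [Finset.mul_sum, ← Finset.sum_sub_distrib]
    refine Finset.sum_congr rfl fun i _ => ?_
    simp only [Gz, Matrix.of_apply, h1, h2, if_false, up, lo]
    by_cases hi : (i : ℕ) < h
    · simp only [hi, if_true]
      ring
    · simp only [hi, if_false]
      ring

/-- the functionals `w i` and `u i` -/
structure Fns (h : ℕ) (E : Submodule K V) (bs : Fin N → V) (v : Fin m → Fin N → K)
    (w u : Fin m → Dual K V) : Prop where
  wE : ∀ i, w i ∈ E.dualAnnihilator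
  uE : ∀ i, u i ∈ E.dualAnnihilator
  wb : ∀ i j, w i (bs j) = up h (v i) j
  ub : ∀ i j, u i (bs j) = lo h (v i) j

lemma Cfg.exists_fns (hC : Cfg h δ p E U₁ U₂ U₃ U₄ bs cs M) (v : Fin m → Fin N → K) :
    ∃ w u : Fin m → Dual K V, Fns h E bs v w u := by
  choose w hw hw' using fun i => hC.exists_fn (up h (v i))
  choose u hu hu' using fun i => hC.exists_fn (lo h (v i))
  exact ⟨w, u, hw, hu, hw', hu'⟩

variable {w u : Fin m → Dual K V}

lemma mem_A1 (hC : Cfg h δ p E U₁ U₂ U₃ U₄ bs cs M) (hF : Fns h E bs v w u) (i : Fin m) :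
    w i ∈ (U₁ ⊔ E).dualAnnihilator := by
  rw [hC.mem1]
  refine ⟨hF.wE i, fun j hj => ?_⟩
  rw [hF.wb, up, if_neg (by omega)]

lemma mem_A2 (hC : Cfg h δ p E U₁ U₂ U₃ U₄ bs cs M) (hM : MData h δ p q m M z v)
    (hF : Fns h E bs v w u) (i : Fin m) : u i ∈ (U₂ ⊔ E).dualAnnihilator := by
  rw [hC.mem2]
  refine ⟨hF.uE i, fun j hj => ?_, fun j hj => ?_⟩
  · rw [hF.ub, lo, if_pos hj]
  · rw [hC.apply_cs (hF.uE i)]
    have h1 := congrFun (hM.ker i) j
    rw [vecMul_Gz, if_pos hj] at h1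
    simp only [hF.ub]
    exact h1

lemma mem_A3 (hC : Cfg h δ p E U₁ U₂ U₃ U₄ bs cs M) (hM : MData h δ p q m M z v)
    (hF : Fns h E bs v w u) (i : Fin m) : w i + u i ∈ (U₃ ⊔ E).dualAnnihilator := by
  rw [hC.mem3]
  have hE := Submodule.add_mem _ (hF.wE i) (hF.uE i)
  refine ⟨hE, fun j hj hj' => ?_⟩
  rw [hC.apply_cs hE]
  have h1 := congrFun (hM.ker i) j
  rw [vecMul_Gz, if_neg (by omega), if_pos hj'] at h1
  simp only [LinearMap.add_apply, hF.ub, hF.wb, up_add_lo]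
  exact h1

lemma mem_A4 (hC : Cfg h δ p E U₁ U₂ U₃ U₄ bs cs M) (hM : MData h δ p q m M z v)
    (hF : Fns h E bs v w u) (i : Fin m) :
    (z i - 1) • w i - u i ∈ (U₄ ⊔ E).dualAnnihilator := by
  rw [hC.mem4]
  have hE := Submodule.sub_mem _ (Submodule.smul_mem _ (z i - 1) (hF.wE i)) (hF.uE i)
  refine ⟨hE, fun j hj => ?_⟩
  rw [hC.apply_cs hE]
  have h1 := congrFun (hM.ker i) j
  rw [vecMul_Gz, if_neg (by omega), if_neg (by omega), Finset.mul_sum,
    ← Finset.sum_sub_distrib] at h1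
  refine Eq.trans ?_ h1
  refine Finset.sum_congr rfl fun k _ => ?_
  simp only [LinearMap.sub_apply, LinearMap.smul_apply, hF.ub, hF.wb, smul_eq_mul]
  ring

lemma c_d12 (hC : Cfg h δ p E U₁ U₂ U₃ U₄ bs cs M) :
    (U₁ ⊔ E).dualAnnihilator ⊓ (U₂ ⊔ E).dualAnnihilator = ⊥ := by
  rw [eq_bot_iff]
  rintro f ⟨h1, h2⟩
  rw [SetLike.mem_coe, hC.mem1] at h1
  rw [SetLike.mem_coe, hC.mem2] at h2
  rw [Submodule.mem_bot]
  refine hC.ext h1.1 (Submodule.zero_mem _) fun i => ?_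
  rw [LinearMap.zero_apply]
  rcases lt_or_ge (i : ℕ) h with hi | hi
  · exact h2.2.1 i hi
  · exact h1.2 i hi

/-- elements of `A₁ + A₂` -/
lemma mem_A12 (hC : Cfg h δ p E U₁ U₂ U₃ U₄ bs cs M) (f : Dual K V) :
    f ∈ (U₁ ⊔ E).dualAnnihilator ⊔ (U₂ ⊔ E).dualAnnihilator ↔ f ∈ E.dualAnnihilator ∧
      ∀ j : Fin N, (j : ℕ) < δ → ∑ i, M i j * lo h (fun i => f (bs i)) i = 0 := by
  constructor
  · intro hf
    obtain ⟨f1, h1, f2, h2, rfl⟩ := Submodule.mem_sup.1 hf
    rw [hC.mem1] at h1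
    rw [hC.mem2] at h2
    refine ⟨Submodule.add_mem _ h1.1 h2.1, fun j hj => ?_⟩
    have h3 := h2.2.2 j hj
    rw [hC.apply_cs h2.1] at h3
    rw [← h3]
    refine Finset.sum_congr rfl fun i _ => ?_
    rw [lo]
    split_ifs with hi
    · rw [h2.2.1 i hi]
    · rw [LinearMap.add_apply, h1.2 i (by omega), zero_add]
  · rintro ⟨hE, hf⟩
    obtain ⟨f1, h1, h1'⟩ := hC.exists_fn (up h (fun i => f (bs i)))
    obtain ⟨f2, h2, h2'⟩ := hC.exists_fn (lo h (fun i => f (bs i)))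
    have e : f1 + f2 = f := by
      refine hC.ext (Submodule.add_mem _ h1 h2) hE fun i => ?_
      rw [LinearMap.add_apply, h1', h2', up_add_lo]
    rw [← e]
    apply Submodule.add_mem_sup
    · rw [hC.mem1]
      refine ⟨h1, fun i hi => ?_⟩
      rw [h1', up, if_neg (by omega)]
    · rw [hC.mem2]
      refine ⟨h2, fun i hi => ?_, fun j hj => ?_⟩
      · rw [h2', lo, if_pos hi]
      · rw [hC.apply_cs h2]
        simp only [h2']
        exact hf j hj

lemma c_d34 (hC : Cfg h δ p E U₁ U₂ U₃ U₄ bs cs M) (hM : MData h δ p q m M z v) :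
    (U₃ ⊔ E).dualAnnihilator ⊓ (U₄ ⊔ E).dualAnnihilator ⊓
      ((U₁ ⊔ E).dualAnnihilator ⊔ (U₂ ⊔ E).dualAnnihilator) = ⊥ := by
  rw [eq_bot_iff]
  rintro f ⟨⟨h3, h4⟩, h12⟩
  rw [SetLike.mem_coe, hC.mem3] at h3
  rw [SetLike.mem_coe, hC.mem4] at h4
  rw [SetLike.mem_coe, mem_A12 hC] at h12
  rw [Submodule.mem_bot]
  have h0 : (fun i => f (bs i)) ᵥ* Gz h δ p M 0 = 0 := by
    funext j
    rw [vecMul_Gz, Pi.zero_apply]
    split_ifs with hj hj'
    · exact h12.2 j hj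
    · rw [← hC.apply_cs h3.1]
      exact h3.2 j (by omega) hj'
    · have h5 := h4.2 j (by omega)
      rw [hC.apply_cs h4.1] at h5
      have h6 : ∑ i, M i j * f (bs i) = ∑ i, M i j * up h (fun i => f (bs i)) i +
          ∑ i, M i j * lo h (fun i => f (bs i)) i := by
        rw [← Finset.sum_add_distrib]
        refine Finset.sum_congr rfl fun i _ => ?_
        rw [← mul_add, up_add_lo]
      rw [h6] at h5
      rw [zero_sub, neg_one_mul, ← neg_add', h5, neg_zero]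
  have h7 : (fun i => f (bs i)) = 0 := Matrix.eq_zero_of_vecMul_eq_zero hM.det0 h0
  refine hC.ext h3.1 (Submodule.zero_mem _) fun i => ?_
  exact congrFun h7 i

lemma c_d13 (hC : Cfg h δ p E U₁ U₂ U₃ U₄ bs cs M) (hM : MData h δ p q m M z v) :
    (U₁ ⊔ E).dualAnnihilator ⊓ (U₃ ⊔ E).dualAnnihilator = ⊥ := by
  rw [eq_bot_iff]
  rintro f ⟨h1, h3⟩
  rw [SetLike.mem_coe, hC.mem1] at h1
  rw [SetLike.mem_coe, hC.mem3] at h3
  rw [Submodule.mem_bot]
  have h7 := hM.rk (fun i => f (bs i)) (fun i hi => h1.2 i hi) (fun j hj hj' => by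
    rw [← hC.apply_cs h3.1]
    exact h3.2 j hj hj')
  refine hC.ext h3.1 (Submodule.zero_mem _) fun i => ?_
  exact congrFun h7 i

lemma wu_ne (hM : MData h δ p q m M z v) (hF : Fns h E bs v w u) (i : Fin m) :
    w i + u i ≠ 0 := by
  intro h0
  apply hM.v0 i
  funext j
  have h1 := LinearMap.congr_fun h0 (bs j)
  rw [LinearMap.add_apply, hF.wb, hF.ub, up_add_lo] at h1
  exact h1

lemma w_ne (hC : Cfg h δ p E U₁ U₂ U₃ U₄ bs cs M) (hM : MData h δ p q m M z v)
    (hF : Fns h E bs v w u) (i : Fin m) : w i ≠ 0 := by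
  intro h0
  have h1 := mem_A2 hC hM hF i
  have h2 := mem_A3 hC hM hF i
  have h3 := mem_A4 hC hM hF i
  rw [h0, zero_add] at h2
  rw [h0, smul_zero, zero_sub, neg_mem_iff] at h3
  rw [hC.mem2] at h1
  rw [hC.mem3] at h2
  rw [hC.mem4] at h3
  have h4 : (fun k => u i (bs k)) ᵥ* M = 0 := by
    funext j
    rw [Matrix.vecMul, dotProduct, Pi.zero_apply]
    have h5 : ∑ k, u i (bs k) * M k j = u i (cs j) := by
      rw [hC.apply_cs (hF.uE i)]
      exact Finset.sum_congr rfl fun k _ => mul_comm _ _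
    rw [h5]
    rcases lt_or_ge (j : ℕ) δ with hj | hj
    · exact h1.2.2 j hj
    · rcases lt_or_ge (j : ℕ) (δ + p) with hj' | hj'
      · exact h2.2 j hj hj'
      · exact h3.2 j hj'
  have h5 := Matrix.eq_zero_of_vecMul_eq_zero hM.det h4
  apply wu_ne hM hF i
  rw [h0, zero_add]
  refine hC.ext (hF.uE i) (Submodule.zero_mem _) fun k => ?_
  exact congrFun h5 k

lemma finrank_A1 (hC : Cfg h δ p E U₁ U₂ U₃ U₄ bs cs M) (hh : h ≤ N) :
    finrank K ↥((U₁ ⊔ E).dualAnnihilator) = h := by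
  let L : ↥((U₁ ⊔ E).dualAnnihilator) →ₗ[K] (Fin h → K) :=
    { toFun := fun f i => (f : Dual K V) (bs (Fin.castLE hh i))
      map_add' := fun f g => by
        funext i
        simp
      map_smul' := fun a f => by
        funext i
        simp }
  have hinj : Function.Injective L := by
    intro f g hfg
    apply Subtype.ext
    have hf := (hC.mem1 _).1 f.2
    have hg := (hC.mem1 _).1 g.2
    refine hC.ext hf.1 hg.1 fun i => ?_
    rcases lt_or_ge (i : ℕ) h with hi | hi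
    · exact congrFun hfg ⟨i, hi⟩
    · rw [hf.2 i hi, hg.2 i hi]
  have hsurj : Function.Surjective L := by
    intro c
    obtain ⟨f, hf, hf'⟩ := hC.exists_fn (fun i => if hi : (i : ℕ) < h then c ⟨i, hi⟩ else 0)
    have hmem : f ∈ (U₁ ⊔ E).dualAnnihilator := by
      rw [hC.mem1]
      refine ⟨hf, fun i hi => ?_⟩
      rw [hf', dif_neg (by omega)]
    refine ⟨⟨f, hmem⟩, ?_⟩
    funext i
    change f (bs (Fin.castLE hh i)) = c i
    rw [hf', dif_pos (by simp)]
    rfl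
  rw [(LinearEquiv.ofBijective L ⟨hinj, hsurj⟩).finrank_eq, Module.finrank_fin_fun]

lemma finrank_A3 (hC : Cfg h δ p E U₁ U₂ U₃ U₄ bs cs M) (hM : MData h δ p q m M z v) :
    finrank K ↥((U₃ ⊔ E).dualAnnihilator ⊓
      ((U₁ ⊔ E).dualAnnihilator ⊔ (U₂ ⊔ E).dualAnnihilator)) = q := by
  have hN := hM.hN
  have hmem : ∀ f : Dual K V, f ∈ (U₃ ⊔ E).dualAnnihilator ⊓
      ((U₁ ⊔ E).dualAnnihilator ⊔ (U₂ ⊔ E).dualAnnihilator) ↔ f ∈ E.dualAnnihilator ∧
      ∀ j : Fin N, (j : ℕ) < δ + p → ((fun i => f (bs i)) ᵥ* Gz h δ p M 0) j = 0 := by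
    intro f
    rw [Submodule.mem_inf, hC.mem3, mem_A12 hC]
    constructor
    · rintro ⟨⟨h1, h2⟩, -, h3⟩
      refine ⟨h1, fun j hj => ?_⟩
      rw [vecMul_Gz]
      split_ifs with hj'
      · exact h3 j hj'
      · rw [← hC.apply_cs h1]
        exact h2 j (by omega) hj
    · rintro ⟨h1, h2⟩
      refine ⟨⟨h1, fun j hj hj' => ?_⟩, h1, fun j hj => ?_⟩
      · have h3 := h2 j hj'
        rw [vecMul_Gz, if_neg (by omega), if_pos hj', ← hC.apply_cs h1] at h3
        exact h3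
      · have h3 := h2 j (by omega)
        rwa [vecMul_Gz, if_pos hj] at h3
  let L : ↥((U₃ ⊔ E).dualAnnihilator ⊓
      ((U₁ ⊔ E).dualAnnihilator ⊔ (U₂ ⊔ E).dualAnnihilator)) →ₗ[K] (Fin q → K) :=
    { toFun := fun f j => ((fun i => (f : Dual K V) (bs i)) ᵥ* Gz h δ p M 0)
        ⟨δ + p + j, by omega⟩
      map_add' := fun f g => by
        funext j
        simp only [Pi.add_apply, Submodule.coe_add, LinearMap.add_apply]
        rw [← Pi.add_apply, ← Matrix.add_vecMul]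
        rfl
      map_smul' := fun a f => by
        funext j
        simp only [Submodule.coe_smul, LinearMap.smul_apply, RingHom.id_apply, Pi.smul_apply]
        rw [← Pi.smul_apply, ← Matrix.smul_vecMul]
        rfl }
  have hinj : Function.Injective L := by
    intro f g hfg
    apply Subtype.ext
    have hf' := (hmem _).1 f.2
    have hg' := (hmem _).1 g.2
    have h0 : ((fun i => (f : Dual K V) (bs i)) - (fun i => (g : Dual K V) (bs i))) ᵥ*
        Gz h δ p M 0 = 0 := by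
      rw [Matrix.sub_vecMul]
      funext j
      rw [Pi.sub_apply, Pi.zero_apply, sub_eq_zero]
      rcases lt_or_ge (j : ℕ) (δ + p) with hj | hj
      · rw [hf'.2 j hj, hg'.2 j hj]
      · have h1 := congrFun hfg ⟨j - (δ + p), by omega⟩
        have h2 : (⟨δ + p + (j - (δ + p)), by omega⟩ : Fin N) = j := by
          ext
          simp only
          omega
        change ((fun i => (f : Dual K V) (bs i)) ᵥ* Gz h δ p M 0)
          ⟨δ + p + (j - (δ + p)), by omega⟩ = ((fun i => (g : Dual K V) (bs i)) ᵥ*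
            Gz h δ p M 0) ⟨δ + p + (j - (δ + p)), by omega⟩ at h1
        rwa [h2] at h1
    have h7 := Matrix.eq_zero_of_vecMul_eq_zero hM.det0 h0
    refine hC.ext hf'.1 hg'.1 fun i => ?_
    have h8 := congrFun h7 i
    rw [Pi.sub_apply, Pi.zero_apply, sub_eq_zero] at h8
    exact h8
  have hsurj : Function.Surjective L := by
    intro c
    let y : Fin N → K := fun j => if hj : (j : ℕ) < δ + p then 0 else c ⟨j - (δ + p), by omega⟩
    obtain ⟨f, hf, hf'⟩ := hC.exists_fn (y ᵥ* (Gz h δ p M 0)⁻¹)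
    have h1 : (fun i => f (bs i)) ᵥ* Gz h δ p M 0 = y := by
      have h2 : (fun i => f (bs i)) = y ᵥ* (Gz h δ p M 0)⁻¹ := funext hf'
      rw [h2, Matrix.vecMul_vecMul, Matrix.nonsing_inv_mul _ (isUnit_iff_ne_zero.2 hM.det0),
        Matrix.vecMul_one]
    refine ⟨⟨f, (hmem f).2 ⟨hf, fun j hj => ?_⟩⟩, ?_⟩
    · rw [h1]
      exact dif_pos hj
    · funext j
      change ((fun i => f (bs i)) ᵥ* Gz h δ p M 0) ⟨δ + p + j, by omega⟩ = c j
      rw [h1]
      change (if hj : (δ + p + (j : ℕ)) < δ + p then (0 : K)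
        else c ⟨δ + p + j - (δ + p), by omega⟩) = c j
      rw [dif_neg (by omega)]
      congr 1
      ext
      simp only
      omega
  rw [(LinearEquiv.ofBijective L ⟨hinj, hsurj⟩).finrank_eq, Module.finrank_fin_fun]

end

end Pool.CSCB
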