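import Pool.Agent.CSCB.Dual

/-! The subspaces of dimension `2κ` of the dual space which meet four subspaces in dimension `κ`. -/

namespace Pool.CSCB

open Module Matrix

set_option linter.unusedSectionVars false

/-- what is proved about the solutions -/
structure Result {K D : Type*} [Field K] [AddCommGroup D] [Module K D] {m : ℕ} (κ : ℕ)
    (A₁ A₂ A₃ A₄ : Submodule K D) (w u : Fin m → D) : Prop where
  d12 : A₁ ⊓ A₂ = ⊥
  card : (Sols κ A₁ A₂ A₃ A₄).encard = (m.choose κ : ℕ)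
  facts : ∀ W ∈ Sols κ A₁ A₂ A₃ A₄, Facts κ A₁ A₂ A₃ A₄ W
  ws : ∀ W ∈ Sols κ A₁ A₂ A₃ A₄, ∃ S : Finset (Fin m), W = WS w u S
  tan : ∀ W ∈ Sols κ A₁ A₂ A₃ A₄, ∀ φ : ↥W →ₗ[K] D ⧸ W,
    (∀ x : ↥W, (x : D) ∈ A₁ → φ x ∈ A₁.map W.mkQ) →
    (∀ x : ↥W, (x : D) ∈ A₂ → φ x ∈ A₂.map W.mkQ) →
    (∀ x : ↥W, (x : D) ∈ A₃ → φ x ∈ A₃.map W.mkQ) →
    (∀ x : ↥W, (x : D) ∈ A₄ → φ x ∈ A₄.map W.mkQ) → φ = 0

section

variable {K D : Type*} [Field K] [AddCommGroup D] [Module K D] [FiniteDimensional K D] {m κ : ℕ}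
  {A₁ A₂ A₃ A₄ : Submodule K D} {z : Fin m → K} {w u : Fin m → D}

omit [FiniteDimensional K D] in
lemma id1 (a b : D) (t : K) : a + b + ((t - 1) • a - b) = t • a := by
  rw [sub_smul, one_smul]
  abel

omit [FiniteDimensional K D] in
lemma id2 (a b : D) (t : K) : (t - 1) • (a + b) - ((t - 1) • a - b) = t • b := by
  rw [smul_add, sub_smul _ _ b, one_smul]
  abel

lemma result_of_sys (h : Sys m A₁ A₂ A₃ A₄ z w u) : Result κ A₁ A₂ A₃ A₄ w u where
  d12 := h.d12
  card := h.encard_sols κ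
  facts := fun _ hW => facts h.d12 h.d34 hW
  ws := fun _ hW => by
    obtain ⟨S, -, hS⟩ := h.exists_WS hW
    exact ⟨S, hS⟩
  tan := fun _ hW φ t1 t2 t3 t4 => h.tan_zero hW φ t1 t2 t3 t4

/-- the solutions for the subspaces `A₃, A₄` cut by `A₁ + A₂` -/
lemma sols_swap (d12 : A₁ ⊓ A₂ = ⊥) (d34 : A₃ ⊓ A₄ ⊓ (A₁ ⊔ A₂) = ⊥) :
    Sols κ (A₃ ⊓ (A₁ ⊔ A₂)) (A₄ ⊓ (A₁ ⊔ A₂)) A₁ A₂ = Sols κ A₁ A₂ A₃ A₄ := by
  have key : ∀ W : Submodule K D, W ≤ A₁ ⊔ A₂ → ∀ A : Submodule K D,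
      W ⊓ (A ⊓ (A₁ ⊔ A₂)) = W ⊓ A := by
    intro W hW A
    apply le_antisymm
    · exact inf_le_inf_left _ inf_le_left
    · exact le_inf inf_le_left (le_inf inf_le_right (inf_le_left.trans hW))
  ext W
  constructor
  · rintro ⟨h0, h3, h4, h1, h2⟩
    have hle : W ≤ A₁ ⊔ A₂ := by
      have := (split_of_disj (X := W ⊓ A₁) (Y := W ⊓ A₂) inf_le_left inf_le_left (by
        rw [eq_bot_iff, ← d12]
        exact inf_le_inf inf_le_right inf_le_right) h1 h2 h0).1
      rw [← this]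
      exact sup_le_sup inf_le_right inf_le_right
    rw [key W hle] at h3 h4
    exact ⟨h0, h1, h2, h3, h4⟩
  · intro hW
    have hF := facts d12 d34 hW
    refine ⟨hW.1, ?_, ?_, hW.2.1, hW.2.2.1⟩
    · rw [key W hF.le]
      exact hF.e3.ge
    · rw [key W hF.le]
      exact hF.e4.ge

lemma WS_swap (z0 : ∀ i, z i ≠ 0) (S : Finset (Fin m)) :
    (WS (fun i => w i + u i) (fun i => (z i - 1) • w i - u i) S : Submodule K D) =
      WS w u S := by
  apply le_antisymm
  · apply sup_le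
    · rw [Submodule.span_le]
      rintro _ ⟨i, hi, rfl⟩
      exact Submodule.add_mem _ (mem_WS_w S hi) (mem_WS_u S hi)
    · rw [Submodule.span_le]
      rintro _ ⟨i, hi, rfl⟩
      exact Submodule.sub_mem _ (Submodule.smul_mem _ _ (mem_WS_w S hi)) (mem_WS_u S hi)
  · set T : Submodule K D := WS (fun i => w i + u i) (fun i => (z i - 1) • w i - u i) S with hT
    have hw : ∀ i ∈ S, w i ∈ T := by
      intro i hi
      have h1 : w i + u i ∈ T := Submodule.mem_sup_left (Submodule.subset_span ⟨i, hi, rfl⟩)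
      have h2 : (z i - 1) • w i - u i ∈ T :=
        Submodule.mem_sup_right (Submodule.subset_span ⟨i, hi, rfl⟩)
      have h3 := T.add_mem h1 h2
      have h4 : w i + u i + ((z i - 1) • w i - u i) = z i • w i := by
        rw [sub_smul, one_smul]
        abel
      rw [h4] at h3
      exact (T.smul_mem_iff (z0 i)).1 h3
    apply sup_le
    · rw [Submodule.span_le]
      rintro _ ⟨i, hi, rfl⟩
      exact hw i hi
    · rw [Submodule.span_le]
      rintro _ ⟨i, hi, rfl⟩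
      have h1 : w i + u i ∈ T := Submodule.mem_sup_left (Submodule.subset_span ⟨i, hi, rfl⟩)
      have h2 := T.sub_mem h1 (hw i hi)
      have h3 : w i + u i - w i = u i := by abel
      rw [h3] at h2
      exact h2

lemma result_of_swap (d12 : A₁ ⊓ A₂ = ⊥) (d34 : A₃ ⊓ A₄ ⊓ (A₁ ⊔ A₂) = ⊥)
    (h : Sys m (A₃ ⊓ (A₁ ⊔ A₂)) (A₄ ⊓ (A₁ ⊔ A₂)) A₁ A₂ z (fun i => w i + u i)
      (fun i => (z i - 1) • w i - u i)) : Result κ A₁ A₂ A₃ A₄ w u where
  d12 := d12
  card := by
    rw [← sols_swap d12 d34]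
    exact h.encard_sols κ
  facts := fun _ hW => facts d12 d34 hW
  ws := fun W hW => by
    rw [← sols_swap d12 d34] at hW
    obtain ⟨S, -, hS⟩ := h.exists_WS hW
    rw [WS_swap h.z0] at hS
    exact ⟨S, hS⟩
  tan := fun W hW φ t1 t2 t3 t4 => by
    have hF := facts d12 d34 hW
    have hker : ∀ x : D, W.mkQ x = 0 ↔ x ∈ W := fun x => by
      rw [← LinearMap.mem_ker, Submodule.ker_mkQ]
    -- the image lies in `A₁ + A₂`
    have himg : ∀ x : ↥W, φ x ∈ (A₁ ⊔ A₂).map W.mkQ := by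
      intro x
      have h1 : (x : D) ∈ W ⊓ A₁ ⊔ W ⊓ A₂ := by
        rw [hF.s12]
        exact x.2
      obtain ⟨a, ha, b, hb, e⟩ := Submodule.mem_sup.1 h1
      have h2 : x = ⟨a, ha.1⟩ + ⟨b, hb.1⟩ := Subtype.ext e.symm
      rw [h2, map_add]
      exact Submodule.add_mem _
        (Submodule.map_mono le_sup_left (t1 ⟨a, ha.1⟩ ha.2))
        (Submodule.map_mono le_sup_right (t2 ⟨b, hb.1⟩ hb.2))
    have key : ∀ A : Submodule K D, (∀ x : ↥W, (x : D) ∈ A → φ x ∈ A.map W.mkQ) →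
        ∀ x : ↥W, (x : D) ∈ A ⊓ (A₁ ⊔ A₂) → φ x ∈ (A ⊓ (A₁ ⊔ A₂)).map W.mkQ := by
      intro A hA x hx
      obtain ⟨c, hc, hc'⟩ := hA x hx.1
      obtain ⟨d, hd, hd'⟩ := himg x
      have h1 : c - d ∈ W := by
        rw [← hker, map_sub, hc', hd', sub_self]
      refine ⟨c, ⟨hc, ?_⟩, hc'⟩
      have h2 : c = (c - d) + d := by abel
      rw [h2]
      exact Submodule.add_mem _ (hF.le h1) hd
    rw [← sols_swap d12 d34] at hW
    exact h.tan_zero hW φ (key A₃ t3) (key A₄ t4) t1 t2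

end

section

variable {K V : Type*} [Field K] [AddCommGroup V] [Module K V] [FiniteDimensional K V] {N : ℕ}
  {h δ p q m : ℕ} {E U₁ U₂ U₃ U₄ : Submodule K V} {bs cs : Fin N → V}
  {M : Matrix (Fin N) (Fin N) K} {z : Fin m → K} {v : Fin m → Fin N → K}
  {w u : Fin m → Dual K V}

theorem dual_main (hC : Cfg h δ p E U₁ U₂ U₃ U₄ bs cs M) (hM : MData h δ p q m M z v)
    (hF : Fns h E bs v w u) (κ : ℕ) :
    Result κ (U₁ ⊔ E).dualAnnihilator (U₂ ⊔ E).dualAnnihilator (U₃ ⊔ E).dualAnnihilator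
      (U₄ ⊔ E).dualAnnihilator w u := by
  have hN := hM.hN
  have hh := hM.hh
  have hm := hM.hm
  have d12 := c_d12 hC
  have d34 := c_d34 hC hM
  have d13 := c_d13 hC hM
  have m1 := mem_A1 hC hF
  have m2 := mem_A2 hC hM hF
  have m3 := mem_A3 hC hM hF
  have m4 := mem_A4 hC hM hF
  have f1 := finrank_A1 hC (show h ≤ N by omega)
  have f3 := finrank_A3 hC hM
  rcases le_total h q with hhq | hhq
  · have hmh : m = h := by omega
    exact result_of_sys (z := z) ⟨d12, d34, d13, hM.zinj, hM.z0, w_ne hC hM hF, m1, m2, m3, m4,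
      by rw [f1, hmh]⟩
  · have hmq : m = q := by omega
    set A₁ := (U₁ ⊔ E).dualAnnihilator
    set A₂ := (U₂ ⊔ E).dualAnnihilator
    set A₃ := (U₃ ⊔ E).dualAnnihilator
    set A₄ := (U₄ ⊔ E).dualAnnihilator
    refine result_of_swap (z := z) d12 d34 ⟨?_, ?_, ?_, hM.zinj, hM.z0, fun i => wu_ne hM hF i,
      ?_, ?_, ?_, ?_, ?_⟩
    · rw [eq_bot_iff, ← d34]
      exact le_inf (inf_le_inf inf_le_left inf_le_left) (inf_le_left.trans inf_le_right)
    · rw [d12, bot_inf_eq]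
    · rw [eq_bot_iff, ← d13]
      exact le_inf inf_le_right (inf_le_left.trans inf_le_left)
    · intro i
      exact ⟨m3 i, Submodule.add_mem_sup (m1 i) (m2 i)⟩
    · intro i
      exact ⟨m4 i, Submodule.sub_mem _ (Submodule.smul_mem _ _ (Submodule.mem_sup_left (m1 i)))
        (Submodule.mem_sup_right (m2 i))⟩
    · intro i
      rw [id1]
      exact A₁.smul_mem _ (m1 i)
    · intro i
      rw [id2]
      exact A₂.smul_mem _ (m2 i)
    · rw [f3, hmq]

end

/-- data from determinants -/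
lemma MData.of_det {K : Type*} [Field K] {N h δ p q m : ℕ} {M : Matrix (Fin N) (Fin N) K}
    {z : Fin m → K} (hN : δ + p + q = N) (hh : h ≤ p) (hd : δ + h ≤ N) (hm : m = min h q)
    (det0 : (Gz h δ p M 0).det ≠ 0) (det : M.det ≠ 0)
    (hminor : (M.submatrix (fun i : Fin h => (⟨i, by omega⟩ : Fin N))
      (fun j : Fin h => (⟨δ + j, by omega⟩ : Fin N))).det ≠ 0)
    (zinj : Function.Injective z) (z0 : ∀ i, z i ≠ 0) {v : Fin m → Fin N → K}
    (v0 : ∀ i, v i ≠ 0) (ker : ∀ i, v i ᵥ* Gz h δ p M (z i) = 0) :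
    MData h δ p q m M z v where
  hN := hN
  hh := hh
  hd := hd
  hm := hm
  det0 := det0
  det := det
  rk := by
    intro c hc hc'
    have h1 : (fun i : Fin h => c ⟨i, by omega⟩) ᵥ*
        (M.submatrix (fun i : Fin h => (⟨i, by omega⟩ : Fin N))
          (fun j : Fin h => (⟨δ + j, by omega⟩ : Fin N))) = 0 := by
      funext j
      rw [Matrix.vecMul, dotProduct, Pi.zero_apply]
      have h2 := hc' ⟨δ + j, by omega⟩ (by simp) (by
        simp only
        omega)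
      rw [← h2]
      have hinj : Function.Injective (fun i : Fin h => (⟨i, by omega⟩ : Fin N)) := by
        intro i i' hii
        rw [Fin.mk.injEq] at hii
        exact Fin.ext hii
      rw [← Finset.sum_subset (Finset.subset_univ
        (Finset.univ.map ⟨fun i : Fin h => (⟨i, by omega⟩ : Fin N), hinj⟩))]
      · rw [Finset.sum_map]
        refine Finset.sum_congr rfl fun i _ => ?_
        simp only [Matrix.submatrix_apply, Function.Embedding.coeFn_mk]
        rw [mul_comm]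
      · intro i _ hi
        have h3 : h ≤ (i : ℕ) := by
          by_contra h4
          apply hi
          rw [Finset.mem_map]
          exact ⟨⟨i, by omega⟩, Finset.mem_univ _, rfl⟩
        rw [hc i h3, mul_zero]
    have h2 := Matrix.eq_zero_of_vecMul_eq_zero hminor h1
    funext i
    rcases lt_or_ge (i : ℕ) h with hi | hi
    · exact congrFun h2 ⟨i, hi⟩
    · exact hc i hi
  zinj := zinj
  z0 := z0
  v0 := v0
  ker := ker

end Pool.CSCB
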