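import Pool.Agent.CSCB.GenMain

/-! Main theorem for four given flags. -/

namespace Pool.CSCB

open Module Matrix Pool.CSC

noncomputable section

/-! ### cosecant flags with given roots -/

/-- the flag with given roots -/
def cosFlag (n : ℕ) (s : Fin (n - 1) → ℝ) (j : ℕ) : Submodule ℂ (Fin n → ℂ) :=
  if j = 0 then ⊥ else ⨅ (i : Fin (n - 1)) (_ : (i : ℕ) < n - j), osc n (s i)

lemma cosecant_cosFlag {n : ℕ} (hn : 1 ≤ n) {I : Set ℝ} {s : Fin (n - 1) → ℝ}
    (hs : Function.Injective s) (hI : ∀ i, s i ∈ I) : Cosecant n I (cosFlag n s) := by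
  refine ⟨if_pos rfl, s, hs, hI, fun j hj => ?_⟩
  rw [cosFlag, if_neg (by omega), show n - (n - j) = j by omega]

/-- the roots `c, c + 1, ..., c + n - 2` -/
def rt (n : ℕ) (c : ℝ) (i : Fin (n - 1)) : ℝ := c + (i : ℕ)

lemma rt_inj (n : ℕ) (c : ℝ) : Function.Injective (rt n c) := by
  intro i j h
  have : ((i : ℕ) : ℝ) = (j : ℕ) := add_left_cancel h
  exact Fin.ext (by exact_mod_cast this)

lemma rt_mem (n : ℕ) (c : ℝ) (i : Fin (n - 1)) : rt n c i ∈ Set.Ico c (c + n) := by
  have h1 := i.2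
  have h2 : ((i : ℕ) : ℝ) < n := by exact_mod_cast (by omega : (i : ℕ) < n)
  constructor
  · rw [rt]
    have : (0 : ℝ) ≤ ((i : ℕ) : ℝ) := Nat.cast_nonneg _
    linarith
  · rw [rt]
    linarith

lemma Ico_disj {n : ℕ} {c c' : ℝ} (h : c + n ≤ c') :
    Disjoint (Set.Ico c (c + n)) (Set.Ico c' (c' + n)) := by
  rw [Set.disjoint_left]
  rintro x ⟨_, h1⟩ ⟨h2, _⟩
  linarith

/-! ### the number of points -/

/-- the minimum of all `r i` and `N - r i` -/
def Dm (N : ℕ) (r : Fin 4 → ℕ) : ℕ :=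
  Finset.univ.inf' Finset.univ_nonempty (fun i : Fin 4 => min (r i) (N - r i))

lemma Dm_eq {N : ℕ} {r : Fin 4 → ℕ} (hr2 : ∑ i, r i = 2 * N) (hrN : ∀ i, r i ≤ N)
    {π : Equiv.Perm (Fin 4)} (h01 : N ≤ r (π 0) + r (π 1)) (h02 : N ≤ r (π 0) + r (π 2)) :
    min (N - r (π 0)) (r (π 3)) = Dm N r := by
  have hsum := sum_fin4 r π hr2
  have h0 := hrN (π 0)
  have h1 := hrN (π 1)
  have h2 := hrN (π 2)
  have h3 := hrN (π 3)
  apply le_antisymm
  · apply Finset.le_inf'
    intro i _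
    obtain ⟨j, rfl⟩ := π.surjective i
    fin_cases j
    · simp only [Fin.zero_eta, Fin.isValue]
      omega
    · simp only [Fin.mk_one, Fin.isValue]
      omega
    · simp only [Fin.reduceFinMk, Fin.isValue]
      omega
    · simp only [Fin.reduceFinMk, Fin.isValue]
      omega
  · apply le_min
    · exact (Finset.inf'_le _ (Finset.mem_univ (π 0))).trans (min_le_right _ _)
    · exact (Finset.inf'_le _ (Finset.mem_univ (π 3))).trans (min_le_left _ _)

/-- the whole statement for one problem -/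
def Statement (k n m : ℕ) (lam : Fin m → Fin k → ℕ) (d : ℕ) : Prop :=
  IsGenericNumber k n m lam d ∧
    ∀ (I : Fin m → Set ℝ) (F : Fin m → ℕ → Submodule ℂ (Fin n → ℂ)),
      (∀ l, (I l).OrdConnected) → Pairwise (fun l l' => Disjoint (I l) (I l')) →
      (∀ l, Cosecant n (I l) (F l)) →
      (⋂ l, schub k n (lam l) (F l)).encard = d ∧
        ∀ H ∈ ⋂ l, schub k n (lam l) (F l), IsReal n H ∧
          ∀ φ : ↥H →ₗ[ℂ] (Fin n → ℂ) ⧸ H,
            (∀ l, TangentTo k n (lam l) (F l) H φ) → φ = 0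

section

variable {k n m κ N : ℕ} {lam : Fin m → Fin k → ℕ} {a b : Fin m → ℕ} {τ : Fin 4 → Fin m}
  {r : Fin 4 → ℕ}

/-- the number of points for general flags -/
theorem generic_main (hP : Prob k n m κ N lam a b τ r) (hr2 : ∑ i, r i = 2 * N)
    (hrN : ∀ i, r i ≤ N) : IsGenericNumber k n m lam ((Dm N r).choose κ) := by
  have hk := hP.hk
  have hκ := hP.hκ
  have hn := hP.hn
  let I : Fin m → Set ℝ := fun l => Set.Ico ((l : ℕ) * n : ℝ) ((l : ℕ) * n + n)
  let F : Fin m → ℕ → Submodule ℂ (Fin n → ℂ) := fun l => cosFlag n (rt n ((l : ℕ) * n))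
  have hI : ∀ l, (I l).OrdConnected := fun l => Set.ordConnected_Ico
  have hd : Pairwise (fun l l' => Disjoint (I l) (I l')) := by
    have key : ∀ l l' : Fin m, (l : ℕ) < l' → Disjoint (I l) (I l') := by
      intro l l' h
      apply Ico_disj
      have h1 : ((l : ℕ) : ℝ) + 1 ≤ (l' : ℕ) := by exact_mod_cast h
      have h2 : (0 : ℝ) ≤ n := Nat.cast_nonneg _
      nlinarith
    intro l l' hne
    rcases lt_or_gt_of_ne (fun h => hne (Fin.ext h) : (l : ℕ) ≠ l') with h | h
    · exact key l l' h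
    · exact (key l' l h).symm
  have hF : ∀ l, Cosecant n (I l) (F l) := fun l =>
    cosecant_cosFlag (by omega) (rt_inj _ _) fun i => rt_mem _ _ _
  obtain ⟨π, y, b', C, hb, hy, h01, h02, htop, hrel, hstp, hyr, hbr, hind⟩ :=
    TPR.cosecant_stp (by omega) I hI hd F hF a τ hP.hτ r hrN hP.hN hr2
  have hcard : Fintype.card (Fin n) =
      Fintype.card (((l : Fin m) × Fin (a l)) ⊕ Fin N) := by
    rw [Fintype.card_sum, Fintype.card_sigma]
    simp only [Fintype.card_fin]
    exact hP.hN.symm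
  let e : Fin n ≃ ((l : Fin m) × Fin (a l)) ⊕ Fin N := Fintype.equivOfCardEq hcard
  have hsum := sum_fin4 r π hr2
  have h0 := hrN (π 0)
  have h1 := hrN (π 1)
  have hh : N - r (π 0) ≤ N := Nat.sub_le _ _
  have hd' : r (π 0) + r (π 1) - N + (N - r (π 0)) ≤ N := by omega
  let Ag : Fin m → Matrix (Fin n) (Fin n) (MvPolynomial (Fin m × Fin n × Fin n) ℂ) :=
    fun l => Matrix.of fun i j => MvPolynomial.X (l, i, j)
  let P := Pe a τ r π e (N - r (π 0)) (r (π 0) + r (π 1) - N) (r (π 2)) (r (π 3)) hh hd' Ag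
  have hev : ∀ A : Fin m → Matrix (Fin n) (Fin n) ℂ,
      MvPolynomial.eval (fun x => A x.1 x.2.1 x.2.2) P =
        Pe a τ r π e (N - r (π 0)) (r (π 0) + r (π 1) - N) (r (π 2)) (r (π 3)) hh hd' A := by
    intro A
    rw [← Pe_map]
    congr 1
    funext l
    ext i j
    simp [Ag]
  refine ⟨P, ?_, ?_⟩
  · intro hP0
    have h2 := example_ne (e := e) (π := π) hP.hτ hP.hN hr2 hrN h01 h02
      (E := ⨆ l, F l (a l)) (by
        congr 1
        funext l
        exact hb l) htop hrel hstp hind hh hd'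
    rw [← hev, hP0, map_zero] at h2
    exact h2 rfl
  · intro A hA hPA
    rw [hev] at hPA
    rw [generic_count hP hr2 hrN h01 h02 A hA hh hd' hPA, Dm_eq hr2 hrN h01 h02]

theorem statement_of_le (hP : Prob k n m κ N lam a b τ r) (hr2 : ∑ i, r i = 2 * N)
    (hrN : ∀ i, r i ≤ N) : Statement k n m lam ((Dm N r).choose κ) := by
  refine ⟨generic_main hP hr2 hrN, ?_⟩
  intro I F hI hd hF
  obtain ⟨π, h01, h02, h3, h4⟩ := cosecant_main hP hr2 hrN I F hI hd hF
  rw [Dm_eq hr2 hrN h01 h02] at h3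
  exact ⟨h3, h4⟩

/-- no solutions if one of the subspaces is everything -/
lemma inter_empty (hP : Prob k n m κ N lam a b τ r) {F : Fin m → ℕ → Submodule ℂ (Fin n → ℂ)}
    (hF : ∀ l, IsFlag n (F l)) {i₀ : Fin 4} (hi₀ : N < r i₀)
    (htop : ⨆ l, F l (a l + if l = τ i₀ then N else 0) = ⊤) :
    ⋂ l, schub k n (lam l) (F l) = ∅ := by
  have hκ := hP.hκ
  have hn := hP.hn
  rw [Set.eq_empty_iff_forall_notMem]
  intro H hH
  obtain ⟨hHk, hE, hU⟩ := (mem_inter_iff' hP hF H).1 hH
  have h1 := hU i₀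
  have hab := hP.hab (τ i₀)
  have hr := hP.hr i₀
  have hUdim : finrank ℂ ↥(Us a τ r F i₀) = a (τ i₀) + b (τ i₀) + κ := by
    rw [Us, (hF (τ i₀)).dim _ (by omega)]
    omega
  have h2 : H ⊔ Us a τ r F i₀ = ⊤ := by
    rw [eq_top_iff, ← htop]
    refine iSup_le fun l => ?_
    split_ifs with hl
    · subst hl
      refine le_trans ?_ le_sup_right
      rw [Us]
      exact (hF (τ i₀)).mono _ _ (by omega) (by omega)
    · rw [add_zero]
      exact ((le_iSup (fun l => F l (a l)) l).trans hE).trans le_sup_left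
  have h3 := Submodule.finrank_sup_add_finrank_inf_eq H (Us a τ r F i₀)
  rw [h2, finrank_top, finrank_V, hHk, hUdim] at h3
  omega

theorem statement_of_gt (hP : Prob k n m κ N lam a b τ r) {i₀ : Fin 4} (hi₀ : N < r i₀) :
    Statement k n m lam 0 := by
  have hκ := hP.hκ
  have hn := hP.hn
  have hk := hP.hk
  have hsum : ∑ l, (a l + if l = τ i₀ then N else 0) = n := by
    rw [Finset.sum_add_distrib, Finset.sum_ite_eq' Finset.univ (τ i₀) fun _ => N,
      if_pos (Finset.mem_univ _), hP.hN]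
  constructor
  · obtain ⟨P, hP0, hPA⟩ := exists_poly (n := n) _ hsum
    refine ⟨P, hP0, fun A hA hev => ?_⟩
    rw [inter_empty hP (fun l => isFlag_flagOf _ (hA l)) hi₀ (hPA A hev)]
    simp
  · intro I F hI hd hF
    have h1 := inter_empty hP (fun l => isFlag_cosecant (by omega) (hF l)) hi₀
      (span_top (by omega) I hI hd F hF _ hsum)
    rw [h1]
    refine ⟨by simp, fun H hH => absurd hH (Set.notMem_empty H)⟩

/-- the main theorem for four given flags -/
theorem statement_main (hP : Prob k n m κ N lam a b τ r) (hr2 : ∑ i, r i = 2 * N) :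
    Statement k n m lam ((Dm N r).choose κ) := by
  by_cases h : ∀ i, r i ≤ N
  · exact statement_of_le hP hr2 h
  · push Not at h
    obtain ⟨i₀, hi₀⟩ := h
    have h1 : Dm N r = 0 := by
      have h2 : Dm N r ≤ min (r i₀) (N - r i₀) := Finset.inf'_le _ (Finset.mem_univ i₀)
      omega
    rw [h1, Nat.choose_eq_zero_of_lt (by have := hP.hκ; omega)]
    exact statement_of_gt hP hi₀

end

end

end Pool.CSCB
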