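import Pool.Agent.CSCB.Pad

/-! The final theorem. -/

namespace Pool.CSCB

open Module Matrix Pool.CSC

noncomputable section

section

variable {k n m κ : ℕ} {lam : Fin m → Fin k → ℕ}

lemma cnt_zero {c : ℕ} (hc : 1 ≤ c) : cnt c (fun _ : Fin k => 0) = 0 := by
  rw [cnt, Finset.card_eq_zero, Finset.filter_eq_empty_iff]
  intro i _
  omega

lemma padL_left (l : Fin m) : padL lam (Fin.castAdd 4 l) = lam l := by
  rw [padL, Fin.append_left]

lemma padL_right (j : Fin 4) : padL lam (Fin.natAdd m j) = fun _ => 0 := by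
  rw [padL, Fin.append_right]

/-- the enumeration of the four partitions -/
def tauT (T : Finset (Fin m)) (i : Fin 4) : Fin (m + 4) :=
  if h : (i : ℕ) < T.card then Fin.castAdd 4 (T.orderEmbOfFin rfl ⟨i, h⟩) else Fin.natAdd m i

lemma tauT_inj (T : Finset (Fin m)) : Function.Injective (tauT T) := by
  intro i j hij
  rw [tauT, tauT] at hij
  split_ifs at hij with h1 h2 h2
  · have h3 := Fin.castAdd_injective m 4 hij
    have h4 := (T.orderEmbOfFin rfl).injective h3
    rw [Fin.mk.injEq] at h4
    exact Fin.ext h4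
  · have h3 := congrArg Fin.val hij
    rw [Fin.val_castAdd, Fin.val_natAdd] at h3
    have := (T.orderEmbOfFin rfl ⟨i, h1⟩).2
    omega
  · have h3 := congrArg Fin.val hij
    rw [Fin.val_castAdd, Fin.val_natAdd] at h3
    have := (T.orderEmbOfFin rfl ⟨j, h2⟩).2
    omega
  · have h3 := congrArg Fin.val hij
    rw [Fin.val_natAdd, Fin.val_natAdd] at h3
    exact Fin.ext (by omega)

lemma exists_tauT (T : Finset (Fin m)) (hT : T.card ≤ 4) {l : Fin m} (hl : l ∈ T) :
    ∃ i, tauT T i = Fin.castAdd 4 l := by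
  have h1 : l ∈ Set.range (T.orderEmbOfFin rfl) := by
    rw [Finset.range_orderEmbOfFin]
    exact hl
  obtain ⟨i, hi⟩ := h1
  refine ⟨⟨i, by omega⟩, ?_⟩
  rw [tauT, dif_pos i.2]
  congr 1

theorem main_four (hk : 1 ≤ k) (hκ : 1 ≤ κ) (hn : n = k + 2 * κ)
    (hlam : IsProblem k n m lam) (T : Finset (Fin m)) (hT : T.card ≤ 4)
    (hfree : ∀ l ∈ T, ∀ i, lam l i = 0 ∨ lam l i = κ ∨ lam l i = 2 * κ)
    (hrect : ∀ l, l ∉ T → ∀ i, lam l i = 0 ∨ lam l i = 2 * κ) :
    ∃ d, Statement k n m lam d ∧ (T.card ≤ 3 → d ≤ 1) ∧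
      (T.card = 4 → ∀ D, IsLeast {x | ∃ l ∈ T, x = κ + cnt κ (lam l) ∨
        x = n - ∑ l', cnt (2 * κ) (lam l') - (κ + cnt κ (lam l))} D → d = D.choose κ) := by
  classical
  have hm : 1 ≤ m := by
    rcases Nat.eq_zero_or_pos m with h | h
    · subst h
      have h1 := hlam.sum
      simp only [Finset.univ_eq_empty, Finset.sum_empty] at h1
      have h2 : 0 < k * (n - k) := Nat.mul_pos hk (by omega)
      omega
    · exact h
  have hval : ∀ l : Fin (m + 4), ∀ i, padL lam l i = 0 ∨ padL lam l i = κ ∨
      padL lam l i = 2 * κ := by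
    intro l
    refine Fin.addCases (fun l => ?_) (fun j => ?_) l
    · intro i
      rw [padL_left]
      by_cases hl : l ∈ T
      · exact hfree l hl i
      · rcases hrect l hl i with h | h
        · exact Or.inl h
        · exact Or.inr (Or.inr h)
    · intro i
      rw [padL_right]
      exact Or.inl rfl
  have hanti : ∀ l : Fin (m + 4), Antitone (padL lam l) := by
    intro l
    refine Fin.addCases (fun l => ?_) (fun j => ?_) l
    · rw [padL_left]
      exact hlam.anti l
    · rw [padL_right]
      exact antitone_const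
  set a : Fin (m + 4) → ℕ := fun l => cnt (2 * κ) (padL lam l) with ha
  set b : Fin (m + 4) → ℕ := fun l => cnt κ (padL lam l) with hb
  have hshape := fun l => shape_of hκ (hanti l) (hval l)
  -- the sum
  have hsum : ∑ l, (2 * a l + b l) = 2 * k := by
    have h1 : ∑ l, ∑ i, padL lam l i = k * (n - k) := by
      rw [Fin.sum_univ_add]
      simp only [padL_left, padL_right, Finset.sum_const_zero, add_zero]
      exact hlam.sum
    have h2 : ∑ l, ∑ i, padL lam l i = κ * ∑ l, (2 * a l + b l) := by
      rw [Finset.mul_sum]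
      exact Finset.sum_congr rfl fun l _ => sum_shape hκ (hval l)
    rw [h2] at h1
    have h3 : κ * ∑ l, (2 * a l + b l) = κ * (2 * k) := by
      rw [h1, show n - k = 2 * κ by omega]
      ring
    exact Nat.eq_of_mul_eq_mul_left hκ h3
  rw [Finset.sum_add_distrib, ← Finset.mul_sum] at hsum
  set N := n - ∑ l, a l with hN
  have hNn : ∑ l, a l + N = n := by omega
  have hb0 : ∀ l, (∀ i, tauT T i ≠ l) → b l = 0 := by
    intro l
    refine Fin.addCases (fun l => ?_) (fun j => ?_) l
    · intro h
      have hl : l ∉ T := by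
        intro hl
        obtain ⟨i, hi⟩ := exists_tauT T hT hl
        exact h i hi
      simp only [hb]
      rw [padL_left, cnt, Finset.card_eq_zero, Finset.filter_eq_empty_iff]
      intro i _
      rcases hrect l hl i with h1 | h1 <;> omega
    · intro _
      simp only [hb]
      rw [padL_right]
      exact cnt_zero hκ
  set r : Fin 4 → ℕ := fun i => b (tauT T i) + κ with hr
  have hr2 : ∑ i, r i = 2 * N := by
    have h1 : ∑ i, b (tauT T i) = ∑ l, b l :=
      Fintype.sum_of_injective (tauT T) (tauT_inj T) _ _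
        (fun l hl => hb0 l fun i hi => hl ⟨i, hi⟩) (fun _ => rfl)
    simp only [hr]
    rw [Finset.sum_add_distrib, h1]
    simp only [Finset.sum_const, Finset.card_univ, Fintype.card_fin, smul_eq_mul]
    omega
  have hP : Prob k n (m + 4) κ N (padL lam) a b (tauT T) r :=
    ⟨hk, hκ, hn, fun l => (hshape l).2, fun l => (hshape l).1, hb0, tauT_inj T, hNn,
      fun i => rfl⟩
  have hmain := pad_statement hn hκ hk hm (statement_main hP hr2)
  refine ⟨(Dm N r).choose κ, hmain, ?_, ?_⟩
  · intro h3
    have h4 : r 3 = κ := by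
      have h5 : tauT T 3 = Fin.natAdd m 3 := by
        have h6 : ¬ ((3 : Fin 4) : ℕ) < T.card := by
          have : ((3 : Fin 4) : ℕ) = 3 := rfl
          omega
        rw [tauT, dif_neg h6]
      simp only [hr, hb]
      rw [h5, padL_right, cnt_zero hκ, zero_add]
    have h5 : Dm N r ≤ κ := by
      have : Dm N r ≤ min (r 3) (N - r 3) := Finset.inf'_le _ (Finset.mem_univ 3)
      rw [h4] at this
      exact this.trans (min_le_left _ _)
    rcases h5.lt_or_eq with h6 | h6
    · rw [Nat.choose_eq_zero_of_lt h6]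
      omega
    · rw [h6, Nat.choose_self]
  · intro h4 D hD
    have hNm : N = n - ∑ l', cnt (2 * κ) (lam l') := by
      rw [hN]
      congr 1
      simp only [ha]
      rw [Fin.sum_univ_add]
      simp only [padL_left, padL_right, cnt_zero (k := k) (show 1 ≤ 2 * κ by omega),
        Finset.sum_const_zero, add_zero]
    rw [← hNm] at hD
    have hmem : ∀ i, ∃ l ∈ T, r i = κ + cnt κ (lam l) := by
      intro i
      refine ⟨T.orderEmbOfFin rfl ⟨i, by omega⟩, Finset.orderEmbOfFin_mem _ _ _, ?_⟩
      simp only [hr, hb]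
      rw [tauT, dif_pos (by omega), padL_left, add_comm]
    congr 1
    apply le_antisymm
    · obtain ⟨l, hl, hD'⟩ := hD.1
      obtain ⟨i, hi⟩ := exists_tauT T hT hl
      have h6 : r i = κ + cnt κ (lam l) := by
        simp only [hr, hb]
        rw [hi, padL_left, add_comm]
      have h7 : Dm N r ≤ min (r i) (N - r i) := Finset.inf'_le _ (Finset.mem_univ i)
      rw [h6] at h7
      rcases hD' with h8 | h8
      · rw [h8]
        exact h7.trans (min_le_left _ _)
      · rw [h8]
        exact h7.trans (min_le_right _ _)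
    · obtain ⟨i, -, hi⟩ := Finset.exists_mem_eq_inf' (Finset.univ_nonempty (α := Fin 4))
        (fun i : Fin 4 => min (r i) (N - r i))
      obtain ⟨l, hl, hl'⟩ := hmem i
      have h6 : Dm N r = min (r i) (N - r i) := hi
      rw [h6]
      rcases min_choice (r i) (N - r i) with h7 | h7
      · rw [h7]
        exact hD.2 ⟨l, hl, Or.inl hl'⟩
      · rw [h7]
        exact hD.2 ⟨l, hl, Or.inr (by rw [hl'])⟩

end

end

end Pool.CSCB
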