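import Pool.Agent.CSCB.GenMat

/-! General flags. -/

namespace Pool.CSCB

open Module Matrix Polynomial Pool.CSC

noncomputable section

/-! ### the explicit polynomial -/

lemma prodPoly_facts {m : ℕ} (c : ℂ) (hc : c ≠ 0) (z : Fin m → ℂ) (hz : Function.Injective z)
    (hz0 : ∀ i, z i ≠ 0) :
    (C c * ∏ i, (X - C (z i))).coeff 0 ≠ 0 ∧ (C c * ∏ i, (X - C (z i))).coeff m ≠ 0 ∧
      (m ≠ 0 → resultant (C c * ∏ i, (X - C (z i))) (derivative (C c * ∏ i, (X - C (z i))))
        m (m - 1) ≠ 0) := by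
  set G := C c * ∏ i, (X - C (z i)) with hG
  have hmon : (∏ i, (X - C (z i))).Monic := monic_prod_of_monic _ _ fun i _ => monic_X_sub_C _
  have hnd : (∏ i, (X - C (z i))).natDegree = m := by
    rw [natDegree_finsetProd_X_sub_C_eq_card, Finset.card_univ, Fintype.card_fin]
  have hGd : G.natDegree = m := by
    rw [hG, natDegree_C_mul hc, hnd]
  have hG0 : G ≠ 0 := by
    rw [hG]
    exact mul_ne_zero (C_ne_zero.2 hc) hmon.ne_zero
  refine ⟨?_, ?_, ?_⟩
  · rw [coeff_zero_eq_eval_zero, hG, eval_mul, eval_C, eval_prod]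
    refine mul_ne_zero hc (Finset.prod_ne_zero_iff.2 fun i _ => ?_)
    rw [eval_sub, eval_X, eval_C, zero_sub]
    exact neg_ne_zero.2 (hz0 i)
  · rw [← hGd]
    exact leadingCoeff_ne_zero.2 hG0
  · intro hm
    have hsep : G.Separable := by
      rw [hG]
      have h1 : (∏ i, (X - C (z i))).Separable := separable_prod_X_sub_C_iff.2 hz
      exact Separable.unit_mul (isUnit_C.2 (isUnit_iff_ne_zero.2 hc)) h1
    have h1 := resultant_ne_zero G (derivative G) hsep
    have h2 : (derivative G).natDegree = m - 1 := by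
      apply natDegree_eq_of_le_of_coeff_ne_zero ((natDegree_derivative_le G).trans (by omega))
      rw [coeff_derivative]
      have h3 : m - 1 + 1 = G.natDegree := by omega
      rw [h3]
      refine mul_ne_zero (leadingCoeff_ne_zero.2 hG0) ?_
      exact_mod_cast Nat.succ_ne_zero (m - 1)
    rwa [hGd, h2] at h1

/-- the polynomial of a strictly totally positive matrix -/
lemma gp_stp {N h δ p q : ℕ} (A : ℕ → ℕ → ℝ) {c : ℝ} {z : Fin (min h q) → ℝ}
    (hdet : ∀ x : ℝ, (Gz h δ p (Matrix.of fun i j : Fin N => A i j) x).det = c * ∏ i, (x - z i)) :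
    gp h δ p (Mc N A) = C (c : ℂ) * ∏ i, (X - C ((z i : ℝ) : ℂ)) := by
  apply eq_of_infinite_eval_eq
  refine Set.Infinite.mono (s := Set.range (fun x : ℝ => (x : ℂ))) ?_ ?_
  · rintro _ ⟨x, rfl⟩
    simp only [Set.mem_ofPred_eq]
    rw [gp_eval, Gz_Mc, det_map_ofReal, hdet, eval_mul, eval_C, eval_prod]
    push_cast
    congr 1
    refine Finset.prod_congr rfl fun i _ => ?_
    rw [eval_sub, eval_X, eval_C]
  · exact Set.infinite_range_of_injective Complex.ofReal_injective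

lemma gp_smul {S : Type*} [CommRing S] {N : ℕ} (h δ p : ℕ) (M : Matrix (Fin N) (Fin N) S) (t : S) :
    gp h δ p (t • M) = C (t ^ N) * gp h δ p M := by
  rw [gp, gp]
  have h1 : Gz h δ p ((t • M).map (C : S → S[X])) X =
      (C t) • Gz h δ p (M.map (C : S → S[X])) X := by
    ext1 i j
    simp only [Gz, Matrix.of_apply, Matrix.map_apply, Matrix.smul_apply, smul_eq_mul, C_mul]
    ring
  rw [h1, Matrix.det_smul, Fintype.card_fin, C_pow]

section

variable {k n m κ N : ℕ} {lam : Fin m → Fin k → ℕ} {a b : Fin m → ℕ} {τ : Fin 4 → Fin m}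
  {r : Fin 4 → ℕ} {π : Equiv.Perm (Fin 4)} {e : Fin n ≃ ((l : Fin m) × Fin (a l)) ⊕ Fin N}

lemma flagOf_eq {n m : ℕ} (A : Fin m → Matrix (Fin n) (Fin n) ℂ) (l : Fin m) {j : ℕ}
    (hj : j ≤ n) : flagOf n (A l) j = Submodule.span ℂ {v | ∃ i < j, v = rowv A l i} := by
  rw [flagOf]
  congr 1
  ext v
  constructor
  · rintro ⟨i, hi, rfl⟩
    refine ⟨i, hi, ?_⟩
    funext y
    rw [rowv, dif_pos i.2]
  · rintro ⟨i, hi, rfl⟩
    refine ⟨⟨i, by omega⟩, hi, ?_⟩
    funext y
    rw [rowv, dif_pos (by omega)]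

lemma flagOf_add {n m : ℕ} (A : Fin m → Matrix (Fin n) (Fin n) ℂ) (l : Fin m) {j s : ℕ}
    (hj : j + s ≤ n) : flagOf n (A l) (j + s) = flagOf n (A l) j ⊔
      Submodule.span ℂ {v | ∃ i < s, v = rowv A l (j + i)} := by
  rw [flagOf_eq A l hj, flagOf_eq A l (by omega), ← Submodule.span_union]
  congr 1
  ext v
  constructor
  · rintro ⟨i, hi, rfl⟩
    rcases lt_or_ge i j with h | h
    · exact Or.inl ⟨i, h, rfl⟩
    · refine Or.inr ⟨i - j, by omega, ?_⟩
      congr 1
      omega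
  · rintro (⟨i, hi, rfl⟩ | ⟨i, hi, rfl⟩)
    · exact ⟨i, by omega, rfl⟩
    · exact ⟨j + i, by omega, rfl⟩

lemma a_add_le (hN : ∑ l, a l + N = n) (l : Fin m) : a l + N ≤ n := by
  have := Finset.single_le_sum (fun l _ => Nat.zero_le (a l)) (Finset.mem_univ l)
  omega

/-- the configuration of a tuple of matrices -/
lemma cfg_of_rows (hN : ∑ l, a l + N = n) (hr2 : ∑ i, r i = 2 * N) (hrN : ∀ i, r i ≤ N)
    (h01 : N ≤ r (π 0) + r (π 1)) (A : Fin m → Matrix (Fin n) (Fin n) ℂ)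
    (hB : (Bm a τ r π e A).det ≠ 0) :
    Cfg (N - r (π 0)) (r (π 0) + r (π 1) - N) (r (π 2)) (Es a (fun l => flagOf n (A l)))
      (Us a τ r (fun l => flagOf n (A l)) (π 0)) (Us a τ r (fun l => flagOf n (A l)) (π 1))
      (Us a τ r (fun l => flagOf n (A l)) (π 2)) (Us a τ r (fun l => flagOf n (A l)) (π 3))
      (bsv N ((Bm a τ r π e A).det⁻¹) (zv a τ r π A)) (fun j : Fin N => zv a τ r π A (N + j))
      (Mh a τ r π e A) := by
  set Δ := (Bm a τ r π e A).det with hΔ
  set z := zv a τ r π A with hz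
  set E := Es a (fun l => flagOf n (A l)) with hE
  have hsum := sum_fin4 r π hr2
  have h0 := hrN (π 0)
  have h1 := hrN (π 1)
  have hal := fun l => a_add_le hN l
  have hle : ∀ l, flagOf n (A l) (a l) ≤ E := fun l => le_iSup (fun l => flagOf n (A l) (a l)) l
  have hrow : ∀ l, ∀ i < a l, rowv A l i ∈ E := by
    intro l i hi
    apply hle l
    rw [flagOf_eq A l (by have := hal l; omega)]
    exact Submodule.subset_span ⟨i, hi, rfl⟩
  have htop : E ⊔ Submodule.span ℂ {v | ∃ j < N, v = z j} = ⊤ := by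
    refine span_rows _ hB _ fun x => ?_
    obtain ⟨q, rfl⟩ := e.symm.surjective x
    rcases q with q | j
    · rw [Bm_inl]
      exact Submodule.mem_sup_left (hrow _ _ q.2.2)
    · rw [Bm_inr]
      exact Submodule.mem_sup_right (Submodule.subset_span ⟨j, j.2, rfl⟩)
  have hfin : finrank ℂ ↥E + N ≤ n := by
    have h2 : E ≤ Submodule.span ℂ
        (Set.range fun q : (l : Fin m) × Fin (a l) => rowv A q.1 q.2) := by
      refine iSup_le fun l => ?_
      change flagOf n (A l) (a l) ≤ _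
      rw [flagOf_eq A l (by have := hal l; omega), Submodule.span_le]
      rintro _ ⟨i, hi, rfl⟩
      exact Submodule.subset_span ⟨⟨l, ⟨i, hi⟩⟩, rfl⟩
    have h3 := Submodule.finrank_mono h2
    have h4 := finrank_range_le_card (R := ℂ)
      (fun q : (l : Fin m) × Fin (a l) => rowv A q.1 q.2)
    rw [Set.finrank, Fintype.card_sigma] at h4
    simp only [Fintype.card_fin] at h4
    omega
  have hind := TPR.indep_of_span (finrank_V n) hfin htop
  have hrel : ∀ j < N, z (N + j) - ∑ i ∈ Finset.range N,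
      (fun j i => Δ⁻¹ * Ch a τ r π e A j i) j i • z i ∈ E := by
    intro j hj
    have h2 := cramer a τ r π e A j
    rw [← hΔ, ← hz] at h2
    have h3 : z (N + j) - ∑ i ∈ Finset.range N, (Δ⁻¹ * Ch a τ r π e A j i) • z i =
        Δ⁻¹ • ∑ l, ∑ i : Fin (a l), (zv a τ r π A (N + j) ᵥ* (Bm a τ r π e A).adjugate)
        (e.symm (Sum.inl ⟨l, i⟩)) • rowv A l i := by
      have h4 : z (N + j) = Δ⁻¹ • Δ • z (N + j) := by
        rw [smul_smul, inv_mul_cancel₀ hB, one_smul]
      nth_rewrite 1 [h4]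
      rw [h2, smul_add, Finset.smul_sum (s := Finset.range N)]
      simp only [smul_smul]
      abel
    rw [h3]
    refine Submodule.smul_mem _ _ (Submodule.sum_mem _ fun l _ => Submodule.sum_mem _
      fun i _ => Submodule.smul_mem _ _ (hrow l i i.2))
  have hblk : ∀ (i : Fin 4) (o : ℕ), (∀ j < r i, z (o + j) = rowv A (τ i) (a (τ i) + j)) →
      Us a τ r (fun l => flagOf n (A l)) i ⊔ E =
        Submodule.span ℂ {v | ∃ j < r i, v = z (o + j)} ⊔ E := by
    intro i o h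
    refine block_sup (y := fun j => rowv A (τ i) (a (τ i) + j)) ?_ (hle (τ i)) h
    have := hal (τ i)
    have := hrN i
    exact flagOf_add A (τ i) (by omega)
  have hU0 := hblk (π 0) 0 (fun j hj => by
    rw [hz, zv, TPR.cat4, zero_add, if_pos hj])
  have hU1 := hblk (π 1) (r (π 0)) (fun j hj => by
    rw [hz, zv, TPR.cat4, if_neg (by omega), if_pos (by omega), Nat.add_sub_cancel_left])
  have hU2 := hblk (π 2) (r (π 0) + r (π 1)) (fun j hj => by
    rw [hz, zv, TPR.cat4, if_neg (by omega), if_neg (by omega), if_pos (by omega),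
      Nat.add_sub_cancel_left])
  have hU3 := hblk (π 3) (r (π 0) + r (π 1) + r (π 2)) (fun j hj => by
    rw [hz, zv, TPR.cat4, if_neg (by omega), if_neg (by omega), if_neg (by omega),
      Nat.add_sub_cancel_left])
  have hcfg := cfg_of_vectors (t := Δ⁻¹) (inv_ne_zero hB) hsum h0 h01 h1
    (by simpa only [zero_add] using hU0) hU1 hU2 hU3 htop hind hrel
  have hM : Mv N Δ⁻¹ (fun j i => Δ⁻¹ * Ch a τ r π e A j i) = Mh a τ r π e A := by
    ext i j
    rw [Mv, Mh, Matrix.of_apply, Matrix.of_apply, inv_inv]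
    have hB' : Δ ≠ 0 := hB
    field_simp
  rw [hM] at hcfg
  exact hcfg

/-- the number of solutions for general flags -/
theorem generic_count (hP : Prob k n m κ N lam a b τ r) (hr2 : ∑ i, r i = 2 * N)
    (hrN : ∀ i, r i ≤ N) (h01 : N ≤ r (π 0) + r (π 1)) (h02 : N ≤ r (π 0) + r (π 2))
    (A : Fin m → Matrix (Fin n) (Fin n) ℂ) (hA : ∀ l, (A l).det ≠ 0)
    (hh : N - r (π 0) ≤ N) (hd : r (π 0) + r (π 1) - N + (N - r (π 0)) ≤ N)
    (hPe : Pe a τ r π e (N - r (π 0)) (r (π 0) + r (π 1) - N) (r (π 2)) (r (π 3)) hh hd A ≠ 0) :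
    (⋂ l, schub k n (lam l) (flagOf n (A l))).encard =
      ((min (N - r (π 0)) (r (π 3))).choose κ : ℕ) := by
  have hsum := sum_fin4 r π hr2
  rw [Pe] at hPe
  have e1 := right_ne_zero_of_mul hPe
  have e2 := right_ne_zero_of_mul (left_ne_zero_of_mul hPe)
  have e3 := right_ne_zero_of_mul (left_ne_zero_of_mul (left_ne_zero_of_mul hPe))
  have e4 := right_ne_zero_of_mul (left_ne_zero_of_mul (left_ne_zero_of_mul
    (left_ne_zero_of_mul hPe)))
  have e5 := right_ne_zero_of_mul (left_ne_zero_of_mul (left_ne_zero_of_mul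
    (left_ne_zero_of_mul (left_ne_zero_of_mul hPe))))
  have e6 := left_ne_zero_of_mul (left_ne_zero_of_mul (left_ne_zero_of_mul
    (left_ne_zero_of_mul (left_ne_zero_of_mul hPe))))
  have hcfg := cfg_of_rows (e := e) hP.hN hr2 hrN h01 A e6
  have h0 := hrN (π 0)
  obtain ⟨z, v, hMD⟩ := mdata_of_gp (N := N) (h := N - r (π 0)) (δ := r (π 0) + r (π 1) - N)
    (p := r (π 2)) (q := r (π 3)) (by omega) (by omega) hd _ e5 e4 e3 e2 (fun h => by
      rwa [if_neg h] at e1)
  obtain ⟨w, u, hFns⟩ := hcfg.exists_fns v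
  have hR := dual_main hcfg hMD hFns κ
  exact inter_encard hP (fun l => isFlag_flagOf _ (hA l)) π hR

/-- a tuple of matrices with given rows -/
def exA (n : ℕ) (a : Fin m → ℕ) (τ : Fin 4 → Fin m) (b' : Fin m → ℕ → Fin n → ℂ)
    (y : Fin 4 → ℕ → Fin n → ℂ) (l : Fin m) : Matrix (Fin n) (Fin n) ℂ :=
  Matrix.of fun i x => if (i : ℕ) < a l then b' l i x
    else ∑ s : Fin 4, if τ s = l then y s ((i : ℕ) - a l) x else 0

lemma rowv_exA_b {b' : Fin m → ℕ → Fin n → ℂ} {y : Fin 4 → ℕ → Fin n → ℂ}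
    (hN : ∑ l, a l + N = n) (l : Fin m) {i : ℕ} (hi : i < a l) :
    rowv (exA n a τ b' y) l i = b' l i := by
  have := a_add_le hN l
  funext x
  rw [rowv, dif_pos (by omega), exA, Matrix.of_apply, if_pos hi]

lemma rowv_exA_y (hτ : Function.Injective τ) {b' : Fin m → ℕ → Fin n → ℂ}
    {y : Fin 4 → ℕ → Fin n → ℂ} (hN : ∑ l, a l + N = n) (hrN : ∀ i, r i ≤ N) (s : Fin 4)
    {j : ℕ} (hj : j < r s) : rowv (exA n a τ b' y) (τ s) (a (τ s) + j) = y s j := by
  have h1 := a_add_le hN (τ s)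
  have h2 := hrN s
  funext x
  rw [rowv, dif_pos (by omega), exA, Matrix.of_apply, if_neg (by
    simp only
    omega), Finset.sum_eq_single s]
  · rw [if_pos rfl]
    simp only
    rw [Nat.add_sub_cancel_left]
  · intro s' _ hs'
    rw [if_neg fun h => hs' (hτ h)]
  · intro h
    exact absurd (Finset.mem_univ s) h

/-- the product of all conditions is not zero for one example -/
theorem example_ne (hτ : Function.Injective τ) (hN : ∑ l, a l + N = n)
    (hr2 : ∑ i, r i = 2 * N) (hrN : ∀ i, r i ≤ N) (h01 : N ≤ r (π 0) + r (π 1))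
    (h02 : N ≤ r (π 0) + r (π 2)) {b' : Fin m → ℕ → Fin n → ℂ}
    {y : Fin 4 → ℕ → Fin n → ℂ} {C₀ : ℕ → ℕ → ℝ} {E : Submodule ℂ (Fin n → ℂ)}
    (hE : E = ⨆ l, Submodule.span ℂ {v | ∃ i < a l, v = b' l i})
    (htop : E ⊔ Submodule.span ℂ {v | ∃ j < N, v = TPR.cat4 y r π j} = ⊤)
    (hrel : ∀ j < N, TPR.cat4 y r π (N + j) -
      ∑ i ∈ Finset.range N, (C₀ j i : ℂ) • TPR.cat4 y r π i ∈ E)
    (hstp : TPR.STP N (fun a b => (-1) ^ a * C₀ b (N - 1 - a)))
    (hind : ∀ c : ℕ → ℂ, ∑ i ∈ Finset.range N, c i • TPR.cat4 y r π i ∈ E → ∀ i < N, c i = 0)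
    (hh : N - r (π 0) ≤ N) (hd : r (π 0) + r (π 1) - N + (N - r (π 0)) ≤ N) :
    Pe a τ r π e (N - r (π 0)) (r (π 0) + r (π 1) - N) (r (π 2)) (r (π 3)) hh hd
      (exA n a τ b' y) ≠ 0 := by
  set A := exA n a τ b' y with hA
  have hsum := sum_fin4 r π hr2
  have h0 := hrN (π 0)
  set Δ := (Bm a τ r π e A).det with hΔ
  have hz : ∀ x < 2 * N, zv a τ r π A x = TPR.cat4 y r π x := by
    intro x hx
    rw [zv, TPR.cat4, TPR.cat4]
    split_ifs with g1 g2 g3
    · exact rowv_exA_y hτ hN hrN _ g1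
    · exact rowv_exA_y hτ hN hrN _ (by omega)
    · exact rowv_exA_y hτ hN hrN _ (by omega)
    · exact rowv_exA_y hτ hN hrN _ (by omega)
  have hrowE : ∀ l, ∀ i < a l, rowv A l i ∈ E := by
    intro l i hi
    rw [rowv_exA_b hN l hi, hE]
    exact Submodule.mem_iSup_of_mem l (Submodule.subset_span ⟨i, hi, rfl⟩)
  -- the basis matrix is invertible
  have hΔ0 : Δ ≠ 0 := by
    intro h1
    obtain ⟨v, hv, hv'⟩ := Matrix.exists_mulVec_eq_zero_iff.2 h1
    apply hv
    let L : (Fin n → ℂ) →ₗ[ℂ] ℂ :=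
      { toFun := fun x => x ⬝ᵥ v
        map_add' := fun x y => add_dotProduct x y v
        map_smul' := fun c x => smul_dotProduct c x v }
    have hrows : ∀ x, L (Bm a τ r π e A x) = 0 := fun x => congrFun hv' x
    have hle : (⊤ : Submodule ℂ (Fin n → ℂ)) ≤ LinearMap.ker L := by
      rw [← htop]
      apply sup_le
      · rw [hE]
        refine iSup_le fun l => ?_
        rw [Submodule.span_le]
        rintro _ ⟨i, hi, rfl⟩
        have h2 := hrows (e.symm (Sum.inl ⟨l, ⟨i, hi⟩⟩))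
        rw [Bm_inl] at h2
        simp only at h2
        rw [rowv_exA_b hN l hi] at h2
        exact h2
      · rw [Submodule.span_le]
        rintro _ ⟨j, hj, rfl⟩
        have h2 := hrows (e.symm (Sum.inr ⟨j, hj⟩))
        rw [Bm_inr] at h2
        simp only at h2
        rw [hz j (by omega)] at h2
        exact h2
    funext i
    have h3 := hle (Submodule.mem_top (x := (Pi.single i 1 : Fin n → ℂ)))
    rw [LinearMap.mem_ker] at h3
    change (Pi.single i 1 : Fin n → ℂ) ⬝ᵥ v = 0 at h3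
    rwa [single_one_dotProduct] at h3
  -- the coefficients
  have hCh : ∀ j < N, ∀ i < N, Ch a τ r π e A j i = Δ * (C₀ j i : ℂ) := by
    intro j hj
    have h1 := cramer a τ r π e A j
    rw [← hΔ] at h1
    have h2 : ∑ i ∈ Finset.range N, (Ch a τ r π e A j i - Δ * (C₀ j i : ℂ)) •
        TPR.cat4 y r π i ∈ E := by
      have h3 : ∑ i ∈ Finset.range N, (Ch a τ r π e A j i - Δ * (C₀ j i : ℂ)) •
          TPR.cat4 y r π i = Δ • (TPR.cat4 y r π (N + j) -
          ∑ i ∈ Finset.range N, (C₀ j i : ℂ) • TPR.cat4 y r π i) -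
          ∑ l, ∑ i : Fin (a l), (zv a τ r π A (N + j) ᵥ* (Bm a τ r π e A).adjugate)
            (e.symm (Sum.inl ⟨l, i⟩)) • rowv A l i := by
        rw [smul_sub, Finset.smul_sum, ← hz (N + j) (by omega), h1]
        have h4 : ∑ i ∈ Finset.range N, Ch a τ r π e A j i • zv a τ r π A i =
            ∑ i ∈ Finset.range N, Ch a τ r π e A j i • TPR.cat4 y r π i :=
          Finset.sum_congr rfl fun i hi => by
            rw [Finset.mem_range] at hi
            rw [hz i (by omega)]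
        rw [h4]
        simp only [sub_smul, Finset.sum_sub_distrib, smul_smul]
        abel
      rw [h3]
      refine Submodule.sub_mem _ (Submodule.smul_mem _ _ (hrel j hj)) ?_
      exact Submodule.sum_mem _ fun l _ => Submodule.sum_mem _ fun i _ =>
        Submodule.smul_mem _ _ (hrowE l i i.2)
    intro i hi
    exact sub_eq_zero.1 (hind _ h2 i hi)
  have hMh : Mh a τ r π e A = Δ • Mc N (fun a b => (-1) ^ a * C₀ b (N - 1 - a)) := by
    ext1 i j
    rw [Mh, Matrix.of_apply, hCh j j.2 _ (by omega), Matrix.smul_apply, Mc, Matrix.map_apply,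
      Matrix.of_apply, smul_eq_mul]
    push_cast
    ring
  obtain ⟨z, v, c, hMD, hc, hdet⟩ := mdata_stp (N := N) (h := N - r (π 0))
    (δ := r (π 0) + r (π 1) - N) (p := r (π 2)) (q := r (π 3)) (by omega) (by omega) hd
    _ hstp
  have hgp := gp_stp (N := N) (fun a b => (-1) ^ a * C₀ b (N - 1 - a)) hdet
  have hgp' : gp (N - r (π 0)) (r (π 0) + r (π 1) - N) (r (π 2)) (Mh a τ r π e A) =
      C (Δ ^ N * (c : ℂ)) * ∏ i, (X - C ((z i : ℝ) : ℂ)) := by
    rw [hMh, gp_smul, hgp, C_mul, mul_assoc]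
  have hΔN : Δ ^ N ≠ 0 := pow_ne_zero _ hΔ0
  obtain ⟨f1, f2, f3⟩ := prodPoly_facts (Δ ^ N * (c : ℂ))
    (mul_ne_zero hΔN (Complex.ofReal_ne_zero.2 hc)) (fun i => ((z i : ℝ) : ℂ))
    hMD.zinj hMD.z0
  rw [Pe, hgp']
  refine mul_ne_zero (mul_ne_zero (mul_ne_zero (mul_ne_zero (mul_ne_zero hΔ0 ?_) ?_) f1) f2) ?_
  · rw [hMh, Matrix.det_smul]
    exact mul_ne_zero (pow_ne_zero _ hΔ0) hMD.det
  · have h1 : ((Mh a τ r π e A).submatrix
        (fun i : Fin (N - r (π 0)) => (⟨i, by omega⟩ : Fin N))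
        (fun j : Fin (N - r (π 0)) => (⟨r (π 0) + r (π 1) - N + j, by omega⟩ : Fin N))) =
        Δ • (Matrix.of fun i j : Fin (N - r (π 0)) =>
          (fun a b => (-1) ^ a * C₀ b (N - 1 - a)) (i : ℕ)
            (r (π 0) + r (π 1) - N + (j : ℕ))).map (fun x : ℝ => (x : ℂ)) := by
      rw [hMh]
      rfl
    rw [h1, Matrix.det_smul]
    refine mul_ne_zero (pow_ne_zero _ hΔ0) ?_
    rw [det_map_ofReal, Complex.ofReal_ne_zero]
    have h2 := hstp (N - r (π 0)) (fun i => i) (fun j => r (π 0) + r (π 1) - N + j)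
      (fun i j hij _ => hij) (fun i j hij _ => by omega) (fun i hi => by omega)
      (fun i hi => by omega)
    exact h2.ne'
  · split_ifs with h1
    · exact one_ne_zero
    · exact f3 h1

end

end

end Pool.CSCB
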