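import Pool.Agent.CSCB.GenPoly
import Pool.Agent.CSCB.Cos
import Pool.Agent.Helper53.CSC.Gener

/-! The matrix of a tuple of flags, with polynomial entries. -/

namespace Pool.CSCB

open Module Matrix Polynomial Pool.CSC

noncomputable section

section

variable {S S' : Type*} [CommRing S] [CommRing S'] {m n : ℕ}

/-- the rows of a matrix, as a sequence -/
def rowv (A : Fin m → Matrix (Fin n) (Fin n) S) (l : Fin m) (i : ℕ) : Fin n → S :=
  fun y => if h : i < n then A l ⟨i, h⟩ y else 0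

/-- the vectors of the four blocks -/
def zv (a : Fin m → ℕ) (τ : Fin 4 → Fin m) (r : Fin 4 → ℕ) (π : Equiv.Perm (Fin 4))
    (A : Fin m → Matrix (Fin n) (Fin n) S) (x : ℕ) : Fin n → S :=
  TPR.cat4 (fun i j => rowv A (τ i) (a (τ i) + j)) r π x

variable (a : Fin m → ℕ) (τ : Fin 4 → Fin m) (r : Fin 4 → ℕ) (π : Equiv.Perm (Fin 4)) {N : ℕ}
  (e : Fin n ≃ ((l : Fin m) × Fin (a l)) ⊕ Fin N)

/-- the basis matrix -/
def Bm (A : Fin m → Matrix (Fin n) (Fin n) S) : Matrix (Fin n) (Fin n) S :=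
  Matrix.of fun x => Sum.elim (fun q : (l : Fin m) × Fin (a l) => rowv A q.1 q.2)
    (fun j : Fin N => zv a τ r π A j) (e x)

/-- coefficients, multiplied by the determinant of the basis matrix -/
def Ch (A : Fin m → Matrix (Fin n) (Fin n) S) (j i : ℕ) : S :=
  if h : i < N then (zv a τ r π A (N + j) ᵥ* (Bm a τ r π e A).adjugate) (e.symm (Sum.inr ⟨i, h⟩))
  else 0

/-- the matrix of the configuration -/
def Mh (A : Fin m → Matrix (Fin n) (Fin n) S) : Matrix (Fin N) (Fin N) S :=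
  Matrix.of fun i j => (-1) ^ (i : ℕ) * Ch a τ r π e A j (N - 1 - i)

lemma rowv_map (f : S →+* S') (A : Fin m → Matrix (Fin n) (Fin n) S) (l : Fin m) (i : ℕ)
    (y : Fin n) : rowv (fun l => (A l).map f) l i y = f (rowv A l i y) := by
  rw [rowv, rowv]
  split_ifs
  · rfl
  · rw [map_zero]

lemma zv_map (f : S →+* S') (A : Fin m → Matrix (Fin n) (Fin n) S) (x : ℕ) (y : Fin n) :
    zv a τ r π (fun l => (A l).map f) x y = f (zv a τ r π A x y) := by
  rw [zv, zv, TPR.cat4, TPR.cat4]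
  split_ifs <;> exact rowv_map f A _ _ _

lemma Bm_map (f : S →+* S') (A : Fin m → Matrix (Fin n) (Fin n) S) :
    Bm a τ r π e (fun l => (A l).map f) = (Bm a τ r π e A).map f := by
  ext x y
  rw [Bm, Bm, Matrix.of_apply, Matrix.map_apply, Matrix.of_apply]
  rcases e x with q | j
  · exact rowv_map f A _ _ _
  · exact zv_map a τ r π f A _ _

lemma Ch_map (f : S →+* S') (A : Fin m → Matrix (Fin n) (Fin n) S) (j i : ℕ) :
    Ch a τ r π e (fun l => (A l).map f) j i = f (Ch a τ r π e A j i) := by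
  rw [Ch, Ch]
  split_ifs with h
  · have h1 : (Bm a τ r π e (fun l => (A l).map f)).adjugate =
        ((Bm a τ r π e A).adjugate).map f := by
      rw [Bm_map]
      exact (RingHom.map_adjugate f (Bm a τ r π e A)).symm
    rw [h1]
    simp only [Matrix.vecMul, dotProduct, map_sum, map_mul, Matrix.map_apply]
    refine Finset.sum_congr rfl fun y _ => ?_
    rw [zv_map]
  · rw [map_zero]

lemma Mh_map (f : S →+* S') (A : Fin m → Matrix (Fin n) (Fin n) S) :
    Mh a τ r π e (fun l => (A l).map f) = (Mh a τ r π e A).map f := by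
  ext i j
  simp only [Mh, Matrix.of_apply, Matrix.map_apply, Ch_map, map_mul, map_pow, map_neg, map_one]

lemma Bm_inl (A : Fin m → Matrix (Fin n) (Fin n) S) (q : (l : Fin m) × Fin (a l)) :
    Bm a τ r π e A (e.symm (Sum.inl q)) = rowv A q.1 q.2 := by
  change Sum.elim (fun q : (l : Fin m) × Fin (a l) => rowv A q.1 q.2)
    (fun j : Fin N => zv a τ r π A j) (e (e.symm (Sum.inl q))) = _
  rw [Equiv.apply_symm_apply]
  rfl

lemma Bm_inr (A : Fin m → Matrix (Fin n) (Fin n) S) (j : Fin N) :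
    Bm a τ r π e A (e.symm (Sum.inr j)) = zv a τ r π A j := by
  change Sum.elim (fun q : (l : Fin m) × Fin (a l) => rowv A q.1 q.2)
    (fun j : Fin N => zv a τ r π A j) (e (e.symm (Sum.inr j))) = _
  rw [Equiv.apply_symm_apply]
  rfl

/-- Cramer's rule -/
lemma cramer (A : Fin m → Matrix (Fin n) (Fin n) S) (j : ℕ) :
    (Bm a τ r π e A).det • zv a τ r π A (N + j) =
      ∑ l, ∑ i : Fin (a l), (zv a τ r π A (N + j) ᵥ* (Bm a τ r π e A).adjugate)
        (e.symm (Sum.inl ⟨l, i⟩)) • rowv A l i +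
      ∑ i ∈ Finset.range N, Ch a τ r π e A j i • zv a τ r π A i := by
  set v := zv a τ r π A (N + j) with hv
  set B := Bm a τ r π e A with hB
  have h1 : (v ᵥ* B.adjugate) ᵥ* B = B.det • v := by
    rw [Matrix.vecMul_vecMul, Matrix.adjugate_mul, Matrix.vecMul_smul, Matrix.vecMul_one]
  rw [← h1, Matrix.vecMul_eq_sum, ← Equiv.sum_comp e.symm, Fintype.sum_sum_type,
    Fintype.sum_sigma]
  congr 1
  · refine Finset.sum_congr rfl fun l _ => Finset.sum_congr rfl fun i _ => ?_
    rw [hB, Bm_inl]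
  · rw [← Fin.sum_univ_eq_sum_range (fun i => Ch a τ r π e A j i • zv a τ r π A i)]
    refine Finset.sum_congr rfl fun i _ => ?_
    rw [Ch, dif_pos i.2, hB, Bm_inr]

/-- the product of all conditions -/
def Pe (h δ p q : ℕ) (hh : h ≤ N) (hd : δ + h ≤ N) (A : Fin m → Matrix (Fin n) (Fin n) S) : S :=
  (Bm a τ r π e A).det * (Mh a τ r π e A).det *
    ((Mh a τ r π e A).submatrix (fun i : Fin h => (⟨i, by omega⟩ : Fin N))
      (fun j : Fin h => (⟨δ + j, by omega⟩ : Fin N))).det *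
    (gp h δ p (Mh a τ r π e A)).coeff 0 * (gp h δ p (Mh a τ r π e A)).coeff (min h q) *
    (if min h q = 0 then 1 else resultant (gp h δ p (Mh a τ r π e A))
      (derivative (gp h δ p (Mh a τ r π e A))) (min h q) (min h q - 1))

lemma Pe_map (h δ p q : ℕ) (hh : h ≤ N) (hd : δ + h ≤ N) (f : S →+* S')
    (A : Fin m → Matrix (Fin n) (Fin n) S) :
    Pe a τ r π e h δ p q hh hd (fun l => (A l).map f) = f (Pe a τ r π e h δ p q hh hd A) := by
  rw [Pe, Pe, Mh_map, Bm_map, gp_map]
  simp only [map_mul, coeff_map]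
  have h1 : ∀ {s : ℕ} (M : Matrix (Fin s) (Fin s) S), (M.map f).det = f M.det := fun M =>
    (RingHom.map_det f M).symm
  have h2 : ((Mh a τ r π e A).map f).submatrix (fun i : Fin h => (⟨i, by omega⟩ : Fin N))
      (fun j : Fin h => (⟨δ + j, by omega⟩ : Fin N)) =
      ((Mh a τ r π e A).submatrix (fun i : Fin h => (⟨i, by omega⟩ : Fin N))
      (fun j : Fin h => (⟨δ + j, by omega⟩ : Fin N))).map f := rfl
  rw [h1, h1, h2, h1]
  congr 1
  split_ifs
  · rw [map_one]
  · rw [derivative_map]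
    exact resultant_map_map _ _ _ _ f

end

end

end Pool.CSCB
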