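import Pool.Agent.CSCB.DualMain

/-! The determinant of the pencil as a polynomial. -/

namespace Pool.CSCB

open Module Matrix Polynomial

noncomputable section

section

variable {S S' : Type*} [CommRing S] [CommRing S'] {N : ℕ}

/-- the determinant of the pencil as a polynomial -/
def gp (h δ p : ℕ) (M : Matrix (Fin N) (Fin N) S) : S[X] :=
  (Gz h δ p (M.map (C : S → S[X])) X).det

lemma Gz_map (h δ p : ℕ) (M : Matrix (Fin N) (Fin N) S) (x : S) (f : S →+* S') :
    Gz h δ p (M.map f) (f x) = (Gz h δ p M x).map f := by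
  ext i j
  simp only [Gz, Matrix.of_apply, Matrix.map_apply, map_mul]
  congr 1
  split_ifs <;> simp

lemma gp_map (h δ p : ℕ) (M : Matrix (Fin N) (Fin N) S) (f : S →+* S') :
    gp h δ p (M.map f) = (gp h δ p M).map f := by
  rw [gp, gp, ← Polynomial.coe_mapRingHom, RingHom.map_det]
  congr 1
  have h1 := Gz_map h δ p (M.map (C : S → S[X])) X (Polynomial.mapRingHom f)
  rw [Polynomial.coe_mapRingHom, Polynomial.map_X] at h1
  rw [RingHom.mapMatrix_apply, Polynomial.coe_mapRingHom, ← h1]
  congr 1
  ext i j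
  simp

lemma gp_eval (h δ p : ℕ) (M : Matrix (Fin N) (Fin N) S) (x : S) :
    (gp h δ p M).eval x = (Gz h δ p M x).det := by
  rw [gp, ← Polynomial.coe_evalRingHom, RingHom.map_det]
  congr 1
  have h1 := Gz_map h δ p (M.map (C : S → S[X])) X (Polynomial.evalRingHom x)
  rw [Polynomial.coe_evalRingHom, Polynomial.eval_X] at h1
  rw [RingHom.mapMatrix_apply, Polynomial.coe_evalRingHom, ← h1]
  congr 1
  ext i j
  simp

lemma natDegree_det_le (M : Matrix (Fin N) (Fin N) S[X]) (d : Fin N → ℕ)
    (h : ∀ i j, (M i j).natDegree ≤ d i) : M.det.natDegree ≤ ∑ i, d i := by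
  rw [Matrix.det_apply']
  refine natDegree_sum_le_of_forall_le _ _ fun σ _ => ?_
  refine natDegree_mul_le.trans ?_
  rw [natDegree_intCast, zero_add]
  refine (natDegree_prod_le _ _).trans ?_
  rw [← Equiv.sum_comp σ d]
  exact Finset.sum_le_sum fun i _ => h _ _

lemma natDegree_gp_le_h (h δ p : ℕ) (hh : h ≤ N) (M : Matrix (Fin N) (Fin N) S) :
    (gp h δ p M).natDegree ≤ h := by
  have h1 := natDegree_det_le (Gz h δ p (M.map (C : S → S[X])) X)
    (fun i => if (i : ℕ) < h then 1 else 0) (by
    intro i j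
    simp only [Gz, Matrix.of_apply, Matrix.map_apply]
    refine (natDegree_C_mul_le _ _).trans ?_
    by_cases hi : (i : ℕ) < h
    · rw [if_pos hi, if_pos hi]
      split_ifs
      · simp
      · simp
      · refine (natDegree_sub_le _ _).trans ?_
        simp [natDegree_X_le]
    · rw [if_neg hi, if_neg hi]
      split_ifs <;> simp)
  refine h1.trans ?_
  rw [Fin.sum_univ_eq_sum_range (fun i => if i < h then 1 else 0)]
  rw [← Finset.sum_filter, Finset.sum_const, smul_eq_mul, mul_one]
  refine (Finset.card_le_card (t := Finset.range h) ?_).trans (Finset.card_range h).le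
  intro x hx
  simp only [Finset.mem_filter, Finset.mem_range] at hx ⊢
  exact hx.2

lemma natDegree_gp_le_q (h δ p q : ℕ) (hN : δ + p + q = N) (M : Matrix (Fin N) (Fin N) S) :
    (gp h δ p M).natDegree ≤ q := by
  have h1 := natDegree_det_le (Gz h δ p (M.map (C : S → S[X])) X)ᵀ
    (fun j => if (j : ℕ) < δ + p then 0 else 1) (by
    intro j i
    simp only [Matrix.transpose_apply, Gz, Matrix.of_apply, Matrix.map_apply]
    refine (natDegree_C_mul_le _ _).trans ?_
    by_cases hj : (j : ℕ) < δ + p
    · rw [if_pos hj, if_pos hj, if_pos hj]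
      split_ifs <;> simp
    · have hj' : ¬ (j : ℕ) < δ := by omega
      rw [if_neg hj, if_neg hj, if_neg hj, if_neg hj']
      split_ifs
      · refine (natDegree_sub_le _ _).trans ?_
        simp [natDegree_X_le]
      · simp)
  rw [Matrix.det_transpose] at h1
  refine h1.trans ?_
  rw [Fin.sum_univ_eq_sum_range (fun j => if j < δ + p then 0 else 1), ← hN,
    Finset.sum_range_add]
  have h2 : ∑ x ∈ Finset.range (δ + p), (if x < δ + p then 0 else 1) = 0 :=
    Finset.sum_eq_zero fun x hx => by rw [if_pos (Finset.mem_range.1 hx)]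
  have h3 : ∑ x ∈ Finset.range q, (if δ + p + x < δ + p then 0 else 1) = q := by
    rw [Finset.sum_congr rfl (g := fun _ => 1) fun x _ => by rw [if_neg (by omega)]]
    simp
  rw [h2, h3, zero_add]

end

/-- the data of a complex matrix -/
theorem mdata_of_gp {N h δ p q : ℕ} (hN : δ + p + q = N) (hh : h ≤ p) (hd : δ + h ≤ N)
    (M : Matrix (Fin N) (Fin N) ℂ) (det : M.det ≠ 0)
    (hminor : (M.submatrix (fun i : Fin h => (⟨i, by omega⟩ : Fin N))
      (fun j : Fin h => (⟨δ + j, by omega⟩ : Fin N))).det ≠ 0)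
    (h0 : (gp h δ p M).coeff 0 ≠ 0) (hm : (gp h δ p M).coeff (min h q) ≠ 0)
    (hres : min h q ≠ 0 → resultant (gp h δ p M) (derivative (gp h δ p M)) (min h q)
      (min h q - 1) ≠ 0) :
    ∃ (z : Fin (min h q) → ℂ) (v : Fin (min h q) → Fin N → ℂ),
      MData h δ p q (min h q) M z v := by
  set g := gp h δ p M with hg
  set m := min h q with hmdef
  have hdeg : g.natDegree ≤ m :=
    le_min (natDegree_gp_le_h h δ p (by omega) M) (natDegree_gp_le_q h δ p q hN M)
  have hgm : g.natDegree = m := le_antisymm hdeg (le_natDegree_of_ne_zero hm)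
  have hg0 : g ≠ 0 := by
    rintro h1
    rw [h1, coeff_zero] at hm
    exact hm rfl
  have hroots : ∃ z : Fin m → ℂ, Function.Injective z ∧ ∀ i, g.eval (z i) = 0 := by
    rcases Nat.eq_zero_or_pos m with h1 | h1
    · refine ⟨fun _ => 0, ?_, ?_⟩
      · intro i
        exact absurd i.2 (by omega)
      · intro i
        exact absurd i.2 (by omega)
    · have hr := hres (by omega)
      have hd' : (derivative g).natDegree ≤ m - 1 :=
        (natDegree_derivative_le g).trans (by omega)
      obtain ⟨a, b, -, -, e⟩ := exists_mul_add_mul_eq_C_resultant g (derivative g) hdeg hd'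
        (Or.inl (by omega))
      have hsep : g.Separable := by
        set ρ := resultant g (derivative g) m (m - 1) with hρ
        refine ⟨C ρ⁻¹ * a, C ρ⁻¹ * b, ?_⟩
        calc C ρ⁻¹ * a * g + C ρ⁻¹ * b * derivative g =
            C ρ⁻¹ * (g * a + derivative g * b) := by ring
          _ = 1 := by rw [e, ← C_mul, inv_mul_cancel₀ hr, C_1]
      have hcard : g.roots.toFinset.card = m := by
        rw [Multiset.toFinset_card_of_nodup (nodup_roots hsep), ← hgm]
        exact (IsAlgClosed.splits g).natDegree_eq_card_roots.symm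
      let e' := (Finset.equivFinOfCardEq hcard).symm
      refine ⟨fun i => (e' i : ℂ), ?_, ?_⟩
      · intro i j hij
        exact e'.injective (Subtype.ext hij)
      · intro i
        have h2 := (e' i).2
        rw [Multiset.mem_toFinset, mem_roots hg0] at h2
        exact h2
  obtain ⟨z, hz, hz'⟩ := hroots
  have hker : ∀ i, ∃ v : Fin N → ℂ, v ≠ 0 ∧ v ᵥ* Gz h δ p M (z i) = 0 := by
    intro i
    apply Matrix.exists_vecMul_eq_zero_iff.2
    rw [← gp_eval]
    exact hz' i
  choose v hv hv' using hker
  have hdet0 : (Gz h δ p M 0).det ≠ 0 := by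
    rw [← gp_eval, ← coeff_zero_eq_eval_zero]
    exact h0
  refine ⟨z, v, MData.of_det hN hh hd rfl hdet0 det hminor hz ?_ hv hv'⟩
  intro i hi
  have h1 := hz' i
  rw [hi, ← coeff_zero_eq_eval_zero] at h1
  exact h0 h1

end

end Pool.CSCB
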