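import Pool.Agent.CSCB.Fam

/-! Additional flags without conditions. -/

namespace Pool.CSCB

open Module Matrix Pool.CSC

noncomputable section

/-! ### shapes -/

lemma antitone_card {k : ℕ} {mu : Fin k → ℕ} (ha : Antitone mu) (c : ℕ) (i : Fin k) :
    c ≤ mu i ↔ (i : ℕ) < (Finset.univ.filter fun j => c ≤ mu j).card := by
  classical
  constructor
  · intro h
    have h1 : Finset.univ.filter (fun j : Fin k => j ≤ i) ⊆
        Finset.univ.filter fun j => c ≤ mu j := by
      intro j hj
      simp only [Finset.mem_filter, Finset.mem_univ, true_and] at hj ⊢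
      exact h.trans (ha hj)
    have h2 := Finset.card_le_card h1
    have h3 : (Finset.univ.filter (fun j : Fin k => j ≤ i)).card = i + 1 := by
      have : Finset.univ.filter (fun j : Fin k => j ≤ i) = Finset.Iic i := by
        ext j
        simp
      rw [this, Fin.card_Iic]
    omega
  · intro h
    by_contra h0
    have h1 : (Finset.univ.filter fun j => c ≤ mu j) ⊆
        Finset.univ.filter (fun j : Fin k => j < i) := by
      intro j hj
      simp only [Finset.mem_filter, Finset.mem_univ, true_and] at hj ⊢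
      by_contra h2
      exact h0 (hj.trans (ha (not_lt.1 h2)))
    have h2 := Finset.card_le_card h1
    have h3 : (Finset.univ.filter (fun j : Fin k => j < i)).card = i := by
      have : Finset.univ.filter (fun j : Fin k => j < i) = Finset.Iio i := by
        ext j
        simp
      rw [this, Fin.card_Iio]
    omega

/-- number of parts equal to `c` -/
def cnt {k : ℕ} (c : ℕ) (mu : Fin k → ℕ) : ℕ := (Finset.univ.filter fun i => mu i = c).card

lemma shape_of {k κ : ℕ} (hκ : 1 ≤ κ) {mu : Fin k → ℕ} (ha : Antitone mu)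
    (h : ∀ i, mu i = 0 ∨ mu i = κ ∨ mu i = 2 * κ) :
    cnt (2 * κ) mu + cnt κ mu ≤ k ∧ ∀ i : Fin k, mu i = if (i : ℕ) < cnt (2 * κ) mu then 2 * κ
      else if (i : ℕ) < cnt (2 * κ) mu + cnt κ mu then κ else 0 := by
  classical
  have h1 : (Finset.univ.filter fun j => 2 * κ ≤ mu j).card = cnt (2 * κ) mu := by
    rw [cnt]
    congr 1
    ext j
    simp only [Finset.mem_filter, Finset.mem_univ, true_and]
    rcases h j with h2 | h2 | h2 <;> omega
  have h2 : (Finset.univ.filter fun j => κ ≤ mu j).card = cnt (2 * κ) mu + cnt κ mu := by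
    rw [cnt, cnt, ← Finset.card_union_of_disjoint]
    · congr 1
      ext j
      simp only [Finset.mem_filter, Finset.mem_univ, true_and, Finset.mem_union]
      rcases h j with h2 | h2 | h2 <;> omega
    · rw [Finset.disjoint_left]
      intro j hj hj'
      simp only [Finset.mem_filter, Finset.mem_univ, true_and] at hj hj'
      omega
  constructor
  · rw [← h2]
    exact (Finset.card_le_univ _).trans (by simp)
  · intro i
    have h3 := antitone_card ha (2 * κ) i
    have h4 := antitone_card ha κ i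
    rw [h1] at h3
    rw [h2] at h4
    split_ifs with g1 g2
    · rcases h i with h5 | h5 | h5
      · have := h3.2 g1
        omega
      · have := h3.2 g1
        omega
      · exact h5
    · have := h4.2 g2
      have h6 : ¬ 2 * κ ≤ mu i := fun h => g1 (h3.1 h)
      rcases h i with h5 | h5 | h5 <;> omega
    · have h6 : ¬ κ ≤ mu i := fun h => g2 (h4.1 h)
      rcases h i with h5 | h5 | h5 <;> omega

lemma sum_shape {k κ : ℕ} {mu : Fin k → ℕ} (hκ : 1 ≤ κ)
    (h : ∀ i, mu i = 0 ∨ mu i = κ ∨ mu i = 2 * κ) :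
    ∑ i, mu i = κ * (2 * cnt (2 * κ) mu + cnt κ mu) := by
  classical
  have h1 : ∀ i, mu i = (if mu i = 2 * κ then 2 * κ else 0) + (if mu i = κ then κ else 0) := by
    intro i
    rcases h i with h2 | h2 | h2
    · rw [if_neg (by omega), if_neg (by omega), h2]
    · rw [if_neg (by omega), if_pos h2, h2, zero_add]
    · rw [if_pos h2, if_neg (by omega), h2, add_zero]
  rw [Finset.sum_congr rfl fun i _ => h1 i, Finset.sum_add_distrib, ← Finset.sum_filter,
    ← Finset.sum_filter, Finset.sum_const, Finset.sum_const]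
  simp only [cnt, smul_eq_mul]
  ring

/-! ### the zero partition -/

lemma schub_zero {k n κ : ℕ} (hn : n = k + 2 * κ) (hκ : 1 ≤ κ)
    {F : ℕ → Submodule ℂ (Fin n → ℂ)} (hF : IsFlag n F) :
    schub k n (fun _ => 0) F = {H : Submodule ℂ (Fin n → ℂ) | finrank ℂ ↥H = k} := by
  ext H
  constructor
  · exact fun h => h.1
  · intro hH
    refine ⟨hH, (schub_iff (a := 0) (b := 0) hn hκ (by omega) (fun i => by simp) hF hH).2
      ⟨?_, by omega⟩⟩
    have h0 : F 0 = ⊥ := Submodule.finrank_eq_zero.1 (hF.dim 0 (by omega))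
    rw [h0]
    exact bot_le

lemma tangent_zero {k n : ℕ} (hkn : k ≤ n) {F : ℕ → Submodule ℂ (Fin n → ℂ)} (hF : IsFlag n F)
    {H : Submodule ℂ (Fin n → ℂ)} (hH : finrank ℂ ↥H = k) (φ : ↥H →ₗ[ℂ] (Fin n → ℂ) ⧸ H) :
    TangentTo k n (fun _ => 0) F H φ := by
  intro i hi x _
  have hik := i.2
  have h1 : sidx k n (fun _ => 0) i = n - k + (i + 1) := by
    rw [sidx]
    omega
  rw [h1] at hi ⊢
  have h3 := Submodule.finrank_sup_add_finrank_inf_eq H (F (n - k + (i + 1)))
  rw [hi, hH, hF.dim _ (by omega)] at h3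
  have h4 : H ⊔ F (n - k + (i + 1)) = ⊤ := by
    apply Submodule.eq_top_of_finrank_eq
    rw [finrank_V]
    omega
  have h5 := congrArg (Submodule.map H.mkQ) h4
  rw [Submodule.map_sup, Submodule.mkQ_map_self, bot_sup_eq, Submodule.map_top,
    Submodule.range_mkQ] at h5
  rw [h5]
  exact Submodule.mem_top

/-! ### padding -/

/-- a problem with four zero partitions added -/
def padL {k m : ℕ} (lam : Fin m → Fin k → ℕ) : Fin (m + 4) → Fin k → ℕ :=
  Fin.append lam (fun _ _ => 0)

section

variable {k n m κ : ℕ} {lam : Fin m → Fin k → ℕ}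

lemma pad_inter (hn : n = k + 2 * κ) (hκ : 1 ≤ κ) (hm : 1 ≤ m)
    {F : Fin (m + 4) → ℕ → Submodule ℂ (Fin n → ℂ)} (hF : ∀ l, IsFlag n (F l)) :
    ⋂ l, schub k n (padL lam l) (F l) = ⋂ l : Fin m, schub k n (lam l) (F (Fin.castAdd 4 l)) := by
  ext H
  rw [Set.mem_iInter, Set.mem_iInter]
  constructor
  · intro h l
    have := h (Fin.castAdd 4 l)
    rwa [padL, Fin.append_left] at this
  · intro h l
    refine Fin.addCases (fun l => ?_) (fun j => ?_) l
    · rw [padL, Fin.append_left]
      exact h l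
    · rw [padL, Fin.append_right, schub_zero hn hκ (hF _)]
      exact (h ⟨0, by omega⟩).1

lemma pad_generic (hn : n = k + 2 * κ) (hκ : 1 ≤ κ) (hm : 1 ≤ m) {d : ℕ}
    (h : IsGenericNumber k n (m + 4) (padL lam) d) : IsGenericNumber k n m lam d := by
  obtain ⟨P, hP, hPA⟩ := h
  -- generic extra matrices
  let B : Fin 4 → Matrix (Fin n) (Fin n) (MvPolynomial (Fin (m + 4) × Fin n × Fin n) ℂ) :=
    fun j => Matrix.of fun x y => MvPolynomial.X (Fin.natAdd m j, x, y)
  have hev : ∀ (f : Fin (m + 4) × Fin n × Fin n → ℂ) (j : Fin 4),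
      MvPolynomial.eval f (B j).det =
      (Matrix.of fun x y => f (Fin.natAdd m j, x, y) : Matrix (Fin n) (Fin n) ℂ).det := by
    intro f j
    rw [RingHom.map_det]
    congr 1
    ext x y
    simp [B]
  have hB : ∀ j, (B j).det ≠ 0 := by
    intro j h0
    have h1 := hev (fun p => if p.2.1 = p.2.2 then 1 else 0) j
    rw [h0, map_zero] at h1
    have h2 : (Matrix.of fun x y => (if x = y then 1 else 0) : Matrix (Fin n) (Fin n) ℂ) = 1 := by
      ext x y
      simp [Matrix.one_apply]
    simp only at h1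
    rw [h2, Matrix.det_one] at h1
    exact zero_ne_one h1
  have hQ : P * ∏ j, (B j).det ≠ 0 :=
    mul_ne_zero hP (Finset.prod_ne_zero_iff.2 fun j _ => hB j)
  obtain ⟨f, hf⟩ : ∃ f, MvPolynomial.eval f (P * ∏ j, (B j).det) ≠ 0 := by
    by_contra hc
    push Not at hc
    apply hQ
    apply MvPolynomial.funext
    intro x
    rw [hc x, map_zero]
  rw [map_mul, map_prod] at hf
  have hf1 := left_ne_zero_of_mul hf
  have hf2 := Finset.prod_ne_zero_iff.1 (right_ne_zero_of_mul hf)
  let A₀ : Fin 4 → Matrix (Fin n) (Fin n) ℂ :=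
    fun j => Matrix.of fun x y => f (Fin.natAdd m j, x, y)
  have hA₀ : ∀ j, (A₀ j).det ≠ 0 := fun j => by
    rw [← hev]
    exact hf2 j (Finset.mem_univ j)
  -- specialisation of the extra variables
  let g : Fin (m + 4) × Fin n × Fin n → MvPolynomial (Fin m × Fin n × Fin n) ℂ := fun x =>
    Fin.addCases (motive := fun _ => MvPolynomial (Fin m × Fin n × Fin n) ℂ)
      (fun l => MvPolynomial.X (l, x.2.1, x.2.2))
      (fun j => MvPolynomial.C (A₀ j x.2.1 x.2.2)) x.1
  let P' : MvPolynomial (Fin m × Fin n × Fin n) ℂ := MvPolynomial.aeval g P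
  have hev' : ∀ A : Fin m → Matrix (Fin n) (Fin n) ℂ,
      MvPolynomial.eval (fun x => A x.1 x.2.1 x.2.2) P' =
        MvPolynomial.eval (fun x => Fin.append A A₀ x.1 x.2.1 x.2.2) P := by
    intro A
    have h1 : MvPolynomial.eval (fun x : Fin m × Fin n × Fin n => A x.1 x.2.1 x.2.2) P' =
        ((MvPolynomial.aeval (R := ℂ) (fun x : Fin m × Fin n × Fin n => A x.1 x.2.1 x.2.2)).comp
          (MvPolynomial.aeval g)) P := by
      rw [AlgHom.comp_apply, MvPolynomial.aeval_eq_eval]
    rw [h1, MvPolynomial.comp_aeval, MvPolynomial.aeval_eq_eval]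
    congr 1
    congr 1
    funext x
    obtain ⟨l, x1, x2⟩ := x
    refine Fin.addCases (fun l => ?_) (fun j => ?_) l
    · simp [g]
    · simp [g]
  refine ⟨P', ?_, ?_⟩
  · intro h0
    have h1 := hev' (fun l => Matrix.of fun x y => f (Fin.castAdd 4 l, x, y))
    rw [h0, map_zero] at h1
    apply hf1
    rw [h1]
    congr 1
    congr 1
    funext x
    obtain ⟨l, x1, x2⟩ := x
    refine Fin.addCases (fun l => ?_) (fun j => ?_) l
    · simp
    · simp [A₀]
  · intro A hA hAP
    rw [hev'] at hAP
    have hdet : ∀ l, (Fin.append A A₀ l).det ≠ 0 := by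
      intro l
      refine Fin.addCases (fun l => ?_) (fun j => ?_) l
      · rw [Fin.append_left]
        exact hA l
      · rw [Fin.append_right]
        exact hA₀ j
    have h1 := hPA (Fin.append A A₀) hdet hAP
    rw [pad_inter hn hκ hm (fun l => isFlag_flagOf _ (hdet l))] at h1
    simp only [Fin.append_left] at h1
    exact h1

lemma pad_statement (hn : n = k + 2 * κ) (hκ : 1 ≤ κ) (hk : 1 ≤ k) (hm : 1 ≤ m) {d : ℕ}
    (h : Statement k n (m + 4) (padL lam) d) : Statement k n m lam d := by
  refine ⟨pad_generic hn hκ hm h.1, ?_⟩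
  intro I F hI hd hF
  have hn1 : 1 ≤ n := by omega
  choose hF0 s hsi hsI hFs using hF
  -- bounded intervals
  have hne : Nonempty (Fin (n - 1)) := ⟨⟨0, by omega⟩⟩
  obtain ⟨B, hB⟩ : ∃ B : ℝ, ∀ l i, s l i < B := by
    obtain ⟨B, hB, -⟩ := Order.exists_between_finsets
      ((Finset.univ.biUnion fun l => Finset.univ.image (s l)) : Finset ℝ) ∅ (by simp)
    refine ⟨B, fun l i => hB _ ?_⟩
    simp only [Finset.mem_biUnion, Finset.mem_univ, true_and, Finset.mem_image]
    exact ⟨l, i, rfl⟩
  let I' : Fin (m + 4) → Set ℝ := Fin.append (fun l => I l ∩ Set.Iio B)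
    (fun j : Fin 4 => Set.Ico (B + (j : ℕ) * n) (B + (j : ℕ) * n + n))
  let F' : Fin (m + 4) → ℕ → Submodule ℂ (Fin n → ℂ) := Fin.append F
    (fun j : Fin 4 => cosFlag n (rt n (B + (j : ℕ) * n)))
  have hI' : ∀ l, (I' l).OrdConnected := by
    intro l
    refine Fin.addCases (fun l => ?_) (fun j => ?_) l
    · simp only [I', Fin.append_left]
      exact (hI l).inter Set.ordConnected_Iio
    · simp only [I', Fin.append_right]
      exact Set.ordConnected_Ico
  have hd' : Pairwise (fun l l' => Disjoint (I' l) (I' l')) := by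
    have hnn : (0 : ℝ) ≤ n := Nat.cast_nonneg _
    have key1 : ∀ (l : Fin m) (j : Fin 4), Disjoint (I' (Fin.castAdd 4 l)) (I' (Fin.natAdd m j)) := by
      intro l j
      simp only [I', Fin.append_left, Fin.append_right]
      rw [Set.disjoint_left]
      rintro x ⟨_, h1⟩ ⟨h2, _⟩
      rw [Set.mem_Iio] at h1
      have : (0 : ℝ) ≤ (j : ℕ) * n := by positivity
      linarith
    have key2 : ∀ j j' : Fin 4, (j : ℕ) < j' →
        Disjoint (I' (Fin.natAdd m j)) (I' (Fin.natAdd m j')) := by
      intro j j' h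
      simp only [I', Fin.append_right]
      apply Ico_disj
      have h1 : ((j : ℕ) : ℝ) + 1 ≤ (j' : ℕ) := by exact_mod_cast h
      nlinarith
    intro l l'
    refine Fin.addCases (fun l => ?_) (fun j => ?_) l
    · refine Fin.addCases (fun l' => ?_) (fun j' => ?_) l'
      · intro hne
        simp only [I', Fin.append_left]
        have hne' : l ≠ l' := fun h => hne (by rw [h])
        exact (hd hne').mono Set.inter_subset_left Set.inter_subset_left
      · intro _
        exact key1 l j'
    · refine Fin.addCases (fun l' => ?_) (fun j' => ?_) l'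
      · intro _
        exact (key1 l' j).symm
      · intro hne
        have hne' : (j : ℕ) ≠ j' := fun h => hne (by rw [Fin.ext h])
        rcases lt_or_gt_of_ne hne' with h | h
        · exact key2 j j' h
        · exact (key2 j' j h).symm
  have hF' : ∀ l, Cosecant n (I' l) (F' l) := by
    intro l
    refine Fin.addCases (fun l => ?_) (fun j => ?_) l
    · simp only [I', F', Fin.append_left]
      exact ⟨hF0 l, s l, hsi l, fun i => ⟨hsI l i, hB l i⟩, hFs l⟩
    · simp only [I', F', Fin.append_right]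
      exact cosecant_cosFlag hn1 (rt_inj _ _) fun i => rt_mem _ _ _
  obtain ⟨h1, h2⟩ := h.2 I' F' hI' hd' hF'
  have hfl : ∀ l, IsFlag n (F' l) := fun l => isFlag_cosecant (by omega) (hF' l)
  have hFF : ∀ l : Fin m, F' (Fin.castAdd 4 l) = F l := fun l => by
    simp only [F', Fin.append_left]
  have e : ⋂ l, schub k n (padL lam l) (F' l) = ⋂ l : Fin m, schub k n (lam l) (F l) := by
    rw [pad_inter hn hκ hm hfl]
    simp only [hFF]
  rw [e] at h1 h2
  refine ⟨h1, fun H hH => ⟨(h2 H hH).1, fun φ hφ => (h2 H hH).2 φ ?_⟩⟩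
  have hHk : finrank ℂ ↥H = k := ((Set.mem_iInter.1 hH) ⟨0, by omega⟩).1
  intro l
  have hl' := hfl l
  revert hl'
  refine Fin.addCases (fun l => ?_) (fun j => ?_) l
  · intro _
    rw [hFF, padL, Fin.append_left]
    exact hφ l
  · intro hl'
    rw [padL, Fin.append_right]
    exact tangent_zero (by omega) hl' hHk φ

end

end

end Pool.CSCB
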