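import Pool.Agent.CSCB.DualMain
import Pool.Agent.Helper53.CSC.Flag
import Pool.Agent.Helper53.CSC.Asm

/-! Schubert conditions for partitions with parts `2κ`, `κ`, `0` in terms of the annihilator. -/

namespace Pool.CSCB

open Module Pool.CSC

set_option linter.unusedSectionVars false

noncomputable section

/-- the data of a Schubert problem with at most four partitions with parts `κ` -/
structure Prob (k n m κ N : ℕ) (lam : Fin m → Fin k → ℕ) (a b : Fin m → ℕ) (τ : Fin 4 → Fin m)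
    (r : Fin 4 → ℕ) : Prop where
  hk : 1 ≤ k
  hκ : 1 ≤ κ
  hn : n = k + 2 * κ
  shape : ∀ l, ∀ i : Fin k, lam l i = if (i : ℕ) < a l then 2 * κ
    else if (i : ℕ) < a l + b l then κ else 0
  hab : ∀ l, a l + b l ≤ k
  hb : ∀ l, (∀ i, τ i ≠ l) → b l = 0
  hτ : Function.Injective τ
  hN : ∑ l, a l + N = n
  hr : ∀ i, r i = b (τ i) + κ

section one

variable {k n κ a b : ℕ} {mu : Fin k → ℕ} {F : ℕ → Submodule ℂ (Fin n → ℂ)}
  {H : Submodule ℂ (Fin n → ℂ)}

lemma schub_iff (hn : n = k + 2 * κ) (hκ : 1 ≤ κ) (hab : a + b ≤ k)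
    (hmu : ∀ i : Fin k, mu i = if (i : ℕ) < a then 2 * κ
      else if (i : ℕ) < a + b then κ else 0)
    (hF : IsFlag n F) (hH : finrank ℂ ↥H = k) :
    (∀ i : Fin k, (i : ℕ) + 1 ≤ finrank ℂ ↥(H ⊓ F (sidx k n mu i))) ↔
      F a ≤ H ∧ a + b ≤ finrank ℂ ↥(H ⊓ F (a + b + κ)) := by
  constructor
  · intro h
    have h1 : F a ≤ H := by
      rcases Nat.eq_zero_or_pos a with ha | ha
      · have h0 : F a = ⊥ := by
          rw [ha]
          exact Submodule.finrank_eq_zero.1 (hF.dim 0 (by omega))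
        rw [h0]
        exact bot_le
      · have h2 := h ⟨a - 1, by omega⟩
        have h3 : sidx k n mu ⟨a - 1, by omega⟩ = a := by
          rw [sidx, hmu]
          simp only
          rw [if_pos (by omega)]
          omega
        rw [h3] at h2
        simp only at h2
        have h4 : finrank ℂ ↥(F a) ≤ finrank ℂ ↥(H ⊓ F a) := by
          rw [hF.dim a (by omega)]
          omega
        have h5 := Submodule.eq_of_le_of_finrank_le (inf_le_right : H ⊓ F a ≤ F a) h4
        rw [← h5]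
        exact inf_le_left
    refine ⟨h1, ?_⟩
    rcases Nat.eq_zero_or_pos b with hb | hb
    · have h2 : F a ≤ H ⊓ F (a + b + κ) := le_inf h1 (hF.mono _ _ (by omega) (by omega))
      have h3 := Submodule.finrank_mono h2
      rw [hF.dim a (by omega)] at h3
      omega
    · have h2 := h ⟨a + b - 1, by omega⟩
      have h3 : sidx k n mu ⟨a + b - 1, by omega⟩ = a + b + κ := by
        rw [sidx, hmu]
        simp only
        rw [if_neg (by omega), if_pos (by omega)]
        omega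
      rw [h3] at h2
      simp only at h2
      omega
  · rintro ⟨h1, h2⟩ i
    have hi := i.2
    by_cases hia : (i : ℕ) < a
    · have h3 : sidx k n mu i = i + 1 := by
        rw [sidx, hmu, if_pos hia]
        omega
      have h4 : F (i + 1) ≤ H := (hF.mono _ _ (by omega) (by omega)).trans h1
      rw [h3, inf_eq_right.2 h4, hF.dim _ (by omega)]
    · by_cases hib : (i : ℕ) < a + b
      · have h3 : sidx k n mu i = κ + i + 1 := by
          rw [sidx, hmu, if_neg hia, if_pos hib]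
          omega
        rw [h3]
        have h4 := finrank_inf_ge' (H ⊓ F (a + b + κ)) (F (κ + i + 1)) (F (a + b + κ))
          inf_le_right (hF.mono _ _ (by omega) (by omega))
        rw [hF.dim _ (by omega), hF.dim _ (by omega)] at h4
        have h5 := Submodule.finrank_mono
          (show H ⊓ F (a + b + κ) ⊓ F (κ + i + 1) ≤ H ⊓ F (κ + i + 1) from
            inf_le_inf_right _ inf_le_left)
        omega
      · have h3 : sidx k n mu i = 2 * κ + i + 1 := by
          rw [sidx, hmu, if_neg hia, if_neg hib]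
          omega
        rw [h3]
        have h4 := finrank_inf_ge (finrank_V n) H (F (2 * κ + i + 1))
        rw [hF.dim _ (by omega), hH] at h4
        omega

/-- the dimension of the annihilator of `U + E` in the annihilator of `H` -/
lemma finrank_ann (hn : n = k + 2 * κ) {U E : Submodule ℂ (Fin n → ℂ)} {s : ℕ}
    (hU : finrank ℂ ↥U = s + κ) (hE : E ≤ H) (hH : finrank ℂ ↥H = k) :
    finrank ℂ ↥(H.dualAnnihilator ⊓ (U ⊔ E).dualAnnihilator) + s =
      finrank ℂ ↥(H ⊓ U) + κ := by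
  rw [← Submodule.dualAnnihilator_sup_eq]
  have h1 : H ⊔ (U ⊔ E) = H ⊔ U := by
    rw [sup_comm U E, ← sup_assoc, sup_eq_left.2 hE]
  rw [h1]
  have h2 := Subspace.finrank_add_finrank_dualAnnihilator_eq (H ⊔ U)
  have h3 := Submodule.finrank_sup_add_finrank_inf_eq H U
  have h4 : finrank ℂ (Fin n → ℂ) = n := finrank_V n
  rw [hU, hH] at h3
  rw [h4] at h2
  omega

end one

section tan

variable {K V : Type*} [Field K] [AddCommGroup V] [Module K V] [FiniteDimensional K V]

/-- the dual of a tangent vector -/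
def dualTan (H : Submodule K V) (φ : ↥H →ₗ[K] V ⧸ H) :
    ↥(H.dualAnnihilator) →ₗ[K] Dual K V ⧸ H.dualAnnihilator :=
  H.dualAnnihilator.mkQ ∘ₗ Subspace.dualLift H ∘ₗ φ.dualMap ∘ₗ H.dualCopairing

lemma dualTan_zero {H : Submodule K V} {φ : ↥H →ₗ[K] V ⧸ H} (h : dualTan H φ = 0) : φ = 0 := by
  ext x
  rw [LinearMap.zero_apply]
  obtain ⟨y, hy⟩ := Submodule.mkQ_surjective H (φ x)
  rw [← hy, ← LinearMap.mem_ker, Submodule.ker_mkQ,
    ← Subspace.forall_mem_dualAnnihilator_apply_eq_zero_iff]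
  intro f hf
  have h1 := LinearMap.congr_fun h ⟨f, hf⟩
  rw [LinearMap.zero_apply, dualTan, LinearMap.comp_apply, ← LinearMap.mem_ker,
    Submodule.ker_mkQ, Submodule.mem_dualAnnihilator] at h1
  have h2 := h1 x x.2
  rw [LinearMap.comp_apply, Subspace.dualLift_of_subtype, LinearMap.comp_apply,
    LinearMap.dualMap_apply, ← hy] at h2
  exact h2

lemma dualTan_mem {H : Submodule K V} {φ : ↥H →ₗ[K] V ⧸ H} {X : Submodule K V}
    (f : ↥(H.dualAnnihilator)) (hf : ∀ x (hx : x ∈ H), x ∈ X →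
      H.dualCopairing f (φ ⟨x, hx⟩) = 0) :
    dualTan H φ f ∈ X.dualAnnihilator.map H.dualAnnihilator.mkQ := by
  set g₀ : Dual K V := Subspace.dualLift H (φ.dualMap (H.dualCopairing f)) with hg₀
  have h1 : g₀ ∈ (X ⊓ H).dualAnnihilator := by
    rw [Submodule.mem_dualAnnihilator]
    rintro x ⟨hx, hxH⟩
    rw [hg₀, Subspace.dualLift_of_mem hxH, LinearMap.dualMap_apply]
    exact hf x hxH hx
  rw [Subspace.dualAnnihilator_inf_eq] at h1
  obtain ⟨g, hg, w, hw, e⟩ := Submodule.mem_sup.1 h1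
  refine ⟨g, hg, ?_⟩
  have h2 : H.dualAnnihilator.mkQ w = 0 := by
    rw [← LinearMap.mem_ker, Submodule.ker_mkQ]
    exact hw
  have h3 : dualTan H φ f = H.dualAnnihilator.mkQ g₀ := rfl
  rw [h3, ← e, map_add, h2, add_zero]

end tan

section main

variable {k n m κ N : ℕ} {lam : Fin m → Fin k → ℕ} {a b : Fin m → ℕ} {τ : Fin 4 → Fin m}
  {r : Fin 4 → ℕ} {F : Fin m → ℕ → Submodule ℂ (Fin n → ℂ)}

/-- the sum of the rectangular parts -/
def Es (a : Fin m → ℕ) (F : Fin m → ℕ → Submodule ℂ (Fin n → ℂ)) :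
    Submodule ℂ (Fin n → ℂ) := ⨆ l, F l (a l)

/-- the four subspaces -/
def Us (a : Fin m → ℕ) (τ : Fin 4 → Fin m) (r : Fin 4 → ℕ)
    (F : Fin m → ℕ → Submodule ℂ (Fin n → ℂ)) (i : Fin 4) : Submodule ℂ (Fin n → ℂ) :=
  F (τ i) (a (τ i) + r i)

lemma mem_inter_iff' (hP : Prob k n m κ N lam a b τ r) (hF : ∀ l, IsFlag n (F l))
    (H : Submodule ℂ (Fin n → ℂ)) :
    H ∈ ⋂ l, schub k n (lam l) (F l) ↔ finrank ℂ ↥H = k ∧ Es a F ≤ H ∧
      ∀ i, a (τ i) + b (τ i) ≤ finrank ℂ ↥(H ⊓ Us a τ r F i) := by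
  have hn := hP.hn
  have hidx : ∀ i, Us a τ r F i = F (τ i) (a (τ i) + b (τ i) + κ) := by
    intro i
    rw [Us, hP.hr]
    congr 1
    omega
  rw [Set.mem_iInter]
  constructor
  · intro h
    have hH := (h (τ 0)).1
    have h1 := fun l => (schub_iff hn hP.hκ (hP.hab l) (hP.shape l) (hF l) hH).1 (h l).2
    refine ⟨hH, iSup_le fun l => (h1 l).1, fun i => ?_⟩
    rw [hidx]
    exact (h1 (τ i)).2
  · rintro ⟨hH, hE, hU⟩ l
    refine ⟨hH, (schub_iff hn hP.hκ (hP.hab l) (hP.shape l) (hF l) hH).2 ⟨?_, ?_⟩⟩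
    · exact (le_iSup (fun l => F l (a l)) l).trans hE
    · by_cases hl : ∃ i, τ i = l
      · obtain ⟨i, rfl⟩ := hl
        rw [← hidx]
        exact hU i
      · push Not at hl
        have hb := hP.hb l hl
        have hab := hP.hab l
        have h1 : F l (a l) ≤ H ⊓ F l (a l + b l + κ) :=
          le_inf ((le_iSup (fun l => F l (a l)) l).trans hE)
            ((hF l).mono _ _ (by omega) (by omega))
        have h2 := Submodule.finrank_mono h1
        rw [(hF l).dim _ (by omega)] at h2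
        omega

lemma inter_iff_sols (hP : Prob k n m κ N lam a b τ r) (hF : ∀ l, IsFlag n (F l))
    (π : Equiv.Perm (Fin 4)) {d : ℕ} {w u : Fin d → Dual ℂ (Fin n → ℂ)}
    (hR : Result κ (Us a τ r F (π 0) ⊔ Es a F).dualAnnihilator
      (Us a τ r F (π 1) ⊔ Es a F).dualAnnihilator (Us a τ r F (π 2) ⊔ Es a F).dualAnnihilator
      (Us a τ r F (π 3) ⊔ Es a F).dualAnnihilator w u) (H : Submodule ℂ (Fin n → ℂ)) :
    H ∈ ⋂ l, schub k n (lam l) (F l) ↔ H.dualAnnihilator ∈
      Sols κ (Us a τ r F (π 0) ⊔ Es a F).dualAnnihilator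
      (Us a τ r F (π 1) ⊔ Es a F).dualAnnihilator (Us a τ r F (π 2) ⊔ Es a F).dualAnnihilator
      (Us a τ r F (π 3) ⊔ Es a F).dualAnnihilator := by
  have hn := hP.hn
  have h4 : finrank ℂ (Fin n → ℂ) = n := finrank_V n
  have hdim : finrank ℂ ↥(H.dualAnnihilator) = 2 * κ ↔ finrank ℂ ↥H = k := by
    have h2 := Subspace.finrank_add_finrank_dualAnnihilator_eq H
    rw [h4] at h2
    omega
  have hUdim : ∀ i, finrank ℂ ↥(Us a τ r F i) = a (τ i) + b (τ i) + κ := by
    intro i
    have := hP.hab (τ i)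
    rw [Us, (hF (τ i)).dim _ (by rw [hP.hr]; omega), hP.hr]
    omega
  have hcond : ∀ i, finrank ℂ ↥H = k → Es a F ≤ H →
      (κ ≤ finrank ℂ ↥(H.dualAnnihilator ⊓ (Us a τ r F i ⊔ Es a F).dualAnnihilator) ↔
        a (τ i) + b (τ i) ≤ finrank ℂ ↥(H ⊓ Us a τ r F i)) := by
    intro i hH hE
    have := finrank_ann (H := H) hn (hUdim i) hE hH
    omega
  rw [mem_inter_iff' hP hF]
  constructor
  · rintro ⟨hH, hE, hU⟩
    exact ⟨hdim.2 hH, (hcond _ hH hE).2 (hU _), (hcond _ hH hE).2 (hU _),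
      (hcond _ hH hE).2 (hU _), (hcond _ hH hE).2 (hU _)⟩
  · intro hW
    have hf := hR.facts _ hW
    have hH := hdim.1 hW.1
    have hE : Es a F ≤ H := by
      rw [← Subspace.dualAnnihilator_le_dualAnnihilator_iff]
      refine hf.le.trans (sup_le ?_ ?_)
      · exact Submodule.dualAnnihilator_anti le_sup_right
      · exact Submodule.dualAnnihilator_anti le_sup_right
    have key : ∀ j, a (τ (π j)) + b (τ (π j)) ≤ finrank ℂ ↥(H ⊓ Us a τ r F (π j)) := by
      intro j
      rw [← hcond _ hH hE]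
      fin_cases j
      · exact hW.2.1
      · exact hW.2.2.1
      · exact hW.2.2.2.1
      · exact hW.2.2.2.2
    refine ⟨hH, hE, fun i => ?_⟩
    have := key (π.symm i)
    rwa [Equiv.apply_symm_apply] at this

/-- the number of solutions -/
theorem inter_encard (hP : Prob k n m κ N lam a b τ r) (hF : ∀ l, IsFlag n (F l))
    (π : Equiv.Perm (Fin 4)) {d : ℕ} {w u : Fin d → Dual ℂ (Fin n → ℂ)}
    (hR : Result κ (Us a τ r F (π 0) ⊔ Es a F).dualAnnihilator
      (Us a τ r F (π 1) ⊔ Es a F).dualAnnihilator (Us a τ r F (π 2) ⊔ Es a F).dualAnnihilator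
      (Us a τ r F (π 3) ⊔ Es a F).dualAnnihilator w u) :
    (⋂ l, schub k n (lam l) (F l)).encard = (d.choose κ : ℕ) := by
  rw [← hR.card]
  have hinj : Function.Injective (fun H : Submodule ℂ (Fin n → ℂ) => H.dualAnnihilator) :=
    fun H H' h => Subspace.dualAnnihilator_inj.1 h
  rw [← hinj.injOn.encard_image (s := ⋂ l, schub k n (lam l) (F l))]
  congr 1
  ext W
  constructor
  · rintro ⟨H, hH, rfl⟩
    exact (inter_iff_sols hP hF π hR H).1 hH
  · intro hW
    have h1 : W.dualCoannihilator.dualAnnihilator = W :=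
      Subspace.dualCoannihilator_dualAnnihilator_eq
    refine ⟨W.dualCoannihilator, ?_, h1⟩
    rw [inter_iff_sols hP hF π hR, h1]
    exact hW

/-- every solution is transverse -/
theorem inter_tan (hP : Prob k n m κ N lam a b τ r) (hF : ∀ l, IsFlag n (F l))
    (π : Equiv.Perm (Fin 4)) {d : ℕ} {w u : Fin d → Dual ℂ (Fin n → ℂ)}
    (hR : Result κ (Us a τ r F (π 0) ⊔ Es a F).dualAnnihilator
      (Us a τ r F (π 1) ⊔ Es a F).dualAnnihilator (Us a τ r F (π 2) ⊔ Es a F).dualAnnihilator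
      (Us a τ r F (π 3) ⊔ Es a F).dualAnnihilator w u) {H : Submodule ℂ (Fin n → ℂ)}
    (hH : H ∈ ⋂ l, schub k n (lam l) (F l)) (φ : ↥H →ₗ[ℂ] (Fin n → ℂ) ⧸ H)
    (hφ : ∀ l, TangentTo k n (lam l) (F l) H φ) : φ = 0 := by
  have hn := hP.hn
  have hκ := hP.hκ
  have hW := (inter_iff_sols hP hF π hR H).1 hH
  have hf := hR.facts _ hW
  obtain ⟨hHk, hE, hU⟩ := (mem_inter_iff' hP hF H).1 hH
  have hUdim : ∀ i, finrank ℂ ↥(Us a τ r F i) = a (τ i) + b (τ i) + κ := by
    intro i
    have := hP.hab (τ i)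
    rw [Us, (hF (τ i)).dim _ (by rw [hP.hr]; omega), hP.hr]
    omega
  have hidx : ∀ i, Us a τ r F i = F (τ i) (a (τ i) + b (τ i) + κ) := by
    intro i
    rw [Us, hP.hr]
    congr 1
    omega
  -- exactness
  have hex : ∀ i, finrank ℂ ↥(H ⊓ Us a τ r F i) = a (τ i) + b (τ i) := by
    have key : ∀ j, finrank ℂ ↥(H.dualAnnihilator ⊓
        (Us a τ r F (π j) ⊔ Es a F).dualAnnihilator) = κ := by
      intro j
      fin_cases j
      · exact hf.e1
      · exact hf.e2
      · exact hf.e3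
      · exact hf.e4
    intro i
    have h1 := key (π.symm i)
    rw [Equiv.apply_symm_apply] at h1
    have h2 := finrank_ann (H := H) hn (hUdim i) hE hHk
    omega
  -- `φ` vanishes on `E`
  have hzero : ∀ l, ∀ x (hx : x ∈ H), x ∈ F l (a l) → φ ⟨x, hx⟩ = 0 := by
    intro l x hx hxF
    have hle : F l (a l) ≤ H := (le_iSup (fun l => F l (a l)) l).trans hE
    have hab := hP.hab l
    rcases Nat.eq_zero_or_pos (a l) with ha | ha
    · have h0 : F l (a l) = ⊥ := by
        rw [ha]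
        exact Submodule.finrank_eq_zero.1 ((hF l).dim 0 (by omega))
      rw [h0, Submodule.mem_bot] at hxF
      subst hxF
      exact map_zero φ
    · have h3 : sidx k n (lam l) ⟨a l - 1, by omega⟩ = a l := by
        rw [sidx, hP.shape]
        simp only
        rw [if_pos (by omega)]
        omega
      have h4 := hφ l ⟨a l - 1, by omega⟩ (by
        rw [h3, inf_eq_right.2 hle, (hF l).dim _ (by omega)]
        simp only
        omega) ⟨x, hx⟩ (by rw [h3]; exact hxF)
      rw [h3] at h4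
      obtain ⟨y, hy, hy'⟩ := h4
      rw [← hy', ← LinearMap.mem_ker, Submodule.ker_mkQ]
      exact hle hy
  have hker : Es a F ≤ (LinearMap.ker φ).map H.subtype := by
    refine iSup_le fun l => ?_
    intro x hx
    have hxH : x ∈ H := hE ((le_iSup (fun l => F l (a l)) l) hx)
    exact ⟨⟨x, hxH⟩, hzero l x hxH hx, rfl⟩
  have hkerE : ∀ x (hx : x ∈ H), x ∈ Es a F → φ ⟨x, hx⟩ = 0 := by
    intro x hx hxE
    obtain ⟨y, hy, hyx⟩ := hker hxE
    have : y = ⟨x, hx⟩ := Subtype.ext hyx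
    rw [← this]
    exact hy
  have hcop : ∀ (f : ↥(H.dualAnnihilator)) (y : Fin n → ℂ),
      H.dualCopairing f (H.mkQ y) = (f : Dual ℂ (Fin n → ℂ)) y := fun f y => rfl
  have htan : ∀ i, ∀ f : ↥(H.dualAnnihilator), (f : Dual ℂ (Fin n → ℂ)) ∈
      (Us a τ r F i ⊔ Es a F).dualAnnihilator → dualTan H φ f ∈
      (Us a τ r F i ⊔ Es a F).dualAnnihilator.map H.dualAnnihilator.mkQ := by
    intro i f hfi
    rw [Submodule.mem_dualAnnihilator] at hfi
    apply dualTan_mem
    intro x hx hxX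
    obtain ⟨u', hu', e', he', rfl⟩ := Submodule.mem_sup.1 hxX
    have heH : e' ∈ H := hE he'
    have huH : u' ∈ H := by
      have := H.sub_mem hx heH
      rwa [add_sub_cancel_right] at this
    have h1 : (⟨u' + e', hx⟩ : ↥H) = ⟨u', huH⟩ + ⟨e', heH⟩ := rfl
    rw [h1, map_add, hkerE e' heH he', add_zero]
    have hab := hP.hab (τ i)
    rcases Nat.eq_zero_or_pos (b (τ i)) with hb | hb
    · have h2 : F (τ i) (a (τ i)) ≤ H ⊓ Us a τ r F i := by
        refine le_inf ((le_iSup (fun l => F l (a l)) (τ i)).trans hE) ?_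
        rw [hidx]
        exact (hF (τ i)).mono _ _ (by omega) (by omega)
      have h3 := Submodule.eq_of_le_of_finrank_le h2 (by
        rw [hex, (hF (τ i)).dim _ (by omega)]
        omega)
      have h4 : u' ∈ F (τ i) (a (τ i)) := by
        rw [h3]
        exact ⟨huH, hu'⟩
      rw [hzero (τ i) u' huH h4, map_zero]
    · have h3 : sidx k n (lam (τ i)) ⟨a (τ i) + b (τ i) - 1, by omega⟩ =
          a (τ i) + b (τ i) + κ := by
        rw [sidx, hP.shape]
        simp only
        rw [if_neg (by omega), if_pos (by omega)]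
        omega
      have h4 := hφ (τ i) ⟨a (τ i) + b (τ i) - 1, by omega⟩ (by
        rw [h3, ← hidx, hex]
        simp only
        omega) ⟨u', huH⟩ (by
          rw [h3, ← hidx]
          exact hu')
      rw [h3, ← hidx] at h4
      obtain ⟨y, hy, hy'⟩ := h4
      rw [← hy', hcop]
      exact hfi y (Submodule.mem_sup_left hy)
  exact dualTan_zero (hR.tan _ hW _ (htan (π 0)) (htan (π 1)) (htan (π 2)) (htan (π 3)))

/-- real functionals -/
def RealF (f : Dual ℂ (Fin n → ℂ)) : Prop :=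
  ∀ x : Fin n → ℂ, f (fun i => (starRingEnd ℂ) (x i)) = (starRingEnd ℂ) (f x)

/-- every solution is real -/
theorem inter_real (hP : Prob k n m κ N lam a b τ r) (hF : ∀ l, IsFlag n (F l))
    (π : Equiv.Perm (Fin 4)) {d : ℕ} {w u : Fin d → Dual ℂ (Fin n → ℂ)}
    (hR : Result κ (Us a τ r F (π 0) ⊔ Es a F).dualAnnihilator
      (Us a τ r F (π 1) ⊔ Es a F).dualAnnihilator (Us a τ r F (π 2) ⊔ Es a F).dualAnnihilator
      (Us a τ r F (π 3) ⊔ Es a F).dualAnnihilator w u) (hw : ∀ i, RealF (w i))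
    (hu : ∀ i, RealF (u i)) {H : Submodule ℂ (Fin n → ℂ)}
    (hH : H ∈ ⋂ l, schub k n (lam l) (F l)) : IsReal n H := by
  have hW := (inter_iff_sols hP hF π hR H).1 hH
  obtain ⟨S, hS⟩ := hR.ws _ hW
  intro x hx
  rw [← Subspace.forall_mem_dualAnnihilator_apply_eq_zero_iff]
  intro f hf
  have hle : H.dualAnnihilator ≤ LinearMap.ker
      (Dual.eval ℂ (Fin n → ℂ) (fun i => (starRingEnd ℂ) (x i))) := by
    have hgen : ∀ g : Dual ℂ (Fin n → ℂ), RealF g → g ∈ H.dualAnnihilator →
        g ∈ LinearMap.ker (Dual.eval ℂ (Fin n → ℂ) (fun i => (starRingEnd ℂ) (x i))) := by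
      intro g hg hgH
      rw [LinearMap.mem_ker, Dual.eval_apply, hg x, (Submodule.mem_dualAnnihilator g).1 hgH x hx,
        map_zero]
    have hwm : ∀ i ∈ S, w i ∈ H.dualAnnihilator := fun i hi => by
      rw [hS]
      exact mem_WS_w S hi
    have hum : ∀ i ∈ S, u i ∈ H.dualAnnihilator := fun i hi => by
      rw [hS]
      exact mem_WS_u S hi
    nth_rewrite 1 [hS]
    apply sup_le
    · rw [Submodule.span_le]
      rintro _ ⟨i, hi, rfl⟩
      exact hgen _ (hw i) (hwm i hi)
    · rw [Submodule.span_le]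
      rintro _ ⟨i, hi, rfl⟩
      exact hgen _ (hu i) (hum i hi)
  exact hle hf

end main

end

end Pool.CSCB
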