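import Pool.Agent.CSCB.Dual
import Pool.Agent.Helper53.TPR.Unbal

/-! The pencil of a strictly totally positive matrix has simple nonzero real roots. -/

namespace Pool.CSCB

open Module Matrix Pool.TPR

/-- the weights of the pencil -/
def wz {K : Type*} [Ring K] (h δ p : ℕ) (z : K) (i j : ℕ) : K :=
  if i < h then (if j < δ then 0 else if j < δ + p then 1 else z - 1)
    else (if j < δ + p then 1 else -1)

lemma det_Gz {K : Type*} [CommRing K] (N h δ p : ℕ) (A : ℕ → ℕ → K) (z : K) :
    (Gz h δ p (Matrix.of fun i j : Fin N => A i j) z).det =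
      dt N (fun i j => wz h δ p z i j * A i j) := by
  rw [dt]
  congr 1
  ext i j
  simp only [Gz, Matrix.of_apply, wz]
  ring

lemma prod_tail {K : Type*} [CommRing K] (a q : ℕ) (b : K) :
    ∏ j ∈ Finset.range (a + q), (if j < a then 1 else b) = b ^ q := by
  rw [Finset.prod_range_add]
  have h1 : ∏ x ∈ Finset.range a, (if x < a then (1 : K) else b) = 1 :=
    Finset.prod_eq_one fun x hx => by rw [if_pos (Finset.mem_range.1 hx)]
  have h2 : ∏ x ∈ Finset.range q, (if a + x < a then (1 : K) else b) = b ^ q := by
    rw [Finset.prod_congr rfl (g := fun _ => b) fun x _ => by rw [if_neg (by omega)]]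
    simp
  rw [h1, h2, one_mul]

theorem star {h p q d : ℕ} (hh : h ≤ p) (hd : d + h ≤ d + (p + q)) (A : ℕ → ℕ → ℝ)
    (hA : TPR.STP (d + (p + q)) A) :
    ∃ z : Fin (min h q) → ℝ, Function.Injective z ∧ (∀ i, z i ≠ 0) ∧
      ∃ c : ℝ, c ≠ 0 ∧ ∀ x : ℝ,
        (Gz h d p (Matrix.of fun i j : Fin (d + (p + q)) => A i j) x).det =
          c * ∏ i, (x - z i) := by
  obtain ⟨α, hα, hmono, hroots⟩ := rootsU h p q hh d A hA
  set σ : ℝ := (-1) ^ (p + h) with hσ
  have hσ2 : σ * σ = 1 := by
    rw [hσ, ← pow_add, ← two_mul, pow_mul]
    norm_num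
  have hσ0 : σ ≠ 0 := fun h0 => by
    rw [h0, zero_mul] at hσ2
    exact zero_ne_one hσ2
  set D := dt (d + (p + q)) (zb h d A) with hD
  have hD0 : D ≠ 0 := by
    have h1 := zero_block (d + (p + q)) h d A hA (by omega)
    intro h0
    rw [← hD, h0, mul_zero] at h1
    exact lt_irrefl _ h1
  have hαlt : ∀ i j, i < j → j < min h q → α i < α j := by
    intro i j hij
    induction j with
    | zero => omega
    | succ j ih =>
      intro hj
      rcases Nat.lt_succ_iff_lt_or_eq.1 hij with h1 | h1
      · exact (ih h1 (by omega)).trans (hmono j hj)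
      · subst h1
        exact hmono i hj
  refine ⟨fun i => -σ / α i, ?_, ?_, D * (-1) ^ q * ∏ i : Fin (min h q), (σ * α i), ?_, ?_⟩
  · intro i j hij
    have hi := hα i i.2
    have hj := hα j j.2
    simp only at hij
    rw [div_eq_div_iff hi.ne' hj.ne'] at hij
    have h1 : α j = α i := mul_left_cancel₀ (neg_ne_zero.2 hσ0) hij
    rcases lt_trichotomy (i : ℕ) (j : ℕ) with h2 | h2 | h2
    · exact absurd h1 (hαlt i j h2 j.2).ne'
    · exact Fin.ext h2
    · exact absurd h1 (hαlt j i h2 i.2).ne
  · intro i
    exact div_ne_zero (neg_ne_zero.2 hσ0) (hα i i.2).ne'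
  · refine mul_ne_zero (mul_ne_zero hD0 (pow_ne_zero _ (by norm_num))) ?_
    exact Finset.prod_ne_zero_iff.2 fun i _ => mul_ne_zero hσ0 (hα i i.2).ne'
  · intro x
    rw [det_Gz]
    have hprod : (∏ i : Fin (min h q), (σ * α i)) * ∏ i : Fin (min h q), (x - -σ / α i) =
        ∏ i : Fin (min h q), (1 + σ * α i * x) := by
      rw [← Finset.prod_mul_distrib]
      refine Finset.prod_congr rfl fun i _ => ?_
      have hi := (hα i i.2).ne'
      field_simp
      linear_combination hσ2
    rw [mul_assoc, hprod]
    by_cases hx : x = 0
    · subst hx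
      have h1 : dt (d + (p + q)) (fun i j => wz h d p (0 : ℝ) i j * A i j) =
          dt (d + (p + q)) (fun i j => (if j < d + p then (1 : ℝ) else -1) * zb h d A i j) := by
        refine dt_congr fun i _ j _ => ?_
        simp only [wz, zb]
        by_cases hi : i < h <;> by_cases hj : j < d <;> by_cases hj' : j < d + p <;>
          simp [hi, hj, hj'] <;> omega
      rw [h1, dt_mul_col, ← add_assoc, prod_tail]
      simp only [mul_zero, add_zero, Finset.prod_const_one, mul_one]
      rw [hD, ← add_assoc, mul_comm]
    · set y : ℝ := -σ / x with hy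
      have hy0 : y ≠ 0 := div_ne_zero (neg_ne_zero.2 hσ0) hx
      have hyx : y * x = -σ := by
        rw [hy]
        field_simp
      have h2 : FU (d + (p + q)) h d p σ A y =
          (-y) ^ q * dt (d + (p + q)) (fun i j => wz h d p x i j * A i j) := by
        have h3 : FU (d + (p + q)) h d p σ A y = dt (d + (p + q))
            (fun i j => (if j < d + p then (1 : ℝ) else -y) * (wz h d p x i j * A i j)) := by
          rw [FU]
          refine dt_congr fun i _ j _ => ?_
          rw [← mul_assoc]
          congr 1
          simp only [wu, wt, wz]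
          by_cases hi : i < h
          · by_cases hj : j < d
            · simp [hi, hj]
            · by_cases hj' : j < d + p
              · have : j - d < p := by omega
                simp [hi, hj, hj', this]
              · have : ¬ (j - d < p) := by omega
                simp only [hi, hj, hj', this, if_true, if_false]
                linear_combination hyx
          · by_cases hj' : j < d + p
            · by_cases hj : j < d
              · simp [hi, hj, hj']
              · have : j - d < p := by omega
                simp [hi, hj, hj', this]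
            · have hj : ¬ j < d := by omega
              have : ¬ (j - d < p) := by omega
              simp [hi, hj, hj', this]
        rw [h3, dt_mul_col, ← add_assoc, prod_tail]
      have h4 := hroots y
      rw [h2] at h4
      have h5 : ∏ i ∈ Finset.range (min h q), (y - α i) =
          y ^ (min h q) * ∏ i : Fin (min h q), (1 + σ * α i * x) := by
        rw [← Fin.prod_univ_eq_prod_range (fun i => y - α i) (min h q)]
        have h6 : y ^ (min h q) = ∏ _i : Fin (min h q), y := by simp
        rw [h6, ← Finset.prod_mul_distrib]
        refine Finset.prod_congr rfl fun i _ => ?_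
        linear_combination (-σ * α i) * hyx + α i * hσ2
      rw [h5, ← mul_assoc (y ^ (q - min h q)), ← pow_add,
        show q - min h q + min h q = q by omega] at h4
      have h7 : (-y) ^ q * ((-1) ^ q) = y ^ q := by
        rw [← mul_pow]
        congr 1
        ring
      have h8 : (-1 : ℝ) ^ q * (-1) ^ q = 1 := by
        rw [← mul_pow]
        simp
      have h9 : (-y) ^ q ≠ 0 := pow_ne_zero _ (neg_ne_zero.2 hy0)
      apply mul_left_cancel₀ h9
      rw [h4, ← h7]
      ring

end Pool.CSCB
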